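import Pool.Agent.Lib.MP_6ad5de_an.Lift

open Filter Topology Set

namespace Pool.Agent.Lib.MP_6ad5de_an

lemma near_algebra {A1 A2 D W δ a N : ℝ} (hA1 : 0 ≤ A1) (hA2 : 0 ≤ A2) (_hD : 0 ≤ D) (hW : 0 ≤ W)
    (hδ : 0 < δ) (_ha : 0 ≤ a) (h1 : A1 ≤ 12 * δ * W) (h2 : A1 ≤ 12 * D) (h3 : A2 ≤ A1 + D)
    (h4 : D ≤ 8 * (δ + a) * W) (hN : 10 ^ 12 * δ ^ 3 * (δ + a) * N ^ 2 ≤ 1) :
    82944 * A1 ^ 3 * A2 ^ 3 * N ^ 2 ≤ 4 * D ^ 2 * W ^ 4 := by
  have h5 : A2 ≤ 13 * D := by linarith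
  have e1 : A1 ^ 3 ≤ (12 * δ * W) ^ 3 := by gcongr
  have e2 : A2 ^ 3 ≤ (13 * D) ^ 3 := by gcongr
  have e3 : (13 * D) ^ 3 ≤ 2197 * D ^ 2 * (8 * (δ + a) * W) := by
    have : (13 * D) ^ 3 = 2197 * D ^ 2 * D := by ring
    rw [this]
    gcongr
  have e4 : A1 ^ 3 * A2 ^ 3 ≤ (12 * δ * W) ^ 3 * (2197 * D ^ 2 * (8 * (δ + a) * W)) := by
    apply mul_le_mul e1 (e2.trans e3) (by positivity) (by positivity)
  calc 82944 * A1 ^ 3 * A2 ^ 3 * N ^ 2 = 82944 * (A1 ^ 3 * A2 ^ 3) * N ^ 2 := by ring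
    _ ≤ 82944 * ((12 * δ * W) ^ 3 * (2197 * D ^ 2 * (8 * (δ + a) * W))) * N ^ 2 := by gcongr
    _ = (82944 * 1728 * 2197 * 8 / 10 ^ 12) * (10 ^ 12 * δ ^ 3 * (δ + a) * N ^ 2) * (D ^ 2 * W ^ 4) := by ring
    _ ≤ (82944 * 1728 * 2197 * 8 / 10 ^ 12) * 1 * (D ^ 2 * W ^ 4) := by gcongr
    _ ≤ 4 * (D ^ 2 * W ^ 4) := by
      gcongr
      norm_num
    _ = 4 * D ^ 2 * W ^ 4 := by ring

lemma log_low {x y δ : ℝ} (hx : 0 < x) (hy : 0 < y) (hδ : 0 < δ) (hδ1 : δ ≤ 1)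
    (h : |Real.log x - Real.log y| = δ) : δ / 2 * x ≤ |x - y| := by
  have hy' : y = x * Real.exp (Real.log y - Real.log x) := by
    rw [Real.exp_sub, Real.exp_log hx, Real.exp_log hy]
    field_simp
  rcases abs_eq hδ.le |>.mp h with h | h
  · -- log y - log x = -δ
    have e : Real.log y - Real.log x = -δ := by linarith
    rw [e] at hy'
    have h1 : Real.exp (-δ) ≤ 1 - δ / 2 := by
      rw [Real.exp_neg, inv_le_comm₀ (Real.exp_pos _) (by linarith)]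
      have h2 : δ + 1 ≤ Real.exp δ := Real.add_one_le_exp δ
      refine le_trans ?_ h2
      rw [inv_le_iff_one_le_mul₀ (by linarith)]
      nlinarith
    rw [hy']
    have : x - x * Real.exp (-δ) = x * (1 - Real.exp (-δ)) := by ring
    rw [this, abs_of_nonneg (mul_nonneg hx.le (by linarith))]
    nlinarith
  · have e : Real.log y - Real.log x = δ := by linarith
    rw [e] at hy'
    have h2 : δ + 1 ≤ Real.exp δ := Real.add_one_le_exp δ
    rw [hy', abs_sub_comm]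
    have : x * Real.exp δ - x = x * (Real.exp δ - 1) := by ring
    rw [this, abs_of_nonneg (mul_nonneg hx.le (by linarith))]
    nlinarith

lemma exp_half_le : Real.exp (1 / 2) ≤ 2 := by
  have h : Real.exp (1 / 2) ^ 2 = Real.exp 1 := by
    rw [← Real.exp_nat_mul]; norm_num
  have h1 := Real.exp_one_lt_d9
  nlinarith [Real.exp_pos (1 / 2)]

lemma norm_le_two {x y δ : ℝ} (hx : 0 < x) (hy : 0 < y) (hδ' : δ ≤ 1 / 4)
    (h : |Real.log x - Real.log y| ≤ 2 * δ) : y ≤ 2 * x := by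
  have h1 := (abs_le.mp h).1
  have hy' : y = x * Real.exp (Real.log y - Real.log x) := by
    rw [Real.exp_sub, Real.exp_log hx, Real.exp_log hy]
    field_simp
  have h2 : Real.exp (Real.log y - Real.log x) ≤ 2 :=
    (Real.exp_le_exp.mpr (by linarith)).trans exp_half_le
  rw [hy']
  nlinarith

lemma exp_near {γ w v : ℂ} {δ : ℝ} (hδ' : δ ≤ 1 / 4) (hv : w = γ * Complex.exp v)
    (h1 : |v.re| ≤ 2 * δ) (h2 : |v.im| ≤ δ) : ‖w - γ‖ ≤ 6 * δ * ‖γ‖ := by
  have hn : ‖v‖ ≤ 3 * δ := by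
    have := Complex.norm_le_abs_re_add_abs_im v
    linarith
  have h3 : ‖Complex.exp v - 1‖ ≤ 2 * ‖v‖ := Complex.norm_exp_sub_one_le (by linarith)
  have h4 : w - γ = γ * (Complex.exp v - 1) := by rw [hv]; ring
  rw [h4, norm_mul]
  calc ‖γ‖ * ‖Complex.exp v - 1‖ ≤ ‖γ‖ * (2 * (3 * δ)) := by gcongr; linarith
    _ = 6 * δ * ‖γ‖ := by ring

lemma exp_far {v : ℂ} (h1 : |v.re| ≤ 1) : ‖Complex.exp v - 1‖ ≤ 4 * ‖v‖ := by
  rcases le_total ‖v‖ 1 with h | h
  · have := Complex.norm_exp_sub_one_le h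
    have := norm_nonneg v
    linarith
  · have h2 : ‖Complex.exp v - 1‖ ≤ ‖Complex.exp v‖ + ‖(1:ℂ)‖ := norm_sub_le _ _
    rw [Complex.norm_exp, norm_one] at h2
    have h3 : Real.exp v.re ≤ Real.exp 1 := Real.exp_le_exp.mpr (abs_le.mp h1).2
    have := Real.exp_one_lt_d9
    linarith

lemma neg_eq_exp {u : ℂ} (hu : u ≠ 0) :
    -u = Complex.exp (Complex.log u - Real.pi * Complex.I) ∧
    -u = Complex.exp (Complex.log u + Real.pi * Complex.I) := by
  constructor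
  · rw [Complex.exp_sub, Complex.exp_log hu, Complex.exp_pi_mul_I]; ring
  · rw [Complex.exp_add, Complex.exp_log hu, Complex.exp_pi_mul_I]; ring

lemma near_est {γ γ' w : ℂ} (hγ : γ ≠ 0) (hγ' : γ' ≠ 0) (hw : w ≠ 0) {δ : ℝ} (hδ : 0 < δ)
    (hδ' : δ ≤ 1 / 4) (hgg : |Real.log ‖γ'‖ - Real.log ‖γ‖| = δ)
    (h1 : |Real.log ‖w‖ - Real.log ‖γ‖| ≤ 2 * δ) (h2 : |Real.log ‖w‖ - Real.log ‖γ'‖| ≤ 2 * δ)
    (hnear : Real.pi - δ ≤ |Complex.arg (-w / γ)| ∨
      |Complex.arg (-w / γ) - Complex.arg (-γ' / γ)| ≤ δ) {N : ℝ}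
    (hN : 10 ^ 12 * δ ^ 3 * (δ + (Real.pi - Complex.arg (-γ' / γ))) * N ^ 2 ≤ 1) :
    82944 * ‖w - γ‖ ^ 3 * ‖w - γ'‖ ^ 3 * N ^ 2 ≤ 4 * ‖γ' - γ‖ ^ 2 * ‖w‖ ^ 4 := by
  have nγ : 0 < ‖γ‖ := norm_pos_iff.mpr hγ
  have nγ' : 0 < ‖γ'‖ := norm_pos_iff.mpr hγ'
  have nw : 0 < ‖w‖ := norm_pos_iff.mpr hw
  have hu : -w / γ ≠ 0 := div_ne_zero (neg_ne_zero.mpr hw) hγ
  have hu' : -γ' / γ ≠ 0 := div_ne_zero (neg_ne_zero.mpr hγ') hγ
  have ha : 0 ≤ Real.pi - Complex.arg (-γ' / γ) := by linarith [Complex.arg_le_pi (-γ' / γ)]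
  have lre : (Complex.log (-w / γ)).re = Real.log ‖w‖ - Real.log ‖γ‖ := by
    rw [Complex.log_re, norm_div, norm_neg, Real.log_div nw.ne' nγ.ne']
  have lre' : (Complex.log (-γ' / γ)).re = Real.log ‖γ'‖ - Real.log ‖γ‖ := by
    rw [Complex.log_re, norm_div, norm_neg, Real.log_div nγ'.ne' nγ.ne']
  -- upper bound for the distance
  have hD : ‖γ' - γ‖ ≤ 8 * (δ + (Real.pi - Complex.arg (-γ' / γ))) * ‖w‖ := by
    have e := (neg_eq_exp hu').1
    have e2 : γ' - γ = γ * (Complex.exp (Complex.log (-γ' / γ) - Real.pi * Complex.I) - 1) := by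
      rw [← e]; field_simp
    have e3 : |(Complex.log (-γ' / γ) - Real.pi * Complex.I).re| = δ := by
      simp only [Complex.sub_re, lre']
      simpa using hgg
    have e4 : |(Complex.log (-γ' / γ) - Real.pi * Complex.I).im| = Real.pi - Complex.arg (-γ' / γ) := by
      simp only [Complex.sub_im, Complex.log_im]
      simp
      rw [abs_of_nonpos (by linarith)]
      ring
    have e5 := exp_far (v := Complex.log (-γ' / γ) - Real.pi * Complex.I) (by rw [e3]; linarith)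
    have e6 := Complex.norm_le_abs_re_add_abs_im (Complex.log (-γ' / γ) - Real.pi * Complex.I)
    rw [e3, e4] at e6
    rw [e2, norm_mul]
    have e7 := norm_le_two nw nγ hδ' h1
    calc ‖γ‖ * ‖Complex.exp (Complex.log (-γ' / γ) - Real.pi * Complex.I) - 1‖
        ≤ (2 * ‖w‖) * (4 * (δ + (Real.pi - Complex.arg (-γ' / γ)))) := by
          apply mul_le_mul e7 (e5.trans (by linarith)) (norm_nonneg _) (by positivity)
      _ = _ := by ring
  have low1 : δ / 2 * ‖γ‖ ≤ ‖γ' - γ‖ := by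
    have := log_low nγ nγ' hδ (by linarith) (by rw [abs_sub_comm]; exact hgg)
    refine this.trans ?_
    rw [abs_sub_comm]
    exact abs_norm_sub_norm_le γ' γ
  have low2 : δ / 2 * ‖γ'‖ ≤ ‖γ' - γ‖ := by
    have := log_low nγ' nγ hδ (by linarith) hgg
    exact this.trans (abs_norm_sub_norm_le γ' γ)
  rcases hnear with hn | hn
  · have key : ‖w - γ‖ ≤ 6 * δ * ‖γ‖ := by
      rcases le_total 0 (Complex.arg (-w / γ)) with h0 | h0
      · rw [abs_of_nonneg h0] at hn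
        refine exp_near (v := Complex.log (-w / γ) - Real.pi * Complex.I) hδ' ?_ ?_ ?_
        · rw [← (neg_eq_exp hu).1]; field_simp
        · simp only [Complex.sub_re, lre]
          simpa using h1
        · simp only [Complex.sub_im, Complex.log_im]
          simp
          rw [abs_of_nonpos (by linarith [Complex.arg_le_pi (-w / γ)])]
          linarith
      · rw [abs_of_nonpos h0] at hn
        refine exp_near (v := Complex.log (-w / γ) + Real.pi * Complex.I) hδ' ?_ ?_ ?_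
        · rw [← (neg_eq_exp hu).2]; field_simp
        · simp only [Complex.add_re, lre]
          simpa using h1
        · simp only [Complex.add_im, Complex.log_im]
          simp
          rw [abs_of_nonneg (by linarith [Complex.neg_pi_lt_arg (-w / γ)])]
          linarith
    have t1 := norm_le_two nw nγ hδ' h1
    refine near_algebra (norm_nonneg _) (norm_nonneg _) (norm_nonneg _) (norm_nonneg _) hδ ha
      ?_ ?_ ?_ hD hN
    · nlinarith
    · linarith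
    · have : w - γ' = (w - γ) - (γ' - γ) := by ring
      rw [this]
      exact norm_sub_le _ _
  · have key : ‖w - γ'‖ ≤ 6 * δ * ‖γ'‖ := by
      refine exp_near (v := Complex.log (-w / γ) - Complex.log (-γ' / γ)) hδ' ?_ ?_ ?_
      · rw [Complex.exp_sub, Complex.exp_log hu, Complex.exp_log hu']; field_simp
      · simp only [Complex.sub_re, lre, lre']
        have : Real.log ‖w‖ - Real.log ‖γ‖ - (Real.log ‖γ'‖ - Real.log ‖γ‖) =
          Real.log ‖w‖ - Real.log ‖γ'‖ := by ring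
        rw [this]
        exact h2
      · simp only [Complex.sub_im, Complex.log_im]
        exact hn
    have t1 := norm_le_two nw nγ' hδ' h2
    have := near_algebra (N := N) (norm_nonneg (w - γ')) (norm_nonneg (w - γ)) (norm_nonneg (γ' - γ))
      (norm_nonneg w) hδ ha (by nlinarith) (by linarith) (by
        have : w - γ = (w - γ') + (γ' - γ) := by ring
        rw [this]
        exact norm_add_le _ _) hD hN
    linarith

/-- the angular field attached to a gap -/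
theorem gap_field : ∃ κ δ0 : ℝ, 1 ≤ κ ∧ 0 < δ0 ∧ δ0 ≤ 1 / 4 ∧ ∀ α β : ℂ, 0 < ‖α‖ → ‖α‖ < ‖β‖ →
    Real.log ‖β‖ - Real.log ‖α‖ ≤ δ0 → ∃ P Q : ℂ → ℝ,
      (∀ w, w ≠ 0 → ContDiffAt ℝ 1 P w ∧ ContinuousAt Q w ∧ HasFDerivAt P (Q w • YL w) w) ∧
      ∀ w, w ≠ 0 → Real.log ‖α‖ - (Real.log ‖β‖ - Real.log ‖α‖) ≤ Real.log ‖w‖ →
        Real.log ‖w‖ ≤ Real.log ‖β‖ →
        (Q w + P w ^ 2 + 1 / 4 ≤ κ * (Real.log ‖β‖ - Real.log ‖α‖)) ∨
        (∃ N, 0 ≤ N ∧ Q w + 2 * P w ^ 2 + 1 / 2 ≤ N ∧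
          82944 * ‖w - α‖ ^ 3 * ‖w - β‖ ^ 3 * N ^ 2 ≤ 4 * ‖β - α‖ ^ 2 * ‖w‖ ^ 4) := by
  obtain ⟨M, hM1, hM⟩ := exists_M
  set κ : ℝ := 10 ^ 15 * M ^ 2 with hκ
  have hM2 : 1 ≤ M ^ 2 := by nlinarith
  have hκ1 : 10 ^ 15 ≤ κ := by rw [hκ]; nlinarith
  have hκ0 : 0 < κ := by linarith
  refine ⟨κ, 2 / (5 * κ), by linarith, by positivity, ?_, ?_⟩
  · rw [div_le_iff₀ (by positivity)]; linarith
  intro α β hα hαβ hδδ
  set δ : ℝ := Real.log ‖β‖ - Real.log ‖α‖ with hδdef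
  have hβ : 0 < ‖β‖ := hα.trans hαβ
  have hδ : 0 < δ := by
    have := Real.log_lt_log hα hαβ
    rw [hδdef]; linarith
  have hκδ : κ * δ ≤ 2 / 5 := by
    rw [le_div_iff₀ (by positivity)] at hδδ
    linarith
  have hδ' : δ ≤ 1 / 4 := by nlinarith
  have hα0 : α ≠ 0 := norm_pos_iff.mp hα
  have hβ0 : β ≠ 0 := norm_pos_iff.mp hβ
  -- choice of the base
  obtain ⟨γ, γ', hγ, hγ', hgg, hcase, hy0⟩ : ∃ γ γ' : ℂ, γ ≠ 0 ∧ γ' ≠ 0 ∧
      |Real.log ‖γ'‖ - Real.log ‖γ‖| = δ ∧ ((γ = α ∧ γ' = β) ∨ (γ = β ∧ γ' = α)) ∧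
      0 ≤ Complex.arg (-γ' / γ) := by
    rcases le_total 0 (-β / α).im with h | h
    · exact ⟨α, β, hα0, hβ0, abs_of_pos hδ, Or.inl ⟨rfl, rfl⟩, Complex.arg_nonneg_iff.mpr h⟩
    · refine ⟨β, α, hβ0, hα0, ?_, Or.inr ⟨rfl, rfl⟩, Complex.arg_nonneg_iff.mpr ?_⟩
      · rw [abs_sub_comm]; exact abs_of_pos hδ
      · have e : -α / β = (-β / α)⁻¹ := by field_simp
        rw [e, Complex.inv_im]
        apply div_nonneg _ (Complex.normSq_nonneg _)
        linarith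
  have hest : ∀ w, w ≠ 0 → Real.log ‖α‖ - δ ≤ Real.log ‖w‖ →
        Real.log ‖w‖ ≤ Real.log ‖β‖ → (Real.pi - δ ≤ |Complex.arg (-w / γ)| ∨
      |Complex.arg (-w / γ) - Complex.arg (-γ' / γ)| ≤ δ) → ∀ N : ℝ,
      10 ^ 12 * δ ^ 3 * (δ + (Real.pi - Complex.arg (-γ' / γ))) * N ^ 2 ≤ 1 →
      82944 * ‖w - α‖ ^ 3 * ‖w - β‖ ^ 3 * N ^ 2 ≤ 4 * ‖β - α‖ ^ 2 * ‖w‖ ^ 4 := by
    intro w hw hw1 hw2 hn N hN
    have b1 : |Real.log ‖w‖ - Real.log ‖α‖| ≤ 2 * δ := by
      rw [abs_le]; constructor <;> linarith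
    have b2 : |Real.log ‖w‖ - Real.log ‖β‖| ≤ 2 * δ := by
      rw [abs_le]; constructor <;> linarith
    rcases hcase with ⟨rfl, rfl⟩ | ⟨rfl, rfl⟩
    · exact near_est hγ hγ' hw hδ hδ' hgg b1 b2 hn hN
    · have := near_est hγ hγ' hw hδ hδ' hgg b2 b1 hn hN
      rw [norm_sub_rev γ' γ] at this
      linarith
  set a : ℝ := Real.pi - Complex.arg (-γ' / γ) with ha
  have ha0 : 0 ≤ a := by rw [ha]; linarith [Complex.arg_le_pi (-γ' / γ)]
  have ha1 : a ≤ Real.pi := by rw [ha]; linarith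
  rcases le_or_gt a (κ * δ) with hA | hB
  · obtain ⟨p, pc, pl, pr, pf, pn⟩ := angle_A hM hκ0 hδ hκδ
    refine ⟨fun w => p (Complex.arg (-w / γ)), fun w => deriv p (Complex.arg (-w / γ)),
      fun w hw => lift_field (s := δ / 3) (by positivity) pc pl pr hγ hw, ?_⟩
    intro w hw hw1 hw2
    rcases le_or_gt |Complex.arg (-w / γ)| (Real.pi - δ) with h | h
    · left
      have := abs_le.mp h
      exact pf _ (by linarith) (by linarith)
    · right
      refine ⟨_, ?_, pn _, hest w hw hw1 hw2 (Or.inl h.le) _ ?_⟩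
      · positivity
      · have hN : 6 * M * (1 / (2 * (κ * δ))) / δ + 2 * (1 / (2 * (κ * δ))) ^ 2 + 1 / 2 ≤
            5 * M / (κ * δ ^ 2) := by
          have e : 6 * M * (1 / (2 * (κ * δ))) / δ + 2 * (1 / (2 * (κ * δ))) ^ 2 + 1 / 2 =
            (3 * M + 1 / (2 * κ) + κ * δ ^ 2 / 2) / (κ * δ ^ 2) := by
            field_simp
            ring
          rw [e]
          gcongr
          have e1 : 1 / (2 * κ) ≤ 1 / 2 := by
            rw [div_le_div_iff₀ (by positivity) (by norm_num)]; linarith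
          have e2 : κ * δ ^ 2 / 2 ≤ 1 / 2 := by nlinarith
          linarith
        have hN0 : 0 ≤ 6 * M * (1 / (2 * (κ * δ))) / δ + 2 * (1 / (2 * (κ * δ))) ^ 2 + 1 / 2 := by
          positivity
        calc 10 ^ 12 * δ ^ 3 * (δ + a) * (6 * M * (1 / (2 * (κ * δ))) / δ + 2 * (1 / (2 * (κ * δ))) ^ 2 + 1 / 2) ^ 2
            ≤ 10 ^ 12 * δ ^ 3 * (κ * δ + κ * δ) * (5 * M / (κ * δ ^ 2)) ^ 2 := by
              gcongr
              nlinarith
          _ = 50 * 10 ^ 12 * M ^ 2 / κ := by field_simp; ring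
          _ ≤ 1 := by
            rw [div_le_one hκ0, hκ]
            nlinarith
  · have ha2 : 0 < a := lt_trans (by positivity) hB
    obtain ⟨p, pc, pl, pr, pf, pn⟩ := angle_B hM ha2 ha1 hδ
    refine ⟨fun w => p (Complex.arg (-w / γ)), fun w => deriv p (Complex.arg (-w / γ)),
      fun w hw => lift_field (s := δ / 3) (by positivity) pc pl pr hγ hw, ?_⟩
    intro w hw hw1 hw2
    have hNN : 10 ^ 12 * δ ^ 3 * (δ + a) * (6 * M * (2 / a) / δ + 2 * (2 / a) ^ 2 + 1 / 2) ^ 2 ≤ 1 := by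
      have hN : 6 * M * (2 / a) / δ + 2 * (2 / a) ^ 2 + 1 / 2 ≤ 21 * M / (a * δ) := by
        have e : 6 * M * (2 / a) / δ + 2 * (2 / a) ^ 2 + 1 / 2 =
            (12 * M + 8 * (δ / a) + a * δ / 2) / (a * δ) := by
            field_simp
            ring
        rw [e]
        gcongr
        have e1 : δ / a ≤ 1 := by
          rw [div_le_one ha2]
          nlinarith
        have e2 : a * δ / 2 ≤ 1 := by
          have := Real.pi_le_four
          nlinarith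
        linarith
      have hN0 : 0 ≤ 6 * M * (2 / a) / δ + 2 * (2 / a) ^ 2 + 1 / 2 := by positivity
      calc 10 ^ 12 * δ ^ 3 * (δ + a) * (6 * M * (2 / a) / δ + 2 * (2 / a) ^ 2 + 1 / 2) ^ 2
          ≤ 10 ^ 12 * δ ^ 3 * (a + a) * (21 * M / (a * δ)) ^ 2 := by
            gcongr
            nlinarith
        _ = (882 * 10 ^ 12 * M ^ 2) * (δ / a) := by field_simp; ring
        _ ≤ (882 * 10 ^ 12 * M ^ 2) * (1 / κ) := by
          refine mul_le_mul_of_nonneg_left ?_ (by positivity)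
          rw [div_le_div_iff₀ ha2 hκ0]
          linarith
        _ = 882 * 10 ^ 12 * M ^ 2 / κ := by ring
        _ ≤ 1 := by
          rw [div_le_one hκ0, hκ]
          nlinarith
    rcases le_or_gt |Complex.arg (-w / γ)| (Real.pi - δ) with h | h
    · rcases le_or_gt δ |Complex.arg (-w / γ) - Complex.arg (-γ' / γ)| with h' | h'
      · left
        have hh := abs_le.mp h
        have := pf (Complex.arg (-w / γ)) (by linarith) (by linarith) (by
          have : Real.pi - a = Complex.arg (-γ' / γ) := by rw [ha]; ring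
          rw [this]; exact h')
        have h0 : 0 ≤ κ * δ := by positivity
        exact this.trans h0
      · right
        exact ⟨_, by positivity, pn _, hest w hw hw1 hw2 (Or.inr h'.le) _ hNN⟩
    · right
      exact ⟨_, by positivity, pn _, hest w hw hw1 hw2 (Or.inl h.le) _ hNN⟩

end Pool.Agent.Lib.MP_6ad5de_an
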