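import Mathlib

open Filter Topology Set

namespace Pool.Agent.Lib.MP_6ad5de_an

lemma hasDerivAt_maxpow (n : ℕ) (x : ℝ) :
    HasDerivAt (fun x : ℝ => max x 0 ^ (n + 2)) ((n + 2) * max x 0 ^ (n + 1)) x := by
  rcases lt_trichotomy x 0 with h | rfl | h
  · have e : (fun x : ℝ => max x 0 ^ (n + 2)) =ᶠ[𝓝 x] fun _ => 0 := by
      filter_upwards [Iio_mem_nhds h] with t ht
      rw [max_eq_right (le_of_lt ht)]; simp
    rw [max_eq_right h.le]
    simpa using (hasDerivAt_const x (0:ℝ)).congr_of_eventuallyEq e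
  · have h1 : HasDerivWithinAt (fun x : ℝ => max x 0 ^ (n + 2)) 0 (Iic 0) 0 := by
      refine (hasDerivWithinAt_const (0:ℝ) (Iic 0) (0:ℝ)).congr ?_ ?_
      · intro x hx
        rw [max_eq_right hx]; simp
      · simp
    have h2 : HasDerivWithinAt (fun x : ℝ => max x 0 ^ (n + 2)) 0 (Ici 0) 0 := by
      have h3 : HasDerivWithinAt (fun x : ℝ => x ^ (n + 2)) 0 (Ici 0) 0 := by
        have := (hasDerivAt_pow (n + 2) (0:ℝ)).hasDerivWithinAt (s := Ici 0)
        simpa using this
      refine h3.congr ?_ ?_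
      · intro x hx
        rw [max_eq_left hx]
      · simp
    have h4 := h1.union h2
    rw [Iic_union_Ici, hasDerivWithinAt_univ] at h4
    simpa using h4
  · have e : (fun x : ℝ => max x 0 ^ (n + 2)) =ᶠ[𝓝 x] fun x => x ^ (n + 2) := by
      filter_upwards [Ioi_mem_nhds h] with t ht
      rw [max_eq_left (le_of_lt ht)]
    rw [max_eq_left h.le]
    have := (hasDerivAt_pow (n + 2) x).congr_of_eventuallyEq e
    simpa using this

lemma contDiff_max3 : ContDiff ℝ 2 (fun x : ℝ => max x 0 ^ 3) := by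
  have d3 : deriv (fun x : ℝ => max x 0 ^ 3) = fun x => 3 * max x 0 ^ 2 := by
    ext x
    have := (hasDerivAt_maxpow 1 x).deriv
    norm_num at this
    exact this
  have d2 : deriv (fun x : ℝ => 3 * max x 0 ^ 2) = fun x => 3 * (2 * max x 0) := by
    ext x
    have := ((hasDerivAt_maxpow 0 x).const_mul 3).deriv
    norm_num at this
    norm_num
    exact this
  have h2 : ContDiff ℝ (1 + 1) (fun x : ℝ => max x 0 ^ 3) := by
    rw [contDiff_succ_iff_deriv]
    refine ⟨fun x => (hasDerivAt_maxpow 1 x).differentiableAt, by simp, ?_⟩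
    rw [d3, contDiff_one_iff_deriv]
    refine ⟨fun x => ((hasDerivAt_maxpow 0 x).const_mul 3).differentiableAt, ?_⟩
    rw [d2]
    fun_prop
  norm_num at h2
  exact h2

/-- the radial weight -/
theorem exists_K {d : ℝ} (hd : 0 < d) : ∃ K : ℝ → ℝ, ContDiff ℝ 2 K ∧ (∀ L ≤ d, K L = 0) ∧
    (∀ L, 0 ≤ K L) ∧ (∀ L, 0 ≤ L → K L ≤ L) ∧ (∀ L, d < L → K L ≤ L * deriv K L) ∧
    (∀ L, 0 ≤ K L * deriv (deriv K) L) ∧
    (∀ L, 2 * d ≤ L → L ≤ 3 * d → 1 / 200 ≤ K L * deriv (deriv K) L) := by
  set K : ℝ → ℝ := fun L => max (L - d) 0 ^ 3 / L ^ 2 with hK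
  set K1 : ℝ → ℝ := fun L => 3 * max (L - d) 0 ^ 2 / L ^ 2 - 2 * max (L - d) 0 ^ 3 / L ^ 3 with hK1
  set K2 : ℝ → ℝ := fun L => 6 * max (L - d) 0 * (L - max (L - d) 0) ^ 2 / L ^ 4 with hK2
  have z0 : ∀ L ≤ d, K L = 0 := by
    intro L hL
    simp only [hK]
    rw [max_eq_right (by linarith)]; simp
  have z1 : ∀ L ≤ d, K1 L = 0 := by
    intro L hL
    simp only [hK1]
    rw [max_eq_right (by linarith)]; simp
  have z2 : ∀ L ≤ d, K2 L = 0 := by
    intro L hL
    simp only [hK2]
    rw [max_eq_right (by linarith)]; simp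
  have m3 : ∀ L, HasDerivAt (fun L => max (L - d) 0 ^ 3) (3 * max (L - d) 0 ^ 2) L := by
    intro L
    have h := hasDerivAt_maxpow 1 (L - d)
    have h' := HasDerivAt.comp_sub_const L d h
    norm_num at h'
    exact h'
  have m2 : ∀ L, HasDerivAt (fun L => max (L - d) 0 ^ 2) (2 * max (L - d) 0) L := by
    intro L
    have h := hasDerivAt_maxpow 0 (L - d)
    have h' := HasDerivAt.comp_sub_const L d h
    norm_num at h'
    exact h'
  have d1 : ∀ L, HasDerivAt K (K1 L) L := by
    intro L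
    rcases lt_or_ge L d with h | h
    · have e : K =ᶠ[𝓝 L] fun _ => 0 := by
        filter_upwards [Iio_mem_nhds h] with t ht using z0 t (le_of_lt ht)
      rw [z1 L h.le]
      exact (hasDerivAt_const L (0:ℝ)).congr_of_eventuallyEq e
    · have hL : L ≠ 0 := (show 0 < L by linarith).ne'
      have := (m3 L).div (hasDerivAt_pow 2 L) (pow_ne_zero 2 hL)
      refine this.congr_deriv ?_
      simp only [hK1]
      field_simp
      norm_num
      ring
  have d2 : ∀ L, HasDerivAt K1 (K2 L) L := by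
    intro L
    rcases lt_or_ge L d with h | h
    · have e : K1 =ᶠ[𝓝 L] fun _ => 0 := by
        filter_upwards [Iio_mem_nhds h] with t ht using z1 t (le_of_lt ht)
      rw [z2 L h.le]
      exact (hasDerivAt_const L (0:ℝ)).congr_of_eventuallyEq e
    · have hL : L ≠ 0 := (show 0 < L by linarith).ne'
      have h1 := ((m2 L).const_mul 3).div (hasDerivAt_pow 2 L) (pow_ne_zero 2 hL)
      have h2 := ((m3 L).const_mul 2).div (hasDerivAt_pow 3 L) (pow_ne_zero 3 hL)
      refine (h1.sub h2).congr_deriv ?_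
      simp only [hK2]
      field_simp
      norm_num
      ring
  have e1 : deriv K = K1 := by ext L; exact (d1 L).deriv
  have e2 : deriv (deriv K) = K2 := by rw [e1]; ext L; exact (d2 L).deriv
  refine ⟨K, ?_, z0, ?_, ?_, ?_, ?_, ?_⟩
  · rw [contDiff_iff_contDiffAt]
    intro L
    rcases lt_or_ge L d with h | h
    · have e : K =ᶠ[𝓝 L] fun _ => 0 := by
        filter_upwards [Iio_mem_nhds h] with t ht using z0 t (le_of_lt ht)
      exact contDiffAt_const.congr_of_eventuallyEq e
    · have hL : L ≠ 0 := (show 0 < L by linarith).ne'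
      have c3 : ContDiff ℝ 2 (fun L : ℝ => max (L - d) 0 ^ 3) := contDiff_max3.comp (by fun_prop)
      exact c3.contDiffAt.div (by fun_prop) (pow_ne_zero 2 hL)
  · intro L
    simp only [hK]
    positivity
  · intro L hL
    rcases le_or_gt L d with h | h
    · rw [z0 L h]; exact hL
    · have hL : 0 < L := by linarith
      simp only [hK]
      rw [max_eq_left (by linarith), div_le_iff₀ (by positivity)]
      have : (L - d) ^ 3 ≤ L ^ 3 := pow_le_pow_left₀ (by linarith) (by linarith) 3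
      nlinarith
  · intro L h
    have hL : 0 < L := by linarith
    rw [e1]
    simp only [hK, hK1]
    rw [max_eq_left (by linarith)]
    have e : L * (3 * (L - d) ^ 2 / L ^ 2 - 2 * (L - d) ^ 3 / L ^ 3) - (L - d) ^ 3 / L ^ 2 =
      3 * d * (L - d) ^ 2 / L ^ 2 := by
      field_simp
      ring
    have : 0 ≤ 3 * d * (L - d) ^ 2 / L ^ 2 := by positivity
    linarith
  · intro L
    rw [e2]
    simp only [hK, hK2]
    positivity
  · intro L h1 h2
    have hL : 0 < L := by linarith
    rw [e2]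
    simp only [hK, hK2]
    rw [max_eq_left (by linarith)]
    have e : (L - d) ^ 3 / L ^ 2 * (6 * (L - d) * (L - (L - d)) ^ 2 / L ^ 4) =
      6 * d ^ 2 * (L - d) ^ 4 / L ^ 6 := by
      field_simp
      ring
    rw [e, div_le_div_iff₀ (by norm_num) (by positivity)]
    have a1 : L ^ 6 ≤ (3 * d) ^ 6 := pow_le_pow_left₀ hL.le h2 6
    have a2 : d ^ 4 ≤ (L - d) ^ 4 := pow_le_pow_left₀ hd.le (by linarith) 4
    have a3 : 6 * d ^ 2 * d ^ 4 ≤ 6 * d ^ 2 * (L - d) ^ 4 := by gcongr
    have a4 : 0 < d ^ 6 := by positivity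
    nlinarith

end Pool.Agent.Lib.MP_6ad5de_an
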