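import Pool.Agent.Lib.MP_6ad5de_an.Fields

open Filter Topology Set MeasureTheory

namespace Pool.Agent.Lib.MP_6ad5de_an

lemma integral_le_length {g : ℝ → ℝ} (hg : Continuous g) (hg1 : ∀ x, g x ≤ 1) {l r : ℝ}
    (hlr : l ≤ r) (hsupp : ∀ x, 0 < g x → l ≤ x ∧ x ≤ r) {a b : ℝ} (hab : a ≤ b) :
    ∫ s in a..b, g s ≤ r - l := by
  rw [intervalIntegral.integral_of_le hab]
  have h1 : ∫ s in Ioc a b, g s ≤ ∫ s in Ioc a b, (Icc l r).indicator (fun _ => (1:ℝ)) s := by
    apply setIntegral_mono
    · exact (hg.intervalIntegrable a b).1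
    · exact (integrable_indicator_iff measurableSet_Icc).mpr (by
        apply integrableOn_const
        · rw [Measure.restrict_apply measurableSet_Icc]
          exact ((measure_mono inter_subset_left).trans_lt measure_Icc_lt_top).ne
        · simp)
    · intro x
      by_cases hx : x ∈ Icc l r
      · rw [indicator_of_mem hx]; exact hg1 x
      · rw [indicator_of_notMem hx]
        by_contra hcon
        push Not at hcon
        exact hx (hsupp x hcon)
  refine h1.trans ?_
  rw [integral_indicator_const _ measurableSet_Icc, smul_eq_mul, mul_one]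
  have h2 : (volume.restrict (Ioc a b)).real (Icc l r) ≤ volume.real (Icc l r) := by
    apply ENNReal.toReal_mono
    · simp
    · exact Measure.restrict_apply_le _ _
  refine h2.trans ?_
  rw [Real.volume_real_Icc_of_le hlr]

theorem exists_partition {y : ℕ → ℝ} (hy : StrictMono y) : ∃ g : ℕ → ℝ → ℝ,
    (∀ n, ContDiff ℝ 1 (g n)) ∧ (∀ n x, 0 ≤ g n x) ∧
    (∀ n x, 0 < g n x → y n - (y (n + 1) - y n) ≤ x ∧ x ≤ y (n + 1)) ∧
    (∀ J x, y 0 ≤ x → x ≤ y J → ∑ n ∈ Finset.range (J + 1), g n x = 1) ∧
    (∀ n a b, a ≤ b → ∫ s in a..b, g n s ≤ 2 * (y (n + 1) - y n)) := by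
  set δ : ℕ → ℝ := fun n => y (n + 1) - y n with hδ
  have δpos : ∀ n, 0 < δ n := fun n => sub_pos.mpr (hy (Nat.lt_succ_self n))
  set W : ℕ → ℝ := fun n => min (δ (n - 1)) (δ n) with hW
  have Wpos : ∀ n, 0 < W n := fun n => lt_min (δpos _) (δpos _)
  have W1 : ∀ n, W n ≤ δ n := fun n => min_le_right _ _
  have W2 : ∀ n, W (n + 1) ≤ δ n := fun n => by
    simp [hW]
  set T : ℕ → ℝ → ℝ := fun n x => S ((x - y n) / W n + 1) with hT
  have T1 : ∀ n x, y n ≤ x → T n x = 1 := by
    intro n x hx
    apply S_one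
    have : 0 ≤ (x - y n) / W n := div_nonneg (by linarith) (Wpos n).le
    linarith
  have T0 : ∀ n x, x ≤ y n - W n → T n x = 0 := by
    intro n x hx
    apply S_zero
    have : (x - y n) / W n ≤ -1 := by
      rw [div_le_iff₀ (Wpos n)]; linarith
    linarith
  have Tn : ∀ n x, 0 ≤ T n x := fun n x => S_nonneg _
  have Tl : ∀ n x, T n x ≤ 1 := fun n x => S_le_one _
  have Tc : ∀ n, ContDiff ℝ 1 (T n) := fun n => S_contDiff1.comp (by fun_prop)
  have Tm : ∀ n x, T (n + 1) x ≤ T n x := by
    intro n x
    rcases le_total (y n) x with h | h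
    · rw [T1 n x h]; exact Tl _ _
    · rw [T0 (n + 1) x]
      · exact Tn _ _
      · have := W2 n
        simp only [hδ] at this
        linarith
  have gsupp : ∀ n x, 0 < T n x - T (n + 1) x → y n - δ n ≤ x ∧ x ≤ y (n + 1) := by
    intro n x h
    constructor
    · by_contra hcon
      push Not at hcon
      have := T0 n x (by linarith [W1 n])
      have := Tn (n + 1) x
      linarith
    · by_contra hcon
      push Not at hcon
      have := T1 (n + 1) x hcon.le
      have := Tl n x
      linarith
  refine ⟨fun n x => T n x - T (n + 1) x, fun n => (Tc n).sub (Tc (n + 1)),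
    fun n x => sub_nonneg.mpr (Tm n x), gsupp, ?_, ?_⟩
  · intro J x h0 hJ
    rw [Finset.sum_range_sub', T1 0 x h0, T0 (J + 1) x]
    · simp
    · have := W2 J
      simp only [hδ] at this
      linarith
  · intro n a b hab
    have h := integral_le_length (g := fun x => T n x - T (n + 1) x)
      (((Tc n).sub (Tc (n + 1))).continuous) (fun x => by linarith [Tl n x, Tn (n + 1) x])
      (l := y n - δ n) (r := y (n + 1)) (by
        have := δpos n
        simp only [hδ] at this ⊢
        linarith) (gsupp n) hab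
    refine h.trans (le_of_eq ?_)
    simp only [hδ]
    ring

end Pool.Agent.Lib.MP_6ad5de_an
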