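import Pool.Agent.Lib.MP_6ad5de_an.Fields

open Filter Topology Set

namespace Pool.Agent.Lib.MP_6ad5de_an

lemma S_deriv_contDiff : ContDiff ℝ 1 (deriv S) := by
  have : ContDiff ℝ (1 + 1) S := by norm_num; exact S_contDiff
  exact (contDiff_succ_iff_deriv.mp this).2.2

lemma S_deriv_zero {x : ℝ} (hx : x ≤ 0) : deriv S x = 0 := by
  have h1 : ∀ x < 0, deriv S x = 0 := by
    intro x hx
    have : S =ᶠ[𝓝 x] fun _ => 0 := by
      filter_upwards [Iio_mem_nhds hx] with t ht using S_zero (le_of_lt ht)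
    rw [this.deriv_eq]; simp
  have hcl : IsClosed {x | deriv S x = 0} := isClosed_eq S_deriv_contDiff.continuous continuous_const
  have hsub : closure (Iio (0:ℝ)) ⊆ {x | deriv S x = 0} :=
    closure_minimal (fun x hx => h1 x hx) hcl
  rw [closure_Iio] at hsub
  exact hsub hx

lemma S_deriv2_zero {x : ℝ} (hx : x ≤ 0) : deriv (deriv S) x = 0 := by
  have h1 : ∀ x < 0, deriv (deriv S) x = 0 := by
    intro x hx
    have : deriv S =ᶠ[𝓝 x] fun _ => 0 := by
      filter_upwards [Iio_mem_nhds hx] with t ht using S_deriv_zero (le_of_lt ht)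
    rw [this.deriv_eq]; simp
  have hcl : IsClosed {x | deriv (deriv S) x = 0} :=
    isClosed_eq (S_deriv_contDiff.continuous_deriv (by norm_num)) continuous_const
  have hsub : closure (Iio (0:ℝ)) ⊆ {x | deriv (deriv S) x = 0} :=
    closure_minimal (fun x hx => h1 x hx) hcl
  rw [closure_Iio] at hsub
  exact hsub hx

lemma S_deriv_zero' {x : ℝ} (hx : 1 < x) : deriv S x = 0 ∧ deriv (deriv S) x = 0 := by
  have h1 : ∀ x > 1, deriv S x = 0 := by
    intro x hx
    have : S =ᶠ[𝓝 x] fun _ => 1 := by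
      filter_upwards [Ioi_mem_nhds hx] with t ht using S_one (le_of_lt ht)
    rw [this.deriv_eq]; simp
  refine ⟨h1 x hx, ?_⟩
  have : deriv S =ᶠ[𝓝 x] fun _ => 0 := by
    filter_upwards [Ioi_mem_nhds hx] with t ht using h1 t ht
  rw [this.deriv_eq]; simp

lemma exists_M2 : ∃ M : ℝ, 1 ≤ M ∧ (∀ x, |deriv S x| ≤ M) ∧ ∀ x, |deriv (deriv S) x| ≤ M := by
  obtain ⟨M, hM1, hM⟩ := exists_M
  have hc : Continuous (deriv (deriv S)) := S_deriv_contDiff.continuous_deriv (by norm_num)
  obtain ⟨C, hC⟩ := isCompact_Icc.exists_bound_of_continuousOn (s := Icc (0:ℝ) 1) hc.continuousOn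
  refine ⟨max M C, hM1.trans (le_max_left _ _), fun x => (hM x).trans (le_max_left _ _), fun x => ?_⟩
  rcases lt_or_ge x 0 with h | h
  · rw [S_deriv2_zero h.le, abs_zero]
    exact (zero_le_one.trans hM1).trans (le_max_left _ _)
  rcases lt_or_ge 1 x with h' | h'
  · rw [(S_deriv_zero' h').2, abs_zero]
    exact (zero_le_one.trans hM1).trans (le_max_left _ _)
  · exact (hC x ⟨h, h'⟩).trans (le_max_right _ _)

/-- the function `φ` -/
theorem exists_phi : ∃ C1 : ℝ, 0 ≤ C1 ∧ ∀ (x0 : ℝ) (b : ℝ → ℝ), Continuous b → (∀ x, 0 ≤ b x) →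
    (∀ x, x0 ≤ x → ∫ s in x0..x, b s ≤ 1) → ∃ φ : ℝ → ℝ, ContDiff ℝ 2 φ ∧
      (∀ x ≤ x0, φ x = 0) ∧ (∀ x, 0 ≤ φ x) ∧ (∀ x, x0 + 1 ≤ x → Real.exp x ≤ φ x) ∧
      (∀ x η, 0 ≤ η → 4 * η ≤ b x → deriv (deriv φ) x - deriv φ x + 2 * η * φ x ≤ C1 * Real.exp x) ∧
      (∀ x η, x0 + 1 < x → 0 ≤ η → 4 * η ≤ b x →
        deriv (deriv φ) x - deriv φ x + 2 * η * φ x ≤ 0) := by
  obtain ⟨M, hM1, hMa, hMb⟩ := exists_M2
  refine ⟨8 * M, by positivity, ?_⟩
  intro x0 b hb hb0 hb1
  set B : ℝ → ℝ := fun x => ∫ s in x0..x, b s with hB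
  set D : ℝ → ℝ := fun x => ∫ s in x0..x, Real.exp s * b s with hD
  have hBd : ∀ x, HasDerivAt B (b x) x := fun x =>
    intervalIntegral.integral_hasDerivAt_right (hb.intervalIntegrable _ _)
      hb.stronglyMeasurable.stronglyMeasurableAtFilter hb.continuousAt
  have hEb : Continuous (fun s => Real.exp s * b s) := Real.continuous_exp.mul hb
  have hDd : ∀ x, HasDerivAt D (Real.exp x * b x) x := fun x =>
    intervalIntegral.integral_hasDerivAt_right (hEb.intervalIntegrable _ _)
      hEb.stronglyMeasurable.stronglyMeasurableAtFilter hEb.continuousAt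
  set ψ : ℝ → ℝ := fun x => Real.exp x * (2 - B x) + D x with hψ
  set ψ1 : ℝ → ℝ := fun x => Real.exp x * (2 - B x) with hψ1
  have hψd : ∀ x, HasDerivAt ψ (ψ1 x) x := by
    intro x
    have := ((Real.hasDerivAt_exp x).mul ((hBd x).const_sub 2)).add (hDd x)
    refine this.congr_deriv ?_
    simp only [hψ1]
    ring
  have hψ1d : ∀ x, HasDerivAt ψ1 (ψ1 x - Real.exp x * b x) x := by
    intro x
    have := (Real.hasDerivAt_exp x).mul ((hBd x).const_sub 2)
    refine this.congr_deriv ?_
    simp only [hψ1]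
    ring
  have hSd : ∀ x, HasDerivAt (fun x => S (x - x0)) (deriv S (x - x0)) x := by
    intro x
    exact HasDerivAt.comp_sub_const x x0
      ((S_contDiff1.differentiable (by norm_num)) (x - x0)).hasDerivAt
  have hS1d : ∀ x, HasDerivAt (fun x => deriv S (x - x0)) (deriv (deriv S) (x - x0)) x := by
    intro x
    exact HasDerivAt.comp_sub_const x x0
      ((S_deriv_contDiff.differentiable (by norm_num)) (x - x0)).hasDerivAt
  -- bounds
  have B0 : ∀ x, x0 ≤ x → 0 ≤ B x := fun x hx =>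
    intervalIntegral.integral_nonneg hx fun s _ => hb0 s
  have D0 : ∀ x, x0 ≤ x → 0 ≤ D x := fun x hx =>
    intervalIntegral.integral_nonneg hx fun s _ => mul_nonneg (Real.exp_pos s).le (hb0 s)
  have D1 : ∀ x, x0 ≤ x → D x ≤ Real.exp x * B x := by
    intro x hx
    have : D x ≤ ∫ s in x0..x, Real.exp x * b s := by
      apply intervalIntegral.integral_mono_on hx (hEb.intervalIntegrable _ _)
        ((continuous_const.mul hb).intervalIntegrable _ _)
      intro s hs
      exact mul_le_mul_of_nonneg_right (Real.exp_le_exp.mpr hs.2) (hb0 s)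
    rwa [intervalIntegral.integral_const_mul] at this
  have hψlow : ∀ x, x0 ≤ x → Real.exp x ≤ ψ x := by
    intro x hx
    have h1 := hb1 x hx
    have h2 := D0 x hx
    have h3 := Real.exp_pos x
    simp only [hψ]
    nlinarith [mul_nonneg h3.le (sub_nonneg.mpr h1)]
  have hψup : ∀ x, x0 ≤ x → ψ x ≤ 2 * Real.exp x := by
    intro x hx
    have h2 := D1 x hx
    simp only [hψ]
    nlinarith
  have hψ1a : ∀ x, x0 ≤ x → 0 ≤ ψ1 x ∧ ψ1 x ≤ 2 * Real.exp x := by
    intro x hx
    have h1 := hb1 x hx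
    have h2 := B0 x hx
    have h3 := Real.exp_pos x
    simp only [hψ1]
    constructor
    · apply mul_nonneg h3.le
      have : B x ≤ 1 := h1
      linarith
    · nlinarith
  set φ : ℝ → ℝ := fun x => S (x - x0) * ψ x with hφ
  have hφd : ∀ x, HasDerivAt φ (deriv S (x - x0) * ψ x + S (x - x0) * ψ1 x) x := fun x =>
    (hSd x).mul (hψd x)
  have hφd' : deriv φ = fun x => deriv S (x - x0) * ψ x + S (x - x0) * ψ1 x := by
    ext x; exact (hφd x).deriv
  have hφ2 : ∀ x, HasDerivAt (deriv φ) (deriv (deriv S) (x - x0) * ψ x + deriv S (x - x0) * ψ1 x +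
      (deriv S (x - x0) * ψ1 x + S (x - x0) * (ψ1 x - Real.exp x * b x))) x := by
    intro x
    rw [hφd']
    exact ((hS1d x).mul (hψd x)).add ((hSd x).mul (hψ1d x))
  have hφd2 : ∀ x, deriv (deriv φ) x = deriv (deriv S) (x - x0) * ψ x + deriv S (x - x0) * ψ1 x +
      (deriv S (x - x0) * ψ1 x + S (x - x0) * (ψ1 x - Real.exp x * b x)) := fun x => (hφ2 x).deriv
  have cψ : Continuous ψ := continuous_iff_continuousAt.mpr fun x => (hψd x).continuousAt
  have cψ1 : Continuous ψ1 := continuous_iff_continuousAt.mpr fun x => (hψ1d x).continuousAt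
  have cS : Continuous (fun x => S (x - x0)) := continuous_iff_continuousAt.mpr fun x => (hSd x).continuousAt
  have cS1 : Continuous (fun x => deriv S (x - x0)) :=
    continuous_iff_continuousAt.mpr fun x => (hS1d x).continuousAt
  have cS2 : Continuous (fun x => deriv (deriv S) (x - x0)) :=
    (S_deriv_contDiff.continuous_deriv (by norm_num)).comp (continuous_id.sub continuous_const)
  have hc2 : ContDiff ℝ 2 φ := by
    have h2 : ContDiff ℝ (1 + 1) φ := by
      rw [contDiff_succ_iff_deriv]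
      refine ⟨fun x => (hφd x).differentiableAt, by simp, ?_⟩
      rw [contDiff_one_iff_deriv]
      refine ⟨fun x => (hφ2 x).differentiableAt, ?_⟩
      have : deriv (deriv φ) = fun x => deriv (deriv S) (x - x0) * ψ x + deriv S (x - x0) * ψ1 x +
        (deriv S (x - x0) * ψ1 x + S (x - x0) * (ψ1 x - Real.exp x * b x)) := by
        ext x; exact hφd2 x
      rw [this]
      exact ((cS2.mul cψ).add (cS1.mul cψ1)).add ((cS1.mul cψ1).add (cS.mul (cψ1.sub hEb)))
    norm_num at h2
    exact h2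
  refine ⟨φ, hc2, ?_, ?_, ?_, ?_, ?_⟩
  · intro x hx
    simp only [hφ]
    rw [S_zero (by linarith), zero_mul]
  · intro x
    simp only [hφ]
    rcases le_total x x0 with h | h
    · rw [S_zero (by linarith), zero_mul]
    · exact mul_nonneg (S_nonneg _) ((Real.exp_pos x).le.trans (hψlow x h))
  · intro x hx
    simp only [hφ]
    rw [S_one (by linarith), one_mul]
    exact hψlow x (by linarith)
  · intro x η hη hηb
    rw [hφd2, hφd']
    simp only [hφ]
    rcases le_total x x0 with h | h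
    · rw [S_zero (by linarith), S_deriv_zero (by linarith), S_deriv2_zero (by linarith)]
      simp
      positivity
    · have a1 := hψlow x h
      have a2 := hψup x h
      obtain ⟨a3, a4⟩ := hψ1a x h
      have a5 := Real.exp_pos x
      have s0 := S_nonneg (x - x0)
      have m1 := abs_le.mp (hMa (x - x0))
      have m2 := abs_le.mp (hMb (x - x0))
      have k1 : deriv (deriv S) (x - x0) * ψ x ≤ M * (2 * Real.exp x) := by
        have : deriv (deriv S) (x - x0) * ψ x ≤ M * ψ x :=
          mul_le_mul_of_nonneg_right m2.2 (a5.le.trans a1)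
        nlinarith
      have k2 : deriv S (x - x0) * ψ1 x ≤ M * (2 * Real.exp x) := by
        have : deriv S (x - x0) * ψ1 x ≤ M * ψ1 x := mul_le_mul_of_nonneg_right m1.2 a3
        nlinarith
      have k3 : -(deriv S (x - x0) * ψ x) ≤ M * (2 * Real.exp x) := by
        have : -(deriv S (x - x0)) * ψ x ≤ M * ψ x :=
          mul_le_mul_of_nonneg_right (by linarith [m1.1]) (a5.le.trans a1)
        nlinarith
      have k4 : S (x - x0) * (-(Real.exp x * b x) + 2 * η * ψ x) ≤ 0 := by
        apply mul_nonpos_of_nonneg_of_nonpos s0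
        have : 2 * η * ψ x ≤ 2 * η * (2 * Real.exp x) := by gcongr
        nlinarith
      have e : deriv (deriv S) (x - x0) * ψ x + deriv S (x - x0) * ψ1 x +
          (deriv S (x - x0) * ψ1 x + S (x - x0) * (ψ1 x - Real.exp x * b x)) -
          (deriv S (x - x0) * ψ x + S (x - x0) * ψ1 x) + 2 * η * (S (x - x0) * ψ x) =
          deriv (deriv S) (x - x0) * ψ x + 2 * (deriv S (x - x0) * ψ1 x) + -(deriv S (x - x0) * ψ x) +
          S (x - x0) * (-(Real.exp x * b x) + 2 * η * ψ x) := by ring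
      rw [e]
      linarith
  · intro x η hx hη hηb
    rw [hφd2, hφd']
    simp only [hφ]
    have h : x0 ≤ x := by linarith
    obtain ⟨z1, z2⟩ := S_deriv_zero' (show 1 < x - x0 by linarith)
    rw [S_one (by linarith), z1, z2]
    have a2 := hψup x h
    have a5 := Real.exp_pos x
    have : 2 * η * ψ x ≤ 2 * η * (2 * Real.exp x) := by gcongr
    nlinarith

end Pool.Agent.Lib.MP_6ad5de_an
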