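import Pool.Agent.Lib.MP_6ad5de_an.Landau

open Metric Complex

namespace Pool.Agent.Lib.MP_6ad5de_an

lemma neg_log_mul_le {r : ℝ} (h0 : 0 < r) (h1 : r < 1) : -Real.log r * r ≤ (1 - r ^ 2) / 2 := by
  have hL : 0 ≤ -Real.log r := by
    have := Real.log_nonpos h0.le h1.le
    linarith
  have h := Real.self_le_sinh_iff.mpr hL
  rw [Real.sinh_eq, neg_neg, Real.exp_neg, Real.exp_log h0] at h
  have h2 : (r⁻¹ - r) / 2 * r = (1 - r ^ 2) / 2 := by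
    field_simp
  nlinarith

/-- the pointwise inequality -/
lemma pointwise {f : ℂ → ℂ} {α β z : ℂ} (hf : DifferentiableOn ℂ f (ball 0 1))
    (hα : ∀ z ∈ ball (0:ℂ) 1, f z ≠ α) (hβ : ∀ z ∈ ball (0:ℂ) 1, f z ≠ β) (hαβ : α ≠ β)
    (hz : z ∈ ball (0:ℂ) 1) (hz0 : z ≠ 0) (hfz : f z ≠ 0) {K K1 P Q η : ℝ} (hK : 0 ≤ K)
    (hK1 : K ≤ -Real.log ‖z‖ * K1) (hη : 0 ≤ η)
    (h : (Q + P ^ 2 + 1 / 4 ≤ η) ∨ (∃ N, 0 ≤ N ∧ Q + 2 * P ^ 2 + 1 / 2 ≤ N ∧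
          82944 * ‖f z - α‖ ^ 3 * ‖f z - β‖ ^ 3 * N ^ 2 ≤ 4 * ‖β - α‖ ^ 2 * ‖f z‖ ^ 4)) :
    K * K1 * (deriv f z / f z * (starRingEnd ℂ) (1 / z)).re
        - 2 * (K * K1) * P * (deriv f z / f z * (starRingEnd ℂ) (1 / z)).im
        - K ^ 2 * ‖deriv f z / f z‖ ^ 2 * (η - Q) ≤ K1 ^ 2 * ‖1 / z‖ ^ 2 := by
  rcases h with h | ⟨N, hN0, hN, hE⟩
  · rw [← Complex.normSq_eq_norm_sq, ← Complex.normSq_eq_norm_sq]
    generalize deriv f z / f z = σ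
    generalize 1 / z = ρ
    simp only [Complex.normSq_apply, Complex.mul_re, Complex.mul_im, Complex.conj_re, Complex.conj_im]
    have key : 0 ≤ (K1 * ρ.re + K * (-(1/2) * σ.re + P * σ.im)) ^ 2 +
      (K1 * ρ.im + K * (-(1/2) * σ.im - P * σ.re)) ^ 2 := by positivity
    have h2 : 0 ≤ K ^ 2 * (σ.re * σ.re + σ.im * σ.im) * (η - (Q + P ^ 2 + 1 / 4)) := by
      apply mul_nonneg _ (by linarith)
      nlinarith [sq_nonneg K, mul_self_nonneg σ.re, mul_self_nonneg σ.im,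
        mul_nonneg (sq_nonneg K) (add_nonneg (mul_self_nonneg σ.re) (mul_self_nonneg σ.im))]
    nlinarith [key, h2]
  · -- near case
    have hr0 : 0 < ‖z‖ := norm_pos_iff.mpr hz0
    have hr1 : ‖z‖ < 1 := by simpa using hz
    have hfn : 0 < ‖f z‖ := norm_pos_iff.mpr hfz
    have hD : 0 < ‖β - α‖ := norm_pos_iff.mpr (sub_ne_zero.mpr hαβ.symm)
    have hL := landau hf hαβ hα hβ hz
    set E : ℝ := ‖deriv f z / f z‖ * (1 - ‖z‖ ^ 2) with hEdef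
    have hE0 : 0 ≤ E := mul_nonneg (norm_nonneg _) (by nlinarith)
    have e1 : ‖deriv f z‖ * (1 - ‖z‖ ^ 2) = E * ‖f z‖ := by
      rw [hEdef, norm_div]; field_simp
    rw [e1] at hL
    have e2 : E ^ 4 * N ^ 2 ≤ 4 := by
      have a1 : (E * ‖f z‖) ^ 4 * ‖β - α‖ ^ 2 * N ^ 2 ≤ 4 * ‖β - α‖ ^ 2 * ‖f z‖ ^ 4 := by
        calc (E * ‖f z‖) ^ 4 * ‖β - α‖ ^ 2 * N ^ 2
            ≤ (82944 * (‖f z - α‖ ^ 3 * ‖f z - β‖ ^ 3)) * N ^ 2 := by gcongr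
          _ = 82944 * ‖f z - α‖ ^ 3 * ‖f z - β‖ ^ 3 * N ^ 2 := by ring
          _ ≤ _ := hE
      have a2 : (E * ‖f z‖) ^ 4 * ‖β - α‖ ^ 2 * N ^ 2 = (E ^ 4 * N ^ 2) * (‖β - α‖ ^ 2 * ‖f z‖ ^ 4) := by ring
      have a3 : 4 * ‖β - α‖ ^ 2 * ‖f z‖ ^ 4 = 4 * (‖β - α‖ ^ 2 * ‖f z‖ ^ 4) := by ring
      rw [a2, a3] at a1
      exact le_of_mul_le_mul_right a1 (by positivity)
    have e3 : E ^ 2 * N ≤ 2 := by
      have : (E ^ 2 * N) ^ 2 ≤ 2 ^ 2 := by nlinarith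
      exact abs_le_of_sq_le_sq' this (by norm_num) |>.2
    have e4 : -Real.log ‖z‖ * ‖z‖ * ‖deriv f z / f z‖ ≤ E / 2 := by
      have := neg_log_mul_le hr0 hr1
      rw [hEdef]
      nlinarith [norm_nonneg (deriv f z / f z)]
    have hlog : 0 ≤ -Real.log ‖z‖ := by
      have := Real.log_nonpos hr0.le hr1.le
      linarith
    have e5 : (-Real.log ‖z‖ * ‖z‖ * ‖deriv f z / f z‖) ^ 2 * N ≤ 1 / 2 := by
      have : (-Real.log ‖z‖ * ‖z‖ * ‖deriv f z / f z‖) ^ 2 ≤ (E / 2) ^ 2 := by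
        gcongr
      nlinarith
    have hρ : ‖1 / z‖ * ‖z‖ = 1 := by rw [norm_div, norm_one]; field_simp
    have e6 : K ^ 2 * ‖deriv f z / f z‖ ^ 2 * N ≤ 1 / 2 * (K1 ^ 2 * ‖1 / z‖ ^ 2) := by
      calc K ^ 2 * ‖deriv f z / f z‖ ^ 2 * N ≤ (-Real.log ‖z‖ * K1) ^ 2 * ‖deriv f z / f z‖ ^ 2 * N := by
            gcongr
        _ = K1 ^ 2 * ‖1 / z‖ ^ 2 * ((-Real.log ‖z‖ * ‖z‖ * ‖deriv f z / f z‖) ^ 2 * N) := by
          have : (-Real.log ‖z‖ * K1) ^ 2 * ‖deriv f z / f z‖ ^ 2 * N =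
            K1 ^ 2 * (‖1 / z‖ * ‖z‖) ^ 2 * ((-Real.log ‖z‖ * ‖deriv f z / f z‖) ^ 2 * N) := by
            rw [hρ]; ring
          rw [this]; ring
        _ ≤ K1 ^ 2 * ‖1 / z‖ ^ 2 * (1 / 2) := by gcongr
        _ = _ := by ring
    have e7 : K * K1 * (deriv f z / f z * (starRingEnd ℂ) (1 / z)).re
        - 2 * (K * K1) * P * (deriv f z / f z * (starRingEnd ℂ) (1 / z)).im ≤
        1 / 2 * (K1 ^ 2 * ‖1 / z‖ ^ 2) + K ^ 2 * ‖deriv f z / f z‖ ^ 2 * (1 / 2 + 2 * P ^ 2) := by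
      rw [← Complex.normSq_eq_norm_sq, ← Complex.normSq_eq_norm_sq]
      generalize deriv f z / f z = σ
      generalize 1 / z = ρ
      simp only [Complex.normSq_apply, Complex.mul_re, Complex.mul_im, Complex.conj_re, Complex.conj_im]
      have key : 0 ≤ (K1 * ρ.re + K * (-1 * σ.re + 2 * P * σ.im)) ^ 2 +
        (K1 * ρ.im + K * (-1 * σ.im - 2 * P * σ.re)) ^ 2 := by positivity
      nlinarith [key]
    have e8 : K ^ 2 * ‖deriv f z / f z‖ ^ 2 * (1 / 2 + 2 * P ^ 2 + Q - η) ≤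
        K ^ 2 * ‖deriv f z / f z‖ ^ 2 * N := by
      apply mul_le_mul_of_nonneg_left _ (by positivity)
      linarith
    have e9 : K ^ 2 * ‖deriv f z / f z‖ ^ 2 * (1 / 2 + 2 * P ^ 2 + Q - η) =
      K ^ 2 * ‖deriv f z / f z‖ ^ 2 * (1 / 2 + 2 * P ^ 2) - K ^ 2 * ‖deriv f z / f z‖ ^ 2 * (η - Q) := by
      ring
    linarith only [e6, e7, e8, e9]

end Pool.Agent.Lib.MP_6ad5de_an
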