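import Pool.Agent.Lib.MP_6ad5de_an.MainIneq
import Pool.Agent.Lib.MP_6ad5de_an.GapField
import Pool.Agent.Lib.MP_6ad5de_an.Pointwise
import Pool.Agent.Lib.MP_6ad5de_an.Phi
import Pool.Agent.Lib.MP_6ad5de_an.Partition
import Pool.Agent.Lib.MP_6ad5de_an.KFun

open Metric Complex Filter Topology MeasureTheory

namespace Pool.Agent.Lib.MP_6ad5de_an

/-- boundedness of the weighted derivative where `|f|` is bounded -/
lemma sigma_bound {f : ℂ → ℂ} {α β : ℂ} (hf : DifferentiableOn ℂ f (ball 0 1))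
    (hα : ∀ z ∈ ball (0:ℂ) 1, f z ≠ α) (hβ : ∀ z ∈ ball (0:ℂ) 1, f z ≠ β) (hαβ : α ≠ β)
    {R0 R1 : ℝ} (hR0 : 0 < R0) : ∃ C : ℝ, 0 ≤ C ∧ ∀ z ∈ ball (0:ℂ) 1, 1 / 2 ≤ ‖z‖ → R0 ≤ ‖f z‖ →
      ‖f z‖ ≤ R1 → ∀ K : ℝ, 0 ≤ K → K ≤ -Real.log ‖z‖ → K ^ 2 * ‖deriv f z / f z‖ ^ 2 ≤ C := by
  set C2 : ℝ := 82944 * ((|R1| + ‖α‖) ^ 3 * (|R1| + ‖β‖) ^ 3) with hC2
  have hD : 0 < ‖β - α‖ := norm_pos_iff.mpr (sub_ne_zero.mpr hαβ.symm)
  have hC20 : 0 ≤ C2 := by positivity
  refine ⟨1 + C2 / (‖β - α‖ ^ 2 * R0 ^ 4), by positivity, ?_⟩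
  intro z hz hzh h0 h1 K hK0 hK
  have hr0 : 0 < ‖z‖ := by linarith
  have hr1 : ‖z‖ < 1 := by simpa using hz
  have hfn : 0 < ‖f z‖ := by linarith
  have hL := landau hf hαβ hα hβ hz
  set E : ℝ := ‖deriv f z / f z‖ * (1 - ‖z‖ ^ 2) with hEdef
  have hE0 : 0 ≤ E := mul_nonneg (norm_nonneg _) (by nlinarith)
  have e1 : ‖deriv f z‖ * (1 - ‖z‖ ^ 2) = E * ‖f z‖ := by
    rw [hEdef, norm_div]; field_simp
  rw [e1] at hL
  have b1 : ‖f z - α‖ ≤ |R1| + ‖α‖ := by
    refine (norm_sub_le _ _).trans ?_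
    have := le_abs_self R1
    linarith
  have b2 : ‖f z - β‖ ≤ |R1| + ‖β‖ := by
    refine (norm_sub_le _ _).trans ?_
    have := le_abs_self R1
    linarith
  have e2 : E ^ 4 * (‖β - α‖ ^ 2 * R0 ^ 4) ≤ C2 := by
    calc E ^ 4 * (‖β - α‖ ^ 2 * R0 ^ 4) ≤ E ^ 4 * (‖β - α‖ ^ 2 * ‖f z‖ ^ 4) := by gcongr
      _ = (E * ‖f z‖) ^ 4 * ‖β - α‖ ^ 2 := by ring
      _ ≤ 82944 * (‖f z - α‖ ^ 3 * ‖f z - β‖ ^ 3) := hL
      _ ≤ C2 := by rw [hC2]; gcongr
  have e3 : E ^ 4 ≤ C2 / (‖β - α‖ ^ 2 * R0 ^ 4) := by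
    rwa [le_div_iff₀ (by positivity)]
  have e4 : E ^ 2 ≤ 1 + E ^ 4 := by nlinarith [sq_nonneg (E ^ 2 - 1)]
  have e5 : -Real.log ‖z‖ * ‖z‖ * ‖deriv f z / f z‖ ≤ E / 2 := by
    have := neg_log_mul_le hr0 hr1
    rw [hEdef]
    nlinarith [norm_nonneg (deriv f z / f z)]
  have e6 : K * ‖deriv f z / f z‖ ≤ E := by
    have : K * (1 / 2) * ‖deriv f z / f z‖ ≤ -Real.log ‖z‖ * ‖z‖ * ‖deriv f z / f z‖ := by
      have : 0 ≤ -Real.log ‖z‖ := hK0.trans hK
      gcongr
    linarith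
  have e7 : K ^ 2 * ‖deriv f z / f z‖ ^ 2 = (K * ‖deriv f z / f z‖) ^ 2 := by ring
  rw [e7]
  have e8 : (K * ‖deriv f z / f z‖) ^ 2 ≤ E ^ 2 := by
    apply pow_le_pow_left₀ (by positivity) e6
  linarith

theorem area_bound {f : ℂ → ℂ} {w : ℕ → ℂ} (hf : DifferentiableOn ℂ f (ball 0 1))
    (homit : ∀ z ∈ ball (0:ℂ) 1, ∀ k, f z ≠ w k) (h0 : 0 < ‖w 0‖)
    (hmono : StrictMono (fun k : ℕ => ‖w k‖)) (htop : Tendsto (fun k : ℕ => ‖w k‖) atTop atTop)
    (hsum : Summable (fun n : ℕ => (Real.log (‖w (n + 1)‖ / ‖w n‖)) ^ 2)) :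
    ∃ C, ∀ d, 0 < d → 
      ∫ z in {z : ℂ | 2 * d ≤ -Real.log ‖z‖ ∧ -Real.log ‖z‖ ≤ 3 * d}, ‖f z‖ ≤ C := by
  have hpos : ∀ k, 0 < ‖w k‖ := fun k => h0.trans_le (hmono.monotone (Nat.zero_le k))
  set x : ℕ → ℝ := fun k => Real.log ‖w k‖ with hxdef
  have hx : StrictMono x := fun a b hab => Real.log_lt_log (hpos a) (hmono hab)
  have hsum' : Summable (fun n => (x (n + 1) - x n) ^ 2) := by
    refine hsum.congr fun n => ?_
    rw [Real.log_div (hpos _).ne' (hpos _).ne']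
  obtain ⟨κ, δ0, hκ1, hδ0, hδ04, hgap⟩ := gap_field
  obtain ⟨C1, hC1, hphi⟩ := exists_phi
  have hcont : ContinuousOn f (ball 0 1) := hf.continuousOn
  obtain ⟨Mf, hMf⟩ := (isCompact_closedBall (0:ℂ) (1/2)).exists_bound_of_continuousOn
    (hcont.mono (closedBall_subset_ball (by norm_num)))
  -- choice of `n0`
  obtain ⟨n0, hn1, hn2, hn3⟩ : ∃ n0 : ℕ, (∀ m ≥ n0, x (m + 1) - x m ≤ δ0) ∧
      (∑' k, (x (k + n0 + 1) - x (k + n0)) ^ 2 ≤ 1 / (8 * κ)) ∧ max Mf 1 < ‖w n0‖ := by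
    have t1 : ∀ᶠ n in atTop, ∀ m ≥ n, x (m + 1) - x m ≤ δ0 := by
      have := hsum'.tendsto_atTop_zero.eventually (Iio_mem_nhds (show 0 < δ0 ^ 2 by positivity))
      obtain ⟨N, hN⟩ := eventually_atTop.mp this
      filter_upwards [eventually_ge_atTop N] with n hn m hm
      have h := hN m (hn.trans hm)
      exact (abs_le_of_sq_le_sq' (le_of_lt h) hδ0.le).2
    have t2 : ∀ᶠ n in atTop, ∑' k, (x (k + n + 1) - x (k + n)) ^ 2 ≤ 1 / (8 * κ) := by
      have := (tendsto_sum_nat_add (fun n => (x (n + 1) - x n) ^ 2)).eventually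
        (Iio_mem_nhds (show 0 < 1 / (8 * κ) by positivity))
      filter_upwards [this] with n hn using le_of_lt hn
    have t3 : ∀ᶠ n in atTop, max Mf 1 < ‖w n‖ := htop.eventually_gt_atTop _
    obtain ⟨n, h⟩ := (t1.and (t2.and t3)).exists
    exact ⟨n, h.1, h.2.1, h.2.2⟩
  set y : ℕ → ℝ := fun n => x (n + n0) with hy
  have hyS : StrictMono y := fun a b hab => hx (by omega)
  set R0 : ℝ := ‖w n0‖ with hR0def
  have hR1 : 1 ≤ R0 := (le_max_right _ _).trans hn3.le
  have hR0 : 0 < R0 := by linarith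
  have hy0 : y 0 = Real.log R0 := by simp [hy, hxdef, hR0def]
  have hsm : ∀ z : ℂ, ‖z‖ ≤ 1 / 2 → ‖f z‖ < R0 := by
    intro z hz
    exact (hMf z (by simpa using hz)).trans_lt ((le_max_left _ _).trans_lt hn3)
  have hgap' : ∀ n, ∃ P Q : ℂ → ℝ, (∀ u, u ≠ 0 → ContDiffAt ℝ 1 P u ∧ ContinuousAt Q u ∧
      HasFDerivAt P (Q u • YL u) u) ∧
      ∀ u, u ≠ 0 → y n - (y (n + 1) - y n) ≤ Real.log ‖u‖ → Real.log ‖u‖ ≤ y (n + 1) →
        (Q u + P u ^ 2 + 1 / 4 ≤ κ * (y (n + 1) - y n)) ∨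
        (∃ N, 0 ≤ N ∧ Q u + 2 * P u ^ 2 + 1 / 2 ≤ N ∧
          82944 * ‖u - w (n + n0)‖ ^ 3 * ‖u - w (n + 1 + n0)‖ ^ 3 * N ^ 2 ≤
            4 * ‖w (n + 1 + n0) - w (n + n0)‖ ^ 2 * ‖u‖ ^ 4) := by
    intro n
    have h1 := hn1 (n + n0) (by omega)
    have e : n + n0 + 1 = n + 1 + n0 := by ring
    rw [e] at h1
    exact hgap (w (n + n0)) (w (n + 1 + n0)) (hpos _) (hmono (by omega)) h1
  choose P Q hreg hPQ using hgap'
  obtain ⟨g, gC, g0, gsupp, gsum, gint⟩ := exists_partition hyS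
  have hsumJ : ∀ J, ∑ n ∈ Finset.range (J + 1), (y (n + 1) - y n) ^ 2 ≤ 1 / (8 * κ) := by
    intro J
    refine le_trans ?_ hn2
    have hs : Summable (fun k => (x (k + n0 + 1) - x (k + n0)) ^ 2) :=
      (summable_nat_add_iff n0).mpr hsum'
    have := hs.sum_le_tsum (Finset.range (J + 1)) (fun i _ => sq_nonneg _)
    refine le_trans (le_of_eq ?_) this
    refine Finset.sum_congr rfl fun n _ => ?_
    simp only [hy]
    rw [show n + 1 + n0 = n + n0 + 1 by ring]
  -- constants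
  have hne : w n0 ≠ w (n0 + 1) := by
    intro h
    have := hmono (Nat.lt_succ_self n0)
    simp only [Nat.succ_eq_add_one] at this
    rw [← h] at this
    exact lt_irrefl _ this
  obtain ⟨C4, hC4, hσ⟩ := sigma_bound hf (fun z hz => homit z hz n0) (fun z hz => homit z hz (n0 + 1))
    hne (R0 := R0) (R1 := Real.exp (y 0 + 1)) hR0
  set V : ℝ := volume.real (ball (0:ℂ) 1) with hV
  set C5 : ℝ := C4 * (C1 * Real.exp (y 0 + 1)) with hC5
  have hC50 : 0 ≤ C5 := by positivity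
  refine ⟨100 * (C5 * V) + Real.exp (y 0 + 1) * V, ?_⟩
  intro d hd
  -- choice of `J`
  have hexp : Real.exp (-d) < 1 := by rw [Real.exp_lt_one_iff]; linarith
  obtain ⟨Md, hMd⟩ := (isCompact_closedBall (0:ℂ) (Real.exp (-d))).exists_bound_of_continuousOn
    (hcont.mono (closedBall_subset_ball hexp))
  obtain ⟨J, hJ⟩ : ∃ J : ℕ, Md ≤ ‖w (J + n0)‖ := by
    have : Tendsto (fun J => ‖w (J + n0)‖) atTop atTop := htop.comp (tendsto_add_atTop_nat n0)
    obtain ⟨J, hJ⟩ := (this.eventually_ge_atTop Md).exists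
    exact ⟨J, hJ⟩
  set s : Finset ℕ := Finset.range (J + 1) with hs
  set η : ℕ → ℝ := fun n => κ * (y (n + 1) - y n) with hη
  have hδp : ∀ n, 0 < y (n + 1) - y n := fun n => sub_pos.mpr (hyS (Nat.lt_succ_self n))
  have hη0 : ∀ n, 0 ≤ η n := fun n => mul_nonneg (by linarith) (hδp n).le
  set b : ℝ → ℝ := fun x => 4 * ∑ n ∈ s, η n * g n x with hb
  have hbc : Continuous b := continuous_const.mul
    (continuous_finsetSum s fun n _ => continuous_const.mul (gC n).continuous)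
  have hb0 : ∀ x, 0 ≤ b x := fun x => mul_nonneg (by norm_num)
    (Finset.sum_nonneg fun n _ => mul_nonneg (hη0 n) (g0 n x))
  have hb1 : ∀ x, y 0 ≤ x → ∫ t in (y 0)..x, b t ≤ 1 := by
    intro x hx
    simp only [hb]
    rw [intervalIntegral.integral_const_mul, intervalIntegral.integral_finsetSum]
    · have : ∀ n ∈ s, ∫ t in (y 0)..x, η n * g n t ≤ 2 * κ * (y (n + 1) - y n) ^ 2 := by
        intro n _
        rw [intervalIntegral.integral_const_mul]
        have h1 := gint n (y 0) x hx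
        have h2 := mul_le_mul_of_nonneg_left h1 (hη0 n)
        refine h2.trans (le_of_eq ?_)
        simp only [hη]
        ring
      have h3 := Finset.sum_le_sum this
      rw [← Finset.mul_sum] at h3
      have h4 := hsumJ J
      have h5 : 2 * κ * ∑ n ∈ s, (y (n + 1) - y n) ^ 2 ≤ 2 * κ * (1 / (8 * κ)) := by gcongr
      have h6 : 2 * κ * (1 / (8 * κ)) = 1 / 4 := by field_simp; norm_num
      linarith
    · intro n _
      exact (continuous_const.mul (gC n).continuous).intervalIntegrable _ _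
  obtain ⟨φ, φC, φ0, φp, φlow, φa, φb⟩ := hphi (y 0) b hbc hb0 hb1
  obtain ⟨K, KC, K0, Kp, Kl, Kd, KK, KK'⟩ := exists_K hd
  have hmain := main_ineq hf hR1 hsm hd KC K0 φC (fun x hx => φ0 x (by rw [hy0]; exact hx)) φp s
    (g := g) (P := P) (Q := Q) (η := η) (fun n _ => gC n) (fun n _ => g0 n)
    (fun n _ u hu => (hreg n u hu).1) (fun n _ u hu => (hreg n u hu).2.1)
    (fun n _ u hu => (hreg n u hu).2.2)
    (by
      intro n _ z hz hz0 h1 hfz hL hg
      obtain ⟨g1, g2⟩ := gsupp n _ hg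
      exact pointwise hf (fun z hz => homit z hz (n + n0)) (fun z hz => homit z hz (n + 1 + n0))
        (by
          intro h
          have := hmono (show n + n0 < n + 1 + n0 by omega)
          simp only at this
          rw [h] at this
          exact lt_irrefl _ this) hz hz0 hfz (Kp _) (Kd _ hL) (hη0 n) (hPQ n (f z) hfz g1 g2))
    (by
      intro z hz h1 hL
      apply gsum J
      · rw [hy0]; exact Real.log_le_log hR0 h1
      · have hz0 : 0 < ‖z‖ := by
          rw [norm_pos_iff]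
          rintro rfl
          simp at hL
          linarith
        have h2 : ‖z‖ ≤ Real.exp (-d) := by
          rw [← Real.exp_log hz0]
          exact Real.exp_le_exp.mpr (by linarith)
        have h3 := hMd z (by simpa using h2)
        exact Real.log_le_log (by linarith) (h3.trans hJ))
  obtain ⟨i1, i2, hmain⟩ := hmain
  -- upper bound for the right side
  have hup : ∫ z, K (-Real.log ‖z‖) ^ 2 * ‖deriv f z / f z‖ ^ 2 *
      (deriv (deriv φ) (Real.log ‖f z‖) - deriv φ (Real.log ‖f z‖)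
        + 2 * (∑ j ∈ s, η j * g j (Real.log ‖f z‖)) * φ (Real.log ‖f z‖)) ≤ C5 * V := by
    have hle : ∀ z, K (-Real.log ‖z‖) ^ 2 * ‖deriv f z / f z‖ ^ 2 *
      (deriv (deriv φ) (Real.log ‖f z‖) - deriv φ (Real.log ‖f z‖)
        + 2 * (∑ j ∈ s, η j * g j (Real.log ‖f z‖)) * φ (Real.log ‖f z‖)) ≤
        (ball (0:ℂ) 1).indicator (fun _ => C5) z := by
      intro z
      have hbη : 4 * (∑ j ∈ s, η j * g j (Real.log ‖f z‖)) ≤ b (Real.log ‖f z‖) := le_refl _
      have hη1 : 0 ≤ ∑ j ∈ s, η j * g j (Real.log ‖f z‖) :=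
        Finset.sum_nonneg fun n _ => mul_nonneg (hη0 n) (g0 n _)
      rcases le_or_gt (-Real.log ‖z‖) d with hL | hL
      · rw [K0 _ hL]
        simp only [ne_eq, OfNat.ofNat_ne_zero, not_false_eq_true, zero_pow, zero_mul]
        exact Set.indicator_nonneg (fun _ _ => hC50) _
      have hz : z ∈ ball (0:ℂ) 1 := by
        rw [mem_ball_zero_iff]
        by_contra hcon
        push Not at hcon
        have := Real.log_nonneg hcon
        linarith
      rw [Set.indicator_of_mem hz]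
      rcases lt_or_ge (y 0 + 1) (Real.log ‖f z‖) with h1 | h1
      · have h2 := φb _ _ h1 hη1 hbη
        exact (mul_nonpos_of_nonneg_of_nonpos (by positivity) h2).trans hC50
      rcases lt_or_ge ‖f z‖ R0 with h2 | h2
      · have h3 : Real.log ‖f z‖ ≤ y 0 := by rw [hy0]; exact log_norm_le hR1 h2
        have φC1 : ContDiff ℝ 1 (deriv φ) := by
          have : ContDiff ℝ (1 + 1) φ := by norm_num; exact φC
          exact (contDiff_succ_iff_deriv.mp this).2.2
        have z1 := deriv_zero_le φC1.continuous φ0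
        have z2 := deriv_zero_le (φC1.continuous_deriv (by norm_num)) z1
        rw [z2 _ h3, z1 _ h3, φ0 _ h3]
        simpa using hC50
      · have hzh : 1 / 2 ≤ ‖z‖ := by
          by_contra hcon
          push Not at hcon
          exact absurd (hsm z hcon.le) (not_lt.mpr h2)
        have hfz : 0 < ‖f z‖ := by linarith
        have h3 : ‖f z‖ ≤ Real.exp (y 0 + 1) := by
          rw [← Real.exp_log hfz]
          exact Real.exp_le_exp.mpr h1
        have h4 := hσ z hz hzh h2 h3 (K (-Real.log ‖z‖)) (Kp _) (Kl _ (by linarith))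
        have h5 := φa _ _ hη1 hbη
        have h6 : C1 * Real.exp (Real.log ‖f z‖) ≤ C1 * Real.exp (y 0 + 1) := by gcongr
        rcases le_total 0 (deriv (deriv φ) (Real.log ‖f z‖) - deriv φ (Real.log ‖f z‖)
          + 2 * (∑ j ∈ s, η j * g j (Real.log ‖f z‖)) * φ (Real.log ‖f z‖)) with h7 | h7
        · exact mul_le_mul h4 (h5.trans h6) h7 hC4
        · exact (mul_nonpos_of_nonneg_of_nonpos (by positivity) h7).trans hC50
    have hi : Integrable ((ball (0:ℂ) 1).indicator (fun _ => C5)) := by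
      rw [integrable_indicator_iff measurableSet_ball]
      exact integrableOn_const (by simp) (by simp)
    have := integral_mono i2 hi hle
    refine this.trans (le_of_eq ?_)
    rw [integral_indicator_const _ measurableSet_ball, smul_eq_mul, mul_comm]
  -- lower bound for the left side
  set A : Set ℂ := {z : ℂ | 2 * d ≤ -Real.log ‖z‖ ∧ -Real.log ‖z‖ ≤ 3 * d} with hA
  have hLm : Measurable (fun z : ℂ => -Real.log ‖z‖) := (Real.measurable_log.comp measurable_norm).neg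
  have hAm : MeasurableSet A := by
    apply MeasurableSet.inter
    · exact measurableSet_le measurable_const hLm
    · exact measurableSet_le hLm measurable_const
  have hAsub : A ⊆ closedBall 0 (Real.exp (-d)) := by
    intro z hz
    have hz0 : 0 < ‖z‖ := by
      rw [norm_pos_iff]
      rintro rfl
      have := hz.1
      simp at this
      linarith
    have h2 : ‖z‖ ≤ Real.exp (-d) := by
      rw [← Real.exp_log hz0]
      exact Real.exp_le_exp.mpr (by linarith [hz.1])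
    simpa using h2
  have hAball : A ⊆ ball 0 1 := hAsub.trans (closedBall_subset_ball hexp)
  have hfi : IntegrableOn (fun z => ‖f z‖) A := by
    have : IntegrableOn (fun z => ‖f z‖) (closedBall 0 (Real.exp (-d))) :=
      ((hcont.mono (closedBall_subset_ball hexp)).norm).integrableOn_compact (isCompact_closedBall _ _)
    exact this.mono_set hAsub
  have hAfin : volume A ≠ ⊤ := ((measure_mono hAball).trans_lt measure_ball_lt_top).ne
  have hpt : ∀ z ∈ A, ‖f z‖ ≤ 100 * (2 * (K (-Real.log ‖z‖) * deriv (deriv K) (-Real.log ‖z‖)) *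
      φ (Real.log ‖f z‖) * ‖1 / z‖ ^ 2) + Real.exp (y 0 + 1) := by
    intro z hz
    have hzb := hAball hz
    have hz0 : 0 < ‖z‖ := by
      rw [norm_pos_iff]
      rintro rfl
      have := hz.1
      simp at this
      linarith
    have hz1 : ‖z‖ < 1 := by simpa using hzb
    have h1 : 1 ≤ ‖1 / z‖ ^ 2 := by
      have : 1 ≤ ‖1 / z‖ := by
        rw [norm_div, norm_one, le_div_iff₀ hz0]; linarith
      nlinarith
    have h2 := KK' _ hz.1 hz.2
    have h3 := φp (Real.log ‖f z‖)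
    have h4 : φ (Real.log ‖f z‖) ≤ 100 * (2 * (K (-Real.log ‖z‖) * deriv (deriv K) (-Real.log ‖z‖)) *
      φ (Real.log ‖f z‖) * ‖1 / z‖ ^ 2) := by
      calc φ (Real.log ‖f z‖) = 100 * (2 * (1 / 200) * φ (Real.log ‖f z‖) * 1) := by ring
        _ ≤ _ := by gcongr
    rcases le_or_gt (y 0 + 1) (Real.log ‖f z‖) with h5 | h5
    · have h6 := φlow _ h5
      have h7 : ‖f z‖ ≤ Real.exp (Real.log ‖f z‖) := Real.le_exp_log _
      have := Real.exp_pos (y 0 + 1)
      linarith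
    · have h7 : ‖f z‖ ≤ Real.exp (Real.log ‖f z‖) := Real.le_exp_log _
      have h8 := Real.exp_le_exp.mpr h5.le
      linarith
  have hnn : ∀ z, 0 ≤ 2 * (K (-Real.log ‖z‖) * deriv (deriv K) (-Real.log ‖z‖)) *
      φ (Real.log ‖f z‖) * ‖1 / z‖ ^ 2 := by
    intro z
    have h1 := KK (-Real.log ‖z‖)
    have h2 := φp (Real.log ‖f z‖)
    positivity
  calc ∫ z in A, ‖f z‖ ≤ ∫ z in A, (100 * (2 * (K (-Real.log ‖z‖) * deriv (deriv K) (-Real.log ‖z‖)) *
      φ (Real.log ‖f z‖) * ‖1 / z‖ ^ 2) + Real.exp (y 0 + 1)) := by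
        apply setIntegral_mono_on hfi _ hAm hpt
        exact (i1.integrableOn.const_mul 100).add (integrableOn_const hAfin (by simp))
    _ = 100 * (∫ z in A, 2 * (K (-Real.log ‖z‖) * deriv (deriv K) (-Real.log ‖z‖)) *
      φ (Real.log ‖f z‖) * ‖1 / z‖ ^ 2) + Real.exp (y 0 + 1) * volume.real A := by
        rw [integral_add (i1.integrableOn.const_mul 100) (integrableOn_const hAfin (by simp)),
          integral_const_mul, setIntegral_const, smul_eq_mul]
        ring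
    _ ≤ 100 * (C5 * V) + Real.exp (y 0 + 1) * V := by
        gcongr
        · refine le_trans ?_ (hmain.trans hup)
          exact setIntegral_le_integral i1 (Eventually.of_forall hnn)
        · exact measureReal_mono hAball measure_ball_lt_top.ne

end Pool.Agent.Lib.MP_6ad5de_an
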