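import Mathlib

open Filter Topology Set

namespace Pool.Agent.Lib.MP_6ad5de_an

/-- smooth step: `0` on `(-∞,0]`, `1` on `[1,∞)` -/
noncomputable def S (t : ℝ) : ℝ := Real.smoothTransition t

lemma S_contDiff : ContDiff ℝ 2 S := by
  have := @Real.smoothTransition.contDiff (2 : ℕ∞)
  exact_mod_cast this

lemma S_contDiff1 : ContDiff ℝ 1 S := S_contDiff.of_le (by norm_num)

lemma S_nonneg (t : ℝ) : 0 ≤ S t := Real.smoothTransition.nonneg t
lemma S_le_one (t : ℝ) : S t ≤ 1 := Real.smoothTransition.le_one t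
lemma S_zero {t : ℝ} (h : t ≤ 0) : S t = 0 := Real.smoothTransition.zero_of_nonpos h
lemma S_one {t : ℝ} (h : 1 ≤ t) : S t = 1 := Real.smoothTransition.one_of_one_le h
lemma S_mono : Monotone S := Real.smoothTransition.monotone

lemma exists_M : ∃ M : ℝ, 1 ≤ M ∧ ∀ x, |deriv S x| ≤ M := by
  have hc : Continuous (deriv S) := S_contDiff1.continuous_deriv (by norm_num)
  obtain ⟨C, hC⟩ := isCompact_Icc.exists_bound_of_continuousOn (s := Icc (0:ℝ) 1) hc.continuousOn
  refine ⟨max C 1, le_max_right _ _, fun x => ?_⟩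
  rcases lt_or_ge x 0 with h | h
  · have : S =ᶠ[𝓝 x] fun _ => 0 := by
      filter_upwards [Iio_mem_nhds h] with t ht using S_zero (le_of_lt ht)
    rw [this.deriv_eq]; simp
  rcases lt_or_ge 1 x with h' | h'
  · have : S =ᶠ[𝓝 x] fun _ => 1 := by
      filter_upwards [Ioi_mem_nhds h'] with t ht using S_one (le_of_lt ht)
    rw [this.deriv_eq]; simp
  · exact (hC x ⟨h, h'⟩).trans (le_max_left _ _)

/-- cutting off a field on an arc -/
lemma arc {M : ℝ} (hM : ∀ x, |deriv S x| ≤ M) {l r δ η B : ℝ} (hδ : 0 < δ) (hB : 0 ≤ B)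
    {t : ℝ → ℝ} (ht : ∀ y ∈ Ioo l r, ContDiffAt ℝ 1 t y) (ht1 : ∀ y ∈ Ioo l r, deriv t y ≤ 0)
    (htB : ∀ y ∈ Ioo l r, |t y| ≤ B) (htη : ∀ y ∈ Ioo l r, deriv t y + t y ^ 2 + 1 / 4 ≤ η) :
    ∃ q : ℝ → ℝ, ContDiff ℝ 1 q ∧ (∀ y ≤ l + δ / 3, q y = 0) ∧ (∀ y, r - δ / 3 ≤ y → q y = 0) ∧
      (∀ y, l + δ ≤ y → y ≤ r - δ → deriv q y + q y ^ 2 + 1 / 4 ≤ η) ∧
      (∀ y, deriv q y + 2 * q y ^ 2 + 1 / 2 ≤ 6 * M * B / δ + 2 * B ^ 2 + 1 / 2) := by
  have hM0 : 0 ≤ M := (abs_nonneg _).trans (hM 0)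
  set q : ℝ → ℝ := fun y => S (3 * (y - l) / δ - 1) * S (3 * (r - y) / δ - 1) * t y with hq
  have q1 : ∀ y ≤ l + δ / 3, q y = 0 := by
    intro y hy
    have : 3 * (y - l) / δ - 1 ≤ 0 := by
      rw [sub_nonpos, div_le_one hδ]; linarith
    simp [hq, S_zero this]
  have q2 : ∀ y, r - δ / 3 ≤ y → q y = 0 := by
    intro y hy
    have : 3 * (r - y) / δ - 1 ≤ 0 := by
      rw [sub_nonpos, div_le_one hδ]; linarith
    simp [hq, S_zero this]
  have z1 : ∀ y < l + δ / 3, q =ᶠ[𝓝 y] fun _ => 0 := by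
    intro y hy
    filter_upwards [Iio_mem_nhds hy] with t ht using q1 t (le_of_lt ht)
  have z2 : ∀ y, r - δ / 3 < y → q =ᶠ[𝓝 y] fun _ => 0 := by
    intro y hy
    filter_upwards [Ioi_mem_nhds hy] with t ht using q2 t (le_of_lt ht)
  refine ⟨q, ?_, q1, q2, ?_, ?_⟩
  · rw [contDiff_iff_contDiffAt]
    intro y
    rcases lt_or_ge y (l + δ / 3) with h | h
    · exact contDiffAt_const.congr_of_eventuallyEq (z1 y h)
    rcases lt_or_ge (r - δ / 3) y with h' | h'
    · exact contDiffAt_const.congr_of_eventuallyEq (z2 y h')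
    have hy : y ∈ Ioo l r := ⟨by linarith, by linarith⟩
    have c1 : ContDiff ℝ 1 (fun y : ℝ => S (3 * (y - l) / δ - 1)) :=
      S_contDiff1.comp (by fun_prop)
    have c2 : ContDiff ℝ 1 (fun y : ℝ => S (3 * (r - y) / δ - 1)) :=
      S_contDiff1.comp (by fun_prop)
    exact (c1.contDiffAt.mul c2.contDiffAt).mul (ht y hy)
  · intro y h1 h2
    have hev : q =ᶠ[𝓝 y] t := by
      filter_upwards [Ioi_mem_nhds (show l + 2 * δ / 3 < y by linarith),
        Iio_mem_nhds (show y < r - 2 * δ / 3 by linarith)] with u hu1 hu2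
      simp only [mem_Ioi, mem_Iio] at hu1 hu2
      have e1 : 1 ≤ 3 * (u - l) / δ - 1 := by
        rw [le_sub_iff_add_le, le_div_iff₀ hδ]; linarith
      have e2 : 1 ≤ 3 * (r - u) / δ - 1 := by
        rw [le_sub_iff_add_le, le_div_iff₀ hδ]; linarith
      simp [hq, S_one e1, S_one e2]
    rw [hev.deriv_eq, hev.self_of_nhds]
    exact htη y ⟨by linarith, by linarith⟩
  · intro y
    have hpos : 0 ≤ 6 * M * B / δ := by positivity
    rcases lt_or_ge y (l + δ / 3) with h | h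
    · rw [(z1 y h).deriv_eq, (z1 y h).self_of_nhds]
      simp
      positivity
    rcases lt_or_ge (r - δ / 3) y with h' | h'
    · rw [(z2 y h').deriv_eq, (z2 y h').self_of_nhds]
      simp
      positivity
    have hy : y ∈ Ioo l r := ⟨by linarith, by linarith⟩
    have d1 : HasDerivAt (fun y : ℝ => S (3 * (y - l) / δ - 1)) (deriv S (3 * (y - l) / δ - 1) * (3 / δ)) y := by
      have h1 : HasDerivAt (fun y : ℝ => 3 * (y - l) / δ - 1) (3 / δ) y := by
        have := ((((hasDerivAt_id y).sub_const l).const_mul 3).div_const δ).sub_const 1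
        simpa using this
      exact ((S_contDiff1.differentiable (by norm_num)) _).hasDerivAt.comp y h1
    have d2 : HasDerivAt (fun y : ℝ => S (3 * (r - y) / δ - 1)) (deriv S (3 * (r - y) / δ - 1) * (-3 / δ)) y := by
      have h1 : HasDerivAt (fun y : ℝ => 3 * (r - y) / δ - 1) (-3 / δ) y := by
        have := ((((hasDerivAt_id y).const_sub r).const_mul 3).div_const δ).sub_const 1
        simpa using this
      exact ((S_contDiff1.differentiable (by norm_num)) _).hasDerivAt.comp y h1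
    have d3 : HasDerivAt t (deriv t y) y := ((ht y hy).differentiableAt (by norm_num)).hasDerivAt
    have d4 : HasDerivAt q _ y := (d1.mul d2).mul d3
    rw [d4.deriv]
    simp only [hq, Pi.mul_apply]
    have a1 := S_nonneg (3 * (y - l) / δ - 1)
    have a2 := S_nonneg (3 * (r - y) / δ - 1)
    have b1 := S_le_one (3 * (y - l) / δ - 1)
    have b2 := S_le_one (3 * (r - y) / δ - 1)
    have m1 := hM (3 * (y - l) / δ - 1)
    have m2 := hM (3 * (r - y) / δ - 1)
    have tB := htB y hy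
    have t1 := ht1 y hy
    generalize S (3 * (y - l) / δ - 1) = s1 at *
    generalize S (3 * (r - y) / δ - 1) = s2 at *
    generalize deriv S (3 * (y - l) / δ - 1) = e1 at *
    generalize deriv S (3 * (r - y) / δ - 1) = e2 at *
    have k1 : e1 * (3 / δ) * s2 * t y ≤ M * (3 / δ) * 1 * B := by
      calc e1 * (3 / δ) * s2 * t y ≤ |e1 * (3 / δ) * s2 * t y| := le_abs_self _
        _ = |e1| * (3 / δ) * s2 * |t y| := by
          rw [abs_mul, abs_mul, abs_mul, abs_of_nonneg a2, abs_of_pos (show 0 < 3 / δ by positivity)]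
        _ ≤ M * (3 / δ) * 1 * B := by gcongr
    have k2 : s1 * (e2 * (-3 / δ)) * t y ≤ 1 * (M * (3 / δ)) * B := by
      calc s1 * (e2 * (-3 / δ)) * t y ≤ |s1 * (e2 * (-3 / δ)) * t y| := le_abs_self _
        _ = s1 * (|e2| * (3 / δ)) * |t y| := by
          rw [abs_mul, abs_mul, abs_mul, abs_of_nonneg a1, neg_div, abs_neg,
            abs_of_pos (show 0 < 3 / δ by positivity)]
        _ ≤ 1 * (M * (3 / δ)) * B := by gcongr
    have k3 : s1 * s2 * deriv t y ≤ 0 := mul_nonpos_of_nonneg_of_nonpos (by positivity) t1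
    have k4 : (s1 * s2 * t y) ^ 2 ≤ B ^ 2 := by
      rw [← sq_abs, abs_mul, abs_mul, abs_of_nonneg a1, abs_of_nonneg a2]
      have : s1 * s2 * |t y| ≤ 1 * 1 * B := by gcongr
      have h0 : 0 ≤ s1 * s2 * |t y| := by positivity
      nlinarith
    have k5 : 6 * M * B / δ = M * (3 / δ) * 1 * B + 1 * (M * (3 / δ)) * B := by ring
    rw [k5]
    nlinarith

/-- the field used for nearly aligned pairs -/
lemma field_A {η : ℝ} (h0 : 0 < η) (h1 : η ≤ 2 / 5) {y : ℝ} (hy : y ∈ Ioo (-Real.pi) Real.pi) :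
    let t : ℝ → ℝ := fun y => -(1 / 2) * (1 - η) * Real.sin (y / 2) / (Real.cos (y / 2) + η)
    ContDiffAt ℝ 1 t y ∧ deriv t y ≤ 0 ∧ |t y| ≤ 1 / (2 * η) ∧ deriv t y + t y ^ 2 + 1 / 4 ≤ η := by
  intro t
  have hc : 0 < Real.cos (y / 2) := Real.cos_pos_of_mem_Ioo ⟨by linarith [hy.1], by linarith [hy.2]⟩
  have hne : Real.cos (y / 2) + η ≠ 0 := by positivity
  have hd : HasDerivAt t (-(1 / 4) * (1 - η) * (1 + η * Real.cos (y / 2)) / (Real.cos (y / 2) + η) ^ 2) y := by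
    have d0 : HasDerivAt (fun y : ℝ => y / 2) (1 / 2) y := by
      simpa using (hasDerivAt_id y).div_const 2
    have d1 : HasDerivAt (fun y : ℝ => Real.sin (y / 2)) (Real.cos (y / 2) * (1 / 2)) y := d0.sin
    have d2 : HasDerivAt (fun y : ℝ => Real.cos (y / 2)) (-Real.sin (y / 2) * (1 / 2)) y := d0.cos
    have d3 := ((d1.const_mul (-(1 / 2) * (1 - η))).div (d2.add_const η) hne)
    refine d3.congr_deriv ?_
    have hs : Real.sin (y / 2) ^ 2 = 1 - Real.cos (y / 2) ^ 2 := Real.sin_sq _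
    congr 1
    have : -(1 / 2) * (1 - η) * (Real.cos (y / 2) * (1 / 2)) * (Real.cos (y / 2) + η) -
      -(1 / 2) * (1 - η) * Real.sin (y / 2) * (-Real.sin (y / 2) * (1 / 2)) =
      -(1 / 4) * (1 - η) * (Real.cos (y / 2) * (Real.cos (y / 2) + η) + Real.sin (y / 2) ^ 2) := by ring
    rw [this, hs]
    ring
  have hs : Real.sin (y / 2) ^ 2 = 1 - Real.cos (y / 2) ^ 2 := Real.sin_sq _
  have hc1 := Real.cos_le_one (y / 2)
  refine ⟨?_, ?_, ?_, ?_⟩
  · have c1 : ContDiffAt ℝ 1 (fun y : ℝ => Real.sin (y / 2)) y := by fun_prop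
    have c2 : ContDiffAt ℝ 1 (fun y : ℝ => Real.cos (y / 2)) y := by fun_prop
    exact (contDiffAt_const.mul c1).div (c2.add contDiffAt_const) hne
  · rw [hd.deriv]
    apply div_nonpos_of_nonpos_of_nonneg _ (by positivity)
    have : 0 < 1 - η := by linarith
    have : 0 < (1 - η) * (1 + η * Real.cos (y / 2)) := by positivity
    nlinarith
  · have e : |t y| = (1 / 2) * (1 - η) * |Real.sin (y / 2)| / (Real.cos (y / 2) + η) := by
      simp only [t]
      rw [abs_div, abs_mul, abs_mul, abs_neg, abs_of_pos (show (0:ℝ) < 1 / 2 by norm_num),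
        abs_of_pos (show (0:ℝ) < 1 - η by linarith),
        abs_of_pos (show 0 < Real.cos (y / 2) + η by positivity)]
    rw [e]
    calc (1 / 2) * (1 - η) * |Real.sin (y / 2)| / (Real.cos (y / 2) + η)
        ≤ (1 / 2) * 1 * 1 / η := by
          gcongr
          · linarith
          · exact Real.abs_sin_le_one _
          · linarith
      _ = 1 / (2 * η) := by field_simp
  · rw [hd.deriv]
    simp only [t]
    rw [div_pow, ← add_div, ← sub_nonpos]
    have e : (-(1 / 4) * (1 - η) * (1 + η * Real.cos (y / 2)) +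
      (-(1 / 2) * (1 - η) * Real.sin (y / 2)) ^ 2) / (Real.cos (y / 2) + η) ^ 2 + 1 / 4 - η =
      -(η / 4) * (1 - Real.cos (y / 2) + 2 * Real.cos (y / 2) ^ 2 - 2 * η + 7 * η * Real.cos (y / 2)
        + η * Real.cos (y / 2) ^ 2 + 4 * η ^ 2) / (Real.cos (y / 2) + η) ^ 2 := by
      have : (-(1 / 2) * (1 - η) * Real.sin (y / 2)) ^ 2 = (1 / 4) * (1 - η) ^ 2 * (1 - Real.cos (y / 2) ^ 2) := by
        rw [← hs]; ring
      rw [this]
      field_simp
      ring
    rw [e]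
    apply div_nonpos_of_nonpos_of_nonneg _ (by positivity)
    have : 0 ≤ 1 - Real.cos (y / 2) + 2 * Real.cos (y / 2) ^ 2 - 2 * η := by
      nlinarith [sq_nonneg (4 * Real.cos (y / 2) - 1)]
    have h2 : 0 ≤ 7 * η * Real.cos (y / 2) + η * Real.cos (y / 2) ^ 2 + 4 * η ^ 2 := by positivity
    have h3 : 0 ≤ (η / 4) * (1 - Real.cos (y / 2) + 2 * Real.cos (y / 2) ^ 2 - 2 * η + 7 * η * Real.cos (y / 2)
        + η * Real.cos (y / 2) ^ 2 + 4 * η ^ 2) := by
      apply mul_nonneg (by positivity)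
      linarith
    linarith

/-- the tangent field -/
lemma field_tan {c y ε : ℝ} (hε : 0 < ε) (hε' : ε < Real.pi / 2) (hy : |(y - c) / 2| ≤ Real.pi / 2 - ε) :
    let t : ℝ → ℝ := fun y => -(1 / 2) * Real.tan ((y - c) / 2)
    ContDiffAt ℝ 1 t y ∧ deriv t y ≤ 0 ∧ |t y| ≤ 1 / (2 * ε) ∧ deriv t y + t y ^ 2 + 1 / 4 ≤ 0 := by
  intro t
  obtain ⟨hy1, hy2⟩ := abs_le.mp hy
  have hc : 0 < Real.cos ((y - c) / 2) := Real.cos_pos_of_mem_Ioo ⟨by linarith, by linarith⟩
  have d0 : HasDerivAt (fun y : ℝ => (y - c) / 2) (1 / 2) y := by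
    simpa using ((hasDerivAt_id y).sub_const c).div_const 2
  have hd : HasDerivAt t (-(1 / 4) / Real.cos ((y - c) / 2) ^ 2) y := by
    have d1 := ((Real.hasDerivAt_tan hc.ne').comp y d0).const_mul (-(1 / 2) : ℝ)
    refine d1.congr_deriv ?_
    ring
  have hs : Real.sin ((y - c) / 2) ^ 2 = 1 - Real.cos ((y - c) / 2) ^ 2 := Real.sin_sq _
  refine ⟨?_, ?_, ?_, ?_⟩
  · have c0 : ContDiffAt ℝ 1 (fun y : ℝ => (y - c) / 2) y := by fun_prop
    have c1 : ContDiffAt ℝ 1 (fun y : ℝ => Real.tan ((y - c) / 2)) y :=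
      ContDiffAt.comp (g := Real.tan) y
        ((Real.contDiffAt_tan (n := 1) (x := (y - c) / 2)).mpr hc.ne') c0
    exact contDiffAt_const.mul c1
  · rw [hd.deriv]
    apply div_nonpos_of_nonpos_of_nonneg (by norm_num) (by positivity)
  · have h1 : |Real.tan ((y - c) / 2)| ≤ 1 / ε := by
      have e1 : Real.tan (Real.pi / 2 - ε) ≤ 1 / ε := by
        rw [Real.tan_pi_div_two_sub, ← one_div]
        exact one_div_le_one_div_of_le hε (Real.lt_tan hε hε').le
      have m1 : Real.tan ((y - c) / 2) ≤ Real.tan (Real.pi / 2 - ε) :=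
        Real.strictMonoOn_tan.monotoneOn ⟨by linarith, by linarith⟩ ⟨by linarith, by linarith⟩ hy2
      have m2 : Real.tan (-(Real.pi / 2 - ε)) ≤ Real.tan ((y - c) / 2) :=
        Real.strictMonoOn_tan.monotoneOn ⟨by linarith, by linarith⟩ ⟨by linarith, by linarith⟩ hy1
      rw [Real.tan_neg] at m2
      rw [abs_le]
      constructor <;> linarith
    simp only [t]
    rw [abs_mul, abs_neg, abs_of_pos (show (0:ℝ) < 1 / 2 by norm_num)]
    calc 1 / 2 * |Real.tan ((y - c) / 2)| ≤ 1 / 2 * (1 / ε) := by gcongr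
      _ = 1 / (2 * ε) := by field_simp
  · rw [hd.deriv]
    simp only [t]
    rw [Real.tan_eq_sin_div_cos]
    have : -(1 / 4) / Real.cos ((y - c) / 2) ^ 2 + (-(1 / 2) * (Real.sin ((y - c) / 2) / Real.cos ((y - c) / 2))) ^ 2 + 1 / 4
      = 0 := by
      have e : (-(1 / 2) * (Real.sin ((y - c) / 2) / Real.cos ((y - c) / 2))) ^ 2 =
        (1 / 4) * (1 - Real.cos ((y - c) / 2) ^ 2) / Real.cos ((y - c) / 2) ^ 2 := by
        rw [← hs]; ring
      rw [e]
      field_simp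
      ring
    rw [this]

lemma angle_A {M : ℝ} (hM : ∀ x, |deriv S x| ≤ M) {κ δ : ℝ} (hκ : 0 < κ) (hδ : 0 < δ)
    (hη : κ * δ ≤ 2 / 5) :
    ∃ p : ℝ → ℝ, ContDiff ℝ 1 p ∧ (∀ y ≤ -Real.pi + δ / 3, p y = 0) ∧
      (∀ y, Real.pi - δ / 3 ≤ y → p y = 0) ∧
      (∀ y, -Real.pi + δ ≤ y → y ≤ Real.pi - δ → deriv p y + p y ^ 2 + 1 / 4 ≤ κ * δ) ∧
      (∀ y, deriv p y + 2 * p y ^ 2 + 1 / 2 ≤
        6 * M * (1 / (2 * (κ * δ))) / δ + 2 * (1 / (2 * (κ * δ))) ^ 2 + 1 / 2) := by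
  have h0 : 0 < κ * δ := by positivity
  exact arc hM hδ (by positivity) (fun y hy => (field_A h0 hη hy).1) (fun y hy => (field_A h0 hη hy).2.1)
    (fun y hy => (field_A h0 hη hy).2.2.1) (fun y hy => (field_A h0 hη hy).2.2.2)

lemma angle_B {M : ℝ} (hM : ∀ x, |deriv S x| ≤ M) {a δ : ℝ} (ha : 0 < a) (ha' : a ≤ Real.pi)
    (hδ : 0 < δ) :
    ∃ p : ℝ → ℝ, ContDiff ℝ 1 p ∧ (∀ y ≤ -Real.pi + δ / 3, p y = 0) ∧
      (∀ y, Real.pi - δ / 3 ≤ y → p y = 0) ∧
      (∀ y, -Real.pi + δ ≤ y → y ≤ Real.pi - δ → δ ≤ |y - (Real.pi - a)| →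
        deriv p y + p y ^ 2 + 1 / 4 ≤ 0) ∧
      (∀ y, deriv p y + 2 * p y ^ 2 + 1 / 2 ≤
        6 * M * (2 / a) / δ + 2 * (2 / a) ^ 2 + 1 / 2) := by
  have hε : 0 < a / 4 := by positivity
  have hε' : a / 4 < Real.pi / 2 := by linarith [Real.pi_pos]
  have hB : (1:ℝ) / (2 * (a / 4)) = 2 / a := by field_simp; norm_num
  have A1 : ∀ y ∈ Ioo (-Real.pi) (Real.pi - a), |(y - (-a / 2)) / 2| ≤ Real.pi / 2 - a / 4 := by
    intro y hy
    rw [abs_le]
    constructor <;> linarith [hy.1, hy.2]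
  have A2 : ∀ y ∈ Ioo (Real.pi - a) Real.pi, |(y - (Real.pi - a / 2)) / 2| ≤ Real.pi / 2 - a / 4 := by
    intro y hy
    rw [abs_le]
    constructor <;> linarith [hy.1, hy.2]
  obtain ⟨q1, c1, l1, r1, f1, n1⟩ := arc hM (l := -Real.pi) (r := Real.pi - a) (η := 0) (B := 2 / a) hδ
    (by positivity) (fun y hy => (field_tan hε hε' (A1 y hy)).1)
    (fun y hy => (field_tan hε hε' (A1 y hy)).2.1)
    (fun y hy => hB ▸ (field_tan hε hε' (A1 y hy)).2.2.1)
    (fun y hy => (field_tan hε hε' (A1 y hy)).2.2.2)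
  obtain ⟨q2, c2, l2, r2, f2, n2⟩ := arc hM (l := Real.pi - a) (r := Real.pi) (η := 0) (B := 2 / a) hδ
    (by positivity) (fun y hy => (field_tan hε hε' (A2 y hy)).1)
    (fun y hy => (field_tan hε hε' (A2 y hy)).2.1)
    (fun y hy => hB ▸ (field_tan hε hε' (A2 y hy)).2.2.1)
    (fun y hy => (field_tan hε hε' (A2 y hy)).2.2.2)
  have hd : ∀ y, deriv (fun y => q1 y + q2 y) y = deriv q1 y + deriv q2 y := fun y =>
    deriv_fun_add (c1.differentiable (by norm_num) y) (c2.differentiable (by norm_num) y)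
  have z1 : ∀ y, Real.pi - a ≤ y → q1 y = 0 ∧ deriv q1 y = 0 := by
    intro y hy
    refine ⟨r1 y (by linarith), ?_⟩
    have : q1 =ᶠ[𝓝 y] fun _ => 0 := by
      filter_upwards [Ioi_mem_nhds (show Real.pi - a - δ / 3 < y by linarith)] with t ht
      exact r1 t (le_of_lt ht)
    rw [this.deriv_eq]; simp
  have z2 : ∀ y, y ≤ Real.pi - a → q2 y = 0 ∧ deriv q2 y = 0 := by
    intro y hy
    refine ⟨l2 y (by linarith), ?_⟩
    have : q2 =ᶠ[𝓝 y] fun _ => 0 := by
      filter_upwards [Iio_mem_nhds (show y < Real.pi - a + δ / 3 by linarith)] with t ht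
      exact l2 t (le_of_lt ht)
    rw [this.deriv_eq]; simp
  refine ⟨fun y => q1 y + q2 y, c1.add c2, ?_, ?_, ?_, ?_⟩
  · intro y hy
    simp only
    rw [l1 y hy, l2 y (by linarith)]
    simp
  · intro y hy
    simp only
    rw [r1 y (by linarith), r2 y hy]
    simp
  · intro y h1 h2 h3
    rw [hd]
    simp only
    rcases le_total y (Real.pi - a) with h | h
    · rw [abs_of_nonpos (by linarith)] at h3
      rw [(z2 y h).1, (z2 y h).2, add_zero, add_zero]
      exact f1 y h1 (by linarith)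
    · rw [abs_of_nonneg (by linarith)] at h3
      rw [(z1 y h).1, (z1 y h).2, zero_add, zero_add]
      exact f2 y (by linarith) h2
  · intro y
    rw [hd]
    simp only
    rcases le_total y (Real.pi - a) with h | h
    · rw [(z2 y h).1, (z2 y h).2, add_zero, add_zero]
      exact n1 y
    · rw [(z1 y h).1, (z1 y h).2, zero_add, zero_add]
      exact n2 y

end Pool.Agent.Lib.MP_6ad5de_an
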