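import Mathlib

open Metric Complex Filter Topology

namespace Pool.Agent.Lib.MP_6ad5de_an

/-- a zero-free holomorphic function on the disc has a holomorphic fourth root -/
lemma exists_fourth_root {g : ℂ → ℂ} (hg : DifferentiableOn ℂ g (ball 0 1))
    (h0 : ∀ z ∈ ball (0:ℂ) 1, g z ≠ 0) :
    ∃ k : ℂ → ℂ, DifferentiableOn ℂ k (ball 0 1) ∧ ∀ z ∈ ball (0:ℂ) 1, k z ^ 4 = g z := by
  have hd : DifferentiableOn ℂ (fun z => deriv g z / g z) (ball 0 1) :=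
    (hg.deriv isOpen_ball).div hg h0
  obtain ⟨P, hP⟩ := hd.isExactOn_ball
  have hP' : ∀ z ∈ ball (0:ℂ) 1, HasDerivAt P (deriv g z / g z) z := fun z hz => hP z hz
  have hconst : ∀ z ∈ ball (0:ℂ) 1, g z * Complex.exp (-P z) = g 0 * Complex.exp (-P 0) := by
    have hD : ∀ z ∈ ball (0:ℂ) 1, HasDerivAt (fun z => g z * Complex.exp (-P z)) 0 z := by
      intro z hz
      have h1 := (hg.differentiableAt (isOpen_ball.mem_nhds hz)).hasDerivAt
      have h2 := (hP' z hz).neg.cexp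
      have h3 := h1.mul h2
      refine h3.congr_deriv ?_
      have := h0 z hz
      field_simp
      ring
    have hdiff : DifferentiableOn ℂ (fun z => g z * Complex.exp (-P z)) (ball 0 1) :=
      fun z hz => (hD z hz).differentiableAt.differentiableWithinAt
    intro z hz
    exact (convex_ball (0:ℂ) 1).is_const_of_fderivWithin_eq_zero (𝕜 := ℂ) hdiff (fun w hw => by
      rw [fderivWithin_of_isOpen isOpen_ball hw]
      have := (hD w hw).hasFDerivAt.fderiv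
      rw [this]
      ext
      simp) hz (mem_ball_self one_pos)
  have h00 := h0 0 (mem_ball_self one_pos)
  obtain ⟨c, hc⟩ : ∃ c : ℂ, c ^ 4 = g 0 * Complex.exp (-P 0) :=
    IsAlgClosed.exists_pow_nat_eq _ (by norm_num)
  refine ⟨fun z => c * Complex.exp (P z / 4), ?_, ?_⟩
  · intro z hz
    exact (((hP' z hz).div_const 4).cexp.const_mul c).differentiableAt.differentiableWithinAt
  · intro z hz
    change (c * Complex.exp (P z / 4)) ^ 4 = g z
    rw [mul_pow, hc, ← hconst z hz, ← Complex.exp_nat_mul, mul_assoc, ← Complex.exp_add]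
    norm_num
    ring_nf
    simp

lemma second_deriv_test {u u' : ℝ → ℝ} {c : ℝ} (hmax : IsLocalMax u 0)
    (h1 : ∀ᶠ t in 𝓝 0, HasDerivAt u (u' t) t) (h2 : HasDerivAt u' c 0) : u' 0 = 0 ∧ c ≤ 0 := by
  have h10 := h1.self_of_nhds
  have hz : u' 0 = 0 := hmax.hasDerivAt_eq_zero h10
  refine ⟨hz, ?_⟩
  by_contra hc
  push Not at hc
  have he : deriv u =ᶠ[𝓝 0] u' := by
    filter_upwards [h1] with t ht using ht.deriv
  have hdd : deriv (deriv u) 0 = c := by rw [he.deriv_eq, h2.deriv]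
  have hmin : IsLocalMin u 0 := isLocalMin_of_deriv_deriv_pos (by rw [hdd]; exact hc)
    (by rw [h10.deriv, hz]) h10.continuousAt
  have hconst : u =ᶠ[𝓝 0] fun _ => u 0 := by
    filter_upwards [hmax, hmin] with t h3 h4 using le_antisymm h3 h4
  have h5 : deriv u =ᶠ[𝓝 0] fun _ => 0 := by
    have := hconst.deriv
    refine this.trans (Eventually.of_forall fun t => ?_)
    simp
  have h6 : deriv (deriv u) 0 = 0 := by rw [h5.deriv_eq]; simp
  rw [hdd] at h6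
  linarith

/-- derivatives of `‖G(z₀ + te)‖²` -/
lemma hasDerivAt_line {G G' : ℂ → ℂ} {z0 e : ℂ} {t : ℝ} (h : HasDerivAt G (G' (z0 + t * e)) (z0 + t * e)) :
    HasDerivAt (fun t : ℝ => G (z0 + t * e)) (G' (z0 + t * e) * e) t := by
  have h1 : HasDerivAt (fun s : ℂ => z0 + s * e) e (t : ℂ) := by
    simpa using ((hasDerivAt_id (t : ℂ)).mul_const e).const_add z0
  have h2 : HasDerivAt (fun s : ℂ => G (z0 + s * e)) (G' (z0 + t * e) * e) (t : ℂ) :=
    HasDerivAt.comp (t : ℂ) (h₂ := G) (h := fun s : ℂ => z0 + s * e) h h1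
  exact h2.comp_ofReal

open scoped InnerProductSpace

lemma hasDerivAt_normsq {v : ℝ → ℂ} {v' : ℂ} {t : ℝ} (h : HasDerivAt v v' t) :
    HasDerivAt (fun t => ‖v t‖ ^ 2) (2 * (v' * (starRingEnd ℂ) (v t)).re) t := by
  have := h.norm_sq
  refine this.congr_deriv ?_
  simp [Complex.inner]

/-- second order conditions at an interior maximum of `(r²-|z|²)² ∑|Gᵢ|²` -/
lemma max_conditions {r : ℝ} {G : Fin 3 → ℂ → ℂ} (hG : ∀ i, DifferentiableOn ℂ (G i) (ball 0 1))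
    {z0 : ℂ} (hz0 : z0 ∈ ball (0:ℂ) 1) (hR : 0 < r ^ 2 - ‖z0‖ ^ 2)
    (hmax : IsLocalMax (fun z : ℂ => (r ^ 2 - ‖z‖ ^ 2) ^ 2 * ∑ i, ‖G i z‖ ^ 2) z0) :
    (r ^ 2 - ‖z0‖ ^ 2) ^ 2 * ((∑ i, ‖deriv (G i) z0‖ ^ 2) * (∑ i, ‖G i z0‖ ^ 2)
      - ‖∑ i, deriv (G i) z0 * (starRingEnd ℂ) (G i z0)‖ ^ 2)
      ≤ 2 * r ^ 2 * (∑ i, ‖G i z0‖ ^ 2) ^ 2 := by
  set R := r ^ 2 - ‖z0‖ ^ 2 with hRdef
  set N := ∑ i, ‖G i z0‖ ^ 2 with hN
  set T := ∑ i, ‖deriv (G i) z0‖ ^ 2 with hT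
  set S := ∑ i, deriv (G i) z0 * (starRingEnd ℂ) (G i z0) with hS
  have hN0 : 0 ≤ N := Finset.sum_nonneg fun i _ => by positivity
  -- the computation along a line
  have line : ∀ e : ℂ, ‖e‖ = 1 →
      2 * R * (-2 * (e * (starRingEnd ℂ) z0).re) * N + R ^ 2 * (2 * (S * e).re) = 0 ∧
      2 * (-2 * (e * (starRingEnd ℂ) z0).re) ^ 2 * N + 2 * R * (-2) * N
        + 4 * R * (-2 * (e * (starRingEnd ℂ) z0).re) * (2 * (S * e).re)
        + R ^ 2 * (2 * T + 2 * (e ^ 2 * ∑ i, deriv (deriv (G i)) z0 * (starRingEnd ℂ) (G i z0)).re) ≤ 0 := by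
    intro e he
    have hcont : Tendsto (fun t : ℝ => z0 + t * e) (𝓝 0) (𝓝 z0) := by
      have : Continuous (fun t : ℝ => z0 + t * e) := by fun_prop
      have h := this.tendsto 0
      simpa using h
    have hev : ∀ᶠ t : ℝ in 𝓝 0, z0 + t * e ∈ ball (0:ℂ) 1 := hcont.eventually (isOpen_ball.mem_nhds hz0)
    have hmax' : IsLocalMax (fun t : ℝ => (r ^ 2 - ‖z0 + t * e‖ ^ 2) ^ 2 * ∑ i, ‖G i (z0 + t * e)‖ ^ 2) 0 := by
      have h1 := hcont.eventually hmax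
      filter_upwards [h1] with t ht
      simpa using ht
    have hγ : ∀ t : ℝ, HasDerivAt (fun t : ℝ => z0 + t * e) e t := by
      intro t
      have := hasDerivAt_line (G := fun z => z) (G' := fun _ => 1) (z0 := z0) (e := e) (t := t) (hasDerivAt_id _)
      simpa using this
    have hRt : ∀ t : ℝ, HasDerivAt (fun t : ℝ => r ^ 2 - ‖z0 + t * e‖ ^ 2)
        (-(2 * (e * (starRingEnd ℂ) (z0 + t * e)).re)) t := fun t =>
      (hasDerivAt_normsq (hγ t)).const_sub (r ^ 2)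
    have hRt2 : HasDerivAt (fun t : ℝ => -(2 * (e * (starRingEnd ℂ) (z0 + t * e)).re)) (-2) 0 := by
      have e1 : (fun t : ℝ => -(2 * (e * (starRingEnd ℂ) (z0 + t * e)).re))
          = fun t : ℝ => -(2 * (e * (starRingEnd ℂ) z0).re) - 2 * t := by
        ext t
        have : (e * (starRingEnd ℂ) (z0 + t * e)).re = (e * (starRingEnd ℂ) z0).re + t * ‖e‖ ^ 2 := by
          rw [← Complex.normSq_eq_norm_sq, Complex.normSq_apply]
          simp
          ring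
        rw [this, he]
        ring
      rw [e1]
      have := ((hasDerivAt_id (0:ℝ)).const_mul 2).const_sub (-(2 * (e * (starRingEnd ℂ) z0).re))
      simpa using this
    have hGt : ∀ i, ∀ᶠ t : ℝ in 𝓝 0, HasDerivAt (fun t : ℝ => ‖G i (z0 + t * e)‖ ^ 2)
        (2 * (deriv (G i) (z0 + t * e) * e * (starRingEnd ℂ) (G i (z0 + t * e))).re) t := by
      intro i
      filter_upwards [hev] with t ht
      exact hasDerivAt_normsq (hasDerivAt_line (((hG i).differentiableAt (isOpen_ball.mem_nhds ht)).hasDerivAt))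
    have hNt : ∀ᶠ t : ℝ in 𝓝 0, HasDerivAt (fun t : ℝ => ∑ i, ‖G i (z0 + t * e)‖ ^ 2)
        (∑ i, 2 * (deriv (G i) (z0 + t * e) * e * (starRingEnd ℂ) (G i (z0 + t * e))).re) t := by
      have := eventually_all.mpr hGt
      filter_upwards [this] with t ht
      exact HasDerivAt.fun_sum fun i _ => ht i
    have hNt2 : HasDerivAt (fun t : ℝ => ∑ i, 2 * (deriv (G i) (z0 + t * e) * e * (starRingEnd ℂ) (G i (z0 + t * e))).re)
        (∑ i, (2 * ‖deriv (G i) z0‖ ^ 2 + 2 * (e ^ 2 * (deriv (deriv (G i)) z0 * (starRingEnd ℂ) (G i z0))).re)) 0 := by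
      refine HasDerivAt.fun_sum fun i _ => ?_
      have hz0' : z0 + ((0:ℝ):ℂ) * e ∈ ball (0:ℂ) 1 := by simpa using hz0
      have d1 : HasDerivAt (fun t : ℝ => deriv (G i) (z0 + t * e)) (deriv (deriv (G i)) (z0 + (0:ℝ) * e) * e) 0 :=
        hasDerivAt_line (G := deriv (G i)) (G' := deriv (deriv (G i)))
          ((((hG i).deriv isOpen_ball).differentiableAt (isOpen_ball.mem_nhds hz0')).hasDerivAt)
      have d2 : HasDerivAt (fun t : ℝ => G i (z0 + t * e)) (deriv (G i) (z0 + (0:ℝ) * e) * e) 0 :=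
        hasDerivAt_line (((hG i).differentiableAt (isOpen_ball.mem_nhds hz0')).hasDerivAt)
      have d3 : HasDerivAt (fun t : ℝ => (starRingEnd ℂ) (G i (z0 + t * e)))
          ((starRingEnd ℂ) (deriv (G i) (z0 + (0:ℝ) * e) * e)) 0 := d2.star
      have d4 := (((d1.mul_const e).mul d3))
      have d5 : HasDerivAt (fun t : ℝ => (deriv (G i) (z0 + t * e) * e * (starRingEnd ℂ) (G i (z0 + t * e))).re) _ 0 :=
        (Complex.reCLM.hasFDerivAt.comp_hasDerivAt (0:ℝ) d4)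
      refine (d5.const_mul 2).congr_deriv ?_
      have he2 : (e.re) ^ 2 + (e.im) ^ 2 = 1 := by
        have := congrArg (· ^ 2) he
        simp only [one_pow] at this
        rw [← Complex.normSq_eq_norm_sq, Complex.normSq_apply] at this
        linarith
      simp only [Complex.ofReal_zero, zero_mul, add_zero]
      rw [← Complex.normSq_eq_norm_sq, Complex.normSq_apply]
      simp [pow_two]
      linear_combination (2 * ((deriv (G i) z0).re ^ 2 + (deriv (G i) z0).im ^ 2)) * he2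
    have hU : ∀ᶠ t : ℝ in 𝓝 0, HasDerivAt (fun t : ℝ => (r ^ 2 - ‖z0 + t * e‖ ^ 2) ^ 2 * ∑ i, ‖G i (z0 + t * e)‖ ^ 2)
        (2 * (r ^ 2 - ‖z0 + t * e‖ ^ 2) * (-(2 * (e * (starRingEnd ℂ) (z0 + t * e)).re)) * (∑ i, ‖G i (z0 + t * e)‖ ^ 2)
          + (r ^ 2 - ‖z0 + t * e‖ ^ 2) ^ 2 * ∑ i, 2 * (deriv (G i) (z0 + t * e) * e * (starRingEnd ℂ) (G i (z0 + t * e))).re) t := by
      filter_upwards [hNt] with t ht
      have := ((hRt t).pow 2).mul ht
      refine this.congr_deriv ?_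
      simp
    have hU2 := (((hRt 0).const_mul 2).mul hRt2).mul hNt.self_of_nhds
    have hU3 := ((hRt 0).pow 2).mul hNt2
    have hU4 := hU2.add hU3
    have key := second_deriv_test hmax' hU hU4
    have es : ∑ i, 2 * (deriv (G i) z0 * e * (starRingEnd ℂ) (G i z0)).re = 2 * (S * e).re := by
      rw [hS, ← Finset.mul_sum, Finset.sum_mul, Complex.re_sum]
      congr 1
      refine Finset.sum_congr rfl fun i _ => ?_
      congr 1
      ring
    have es2 : ∑ i, (2 * ‖deriv (G i) z0‖ ^ 2 + 2 * (e ^ 2 * (deriv (deriv (G i)) z0 * (starRingEnd ℂ) (G i z0))).re)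
        = 2 * T + 2 * (e ^ 2 * ∑ i, deriv (deriv (G i)) z0 * (starRingEnd ℂ) (G i z0)).re := by
      rw [Finset.sum_add_distrib, ← Finset.mul_sum, ← Finset.mul_sum, Finset.mul_sum (a := e ^ 2), Complex.re_sum]
    obtain ⟨k1, k2⟩ := key
    simp only [Complex.ofReal_zero, zero_mul, add_zero] at k1 k2
    rw [es] at k1 k2
    rw [es2] at k2
    rw [← hRdef, ← hN] at k1 k2
    constructor
    · linarith
    · refine le_trans (le_of_eq ?_) k2
      simp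
      ring
  obtain ⟨a1, b1⟩ := line 1 (by simp)
  obtain ⟨aI, bI⟩ := line Complex.I (by simp)
  have c1 : R * S.re = 2 * z0.re * N := by
    have : R * (R * S.re) = R * (2 * z0.re * N) := by
      simp at a1
      linarith
    exact mul_left_cancel₀ hR.ne' this
  have cI : R * S.im = -2 * z0.im * N := by
    have : R * (R * S.im) = R * (-2 * z0.im * N) := by
      simp at aI
      linarith
    exact mul_left_cancel₀ hR.ne' this
  have hzn : ‖z0‖ ^ 2 = z0.re ^ 2 + z0.im ^ 2 := by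
    rw [← Complex.normSq_eq_norm_sq, Complex.normSq_apply]; ring
  have hSn : ‖S‖ ^ 2 = S.re ^ 2 + S.im ^ 2 := by
    rw [← Complex.normSq_eq_norm_sq, Complex.normSq_apply]; ring
  have hSR : R ^ 2 * ‖S‖ ^ 2 = 4 * ‖z0‖ ^ 2 * N ^ 2 := by
    rw [hSn, hzn]
    have : R ^ 2 * (S.re ^ 2 + S.im ^ 2) = (R * S.re) ^ 2 + (R * S.im) ^ 2 := by ring
    rw [this, c1, cI]
    ring
  have hTT : R ^ 2 * T ≤ (2 * R + 6 * ‖z0‖ ^ 2) * N := by
    simp only [one_mul, mul_one, Complex.I_sq, Complex.conj_re, one_pow] at b1 bI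
    have e1 : (Complex.I * (starRingEnd ℂ) z0).re = z0.im := by simp
    have e2 : (S * Complex.I).re = - S.im := by simp
    have e3 : (-1 * ∑ i, deriv (deriv (G i)) z0 * (starRingEnd ℂ) (G i z0)).re
        = - (∑ i, deriv (deriv (G i)) z0 * (starRingEnd ℂ) (G i z0)).re := by simp
    rw [e1, e2, e3] at bI
    have h8 : 4 * R * (-2 * z0.re) * (2 * S.re) = -16 * z0.re * (R * S.re) := by ring
    have h9 : 4 * R * (-2 * z0.im) * (2 * -S.im) = 16 * z0.im * (R * S.im) := by ring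
    rw [h8, c1] at b1
    rw [h9, cI] at bI
    rw [hzn]
    nlinarith
  have hRz : R + ‖z0‖ ^ 2 = r ^ 2 := by rw [hRdef]; ring
  calc R ^ 2 * (T * N - ‖S‖ ^ 2) = (R ^ 2 * T) * N - R ^ 2 * ‖S‖ ^ 2 := by ring
    _ ≤ ((2 * R + 6 * ‖z0‖ ^ 2) * N) * N - 4 * ‖z0‖ ^ 2 * N ^ 2 := by
        rw [hSR]
        gcongr
    _ = 2 * (R + ‖z0‖ ^ 2) * N ^ 2 := by ring
    _ = _ := by rw [hRz]

lemma lagrange3 (a b : Fin 3 → ℂ) :
    (∑ i, ‖b i‖ ^ 2) * (∑ i, ‖a i‖ ^ 2) - ‖∑ i, b i * (starRingEnd ℂ) (a i)‖ ^ 2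
      = ‖a 0 * b 1 - a 1 * b 0‖ ^ 2 + ‖a 0 * b 2 - a 2 * b 0‖ ^ 2 + ‖a 1 * b 2 - a 2 * b 1‖ ^ 2 := by
  simp only [Fin.sum_univ_three]
  simp only [← Complex.normSq_eq_norm_sq, Complex.normSq_apply]
  simp
  ring

lemma cube_ineq {a b : ℝ} (ha : 0 ≤ a) (hb : 0 ≤ b) :
    (1 + a + b) ^ 3 ≤ 9 * (1 + a ^ 3 + b ^ 3) := by
  nlinarith [mul_nonneg ha hb, mul_nonneg ha (sq_nonneg (a - 1)), mul_nonneg hb (sq_nonneg (b - 1)),
    mul_nonneg ha (sq_nonneg (a - b)), mul_nonneg hb (sq_nonneg (a - b)), sq_nonneg (a - 1), sq_nonneg (b - 1),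
    sq_nonneg (a - b), mul_nonneg ha (sq_nonneg (b - 1)), mul_nonneg hb (sq_nonneg (a - 1))]

/-- the curvature estimate for the Fermat quartic metric, in integrated form -/
lemma fermat_bound {k l : ℂ → ℂ} (hk : DifferentiableOn ℂ k (ball 0 1))
    (hl : DifferentiableOn ℂ l (ball 0 1)) (hl0 : ∀ z ∈ ball (0:ℂ) 1, l z ≠ 0)
    (hkl : ∀ z ∈ ball (0:ℂ) 1, k z ^ 4 - l z ^ 4 = 1) {z : ℂ} (hz : z ∈ ball (0:ℂ) 1) :
    (1 - ‖z‖ ^ 2) ^ 2 * (‖deriv k z / l z ^ 3‖ ^ 2 * (1 + ‖k z‖ ^ 2 + ‖l z‖ ^ 2)) ≤ 18 := by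
  set q : ℂ → ℂ := fun z => deriv k z / l z ^ 3 with hq
  have hqd : DifferentiableOn ℂ q (ball 0 1) :=
    (hk.deriv isOpen_ball).div (hl.pow 3) fun z hz => pow_ne_zero 3 (hl0 z hz)
  set G : Fin 3 → ℂ → ℂ := ![q, fun z => k z * q z, fun z => l z * q z] with hGdef
  have hG : ∀ i, DifferentiableOn ℂ (G i) (ball 0 1) := by
    intro i
    fin_cases i
    · exact hqd
    · exact hk.mul hqd
    · exact hl.mul hqd
  have hN : ∀ z, ∑ i, ‖G i z‖ ^ 2 = ‖q z‖ ^ 2 * (1 + ‖k z‖ ^ 2 + ‖l z‖ ^ 2) := by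
    intro z
    simp only [Fin.sum_univ_three, hGdef]
    simp
    ring
  -- the bound on smaller discs
  have hr : ∀ r : ℝ, 0 < r → r < 1 → ∀ z : ℂ, ‖z‖ ≤ r →
      (r ^ 2 - ‖z‖ ^ 2) ^ 2 * ∑ i, ‖G i z‖ ^ 2 ≤ 18 := by
    intro r hr0 hr1
    have hsub : closedBall (0:ℂ) r ⊆ ball 0 1 := closedBall_subset_ball hr1
    have hcont : ContinuousOn (fun z : ℂ => (r ^ 2 - ‖z‖ ^ 2) ^ 2 * ∑ i, ‖G i z‖ ^ 2) (closedBall 0 r) := by
      refine ContinuousOn.mul (by fun_prop) ?_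
      refine continuousOn_finsetSum _ fun i _ => ?_
      exact (((hG i).continuousOn.mono hsub).norm).pow 2
    obtain ⟨z0, hz0, hmax⟩ := (isCompact_closedBall (0:ℂ) r).exists_isMaxOn
      ⟨0, mem_closedBall_self hr0.le⟩ hcont
    have hz0' : ‖z0‖ ≤ r := by simpa using hz0
    intro z hz
    have hzle := hmax (show z ∈ closedBall (0:ℂ) r by simpa using hz)
    refine le_trans hzle ?_
    rcases eq_or_lt_of_le hz0' with heq | hlt
    · change (r ^ 2 - ‖z0‖ ^ 2) ^ 2 * ∑ i, ‖G i z0‖ ^ 2 ≤ 18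
      rw [heq]; simp
    · have hR : 0 < r ^ 2 - ‖z0‖ ^ 2 := by
        have := norm_nonneg z0
        nlinarith
      have hz1 : z0 ∈ ball (0:ℂ) 1 := by simp; linarith
      have hloc : IsLocalMax (fun z : ℂ => (r ^ 2 - ‖z‖ ^ 2) ^ 2 * ∑ i, ‖G i z‖ ^ 2) z0 := by
        refine hmax.isLocalMax ?_
        refine mem_of_superset (isOpen_ball.mem_nhds (show z0 ∈ ball (0:ℂ) r by simpa using hlt)) ball_subset_closedBall
      have key := max_conditions hG hz1 hR hloc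
      change (r ^ 2 - ‖z0‖ ^ 2) ^ 2 * ∑ i, ‖G i z0‖ ^ 2 ≤ 18
      set R := r ^ 2 - ‖z0‖ ^ 2 with hRdef
      rw [lagrange3 (fun i => G i z0) (fun i => deriv (G i) z0)] at key
      -- derivatives
      have nh := isOpen_ball.mem_nhds hz1
      have dq := (hqd.differentiableAt nh).hasDerivAt
      have dk := (hk.differentiableAt nh).hasDerivAt
      have dl := (hl.differentiableAt nh).hasDerivAt
      have hl1 := hl0 z0 hz1
      have h1 := hkl z0 hz1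
      have hqk : deriv k z0 = l z0 ^ 3 * q z0 := by
        rw [hq]; field_simp
      have hql : deriv l z0 = k z0 ^ 3 * q z0 := by
        have hd : HasDerivAt (fun z => k z ^ 4 - l z ^ 4) (4 * k z0 ^ 3 * deriv k z0 - 4 * l z0 ^ 3 * deriv l z0) z0 := by
          refine ((dk.pow 4).sub (dl.pow 4)).congr_deriv ?_
          simp
        have hc : (fun z => k z ^ 4 - l z ^ 4) =ᶠ[𝓝 z0] fun _ => 1 := by
          filter_upwards [nh] with w hw using hkl w hw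
        have h0 : (4 * k z0 ^ 3 * deriv k z0 - 4 * l z0 ^ 3 * deriv l z0) = 0 := by
          rw [← hd.deriv, hc.deriv_eq]; simp
        have h5 : l z0 ^ 3 * deriv l z0 = l z0 ^ 3 * (k z0 ^ 3 * q z0) := by
          rw [hqk] at h0
          linear_combination (-1/4 : ℂ) * h0
        exact mul_left_cancel₀ (pow_ne_zero 3 hl1) h5
      have g0 : G 0 z0 = q z0 := rfl
      have g1 : G 1 z0 = k z0 * q z0 := rfl
      have g2 : G 2 z0 = l z0 * q z0 := rfl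
      have d0 : deriv (G 0) z0 = deriv q z0 := rfl
      have d1 : deriv (G 1) z0 = deriv k z0 * q z0 + k z0 * deriv q z0 := (dk.mul dq).deriv
      have d2 : deriv (G 2) z0 = deriv l z0 * q z0 + l z0 * deriv q z0 := (dl.mul dq).deriv
      have e01 : G 0 z0 * deriv (G 1) z0 - G 1 z0 * deriv (G 0) z0 = q z0 ^ 3 * l z0 ^ 3 := by
        rw [g0, g1, d0, d1, hqk]; ring
      have e02 : G 0 z0 * deriv (G 2) z0 - G 2 z0 * deriv (G 0) z0 = q z0 ^ 3 * k z0 ^ 3 := by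
        rw [g0, g2, d0, d2, hql]; ring
      have e12 : G 1 z0 * deriv (G 2) z0 - G 2 z0 * deriv (G 1) z0 = q z0 ^ 3 := by
        rw [g1, g2, d1, d2, hql, hqk]
        linear_combination (q z0 ^ 3) * h1
      simp only [e01, e02, e12, norm_mul, norm_pow, hN] at key
      rw [hN]
      set Q := ‖q z0‖ ^ 2 with hQ
      set a := ‖k z0‖ ^ 2 with ha
      set b := ‖l z0‖ ^ 2 with hb
      have hQ0 : 0 ≤ Q := by positivity
      have ha0 : 0 ≤ a := by positivity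
      have hb0 : 0 ≤ b := by positivity
      have hcube := cube_ineq ha0 hb0
      have k1 : R ^ 2 * (Q ^ 3 * (1 + a ^ 3 + b ^ 3)) ≤ 2 * r ^ 2 * (Q * (1 + a + b)) ^ 2 := by
        refine le_trans (le_of_eq ?_) key
        rw [hQ, ha, hb]; ring
      have hr2 : r ^ 2 ≤ 1 := by nlinarith
      rcases hQ0.eq_or_lt with h0 | hpos
      · rw [← h0]; simp
      · have hs : 0 < 1 + a + b := by linarith
        have k2 : R ^ 2 * (Q * (1 + a + b)) ^ 3 ≤ 18 * (Q * (1 + a + b)) ^ 2 := by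
          calc R ^ 2 * (Q * (1 + a + b)) ^ 3 = R ^ 2 * (Q ^ 3 * (1 + a + b) ^ 3) := by ring
            _ ≤ R ^ 2 * (Q ^ 3 * (9 * (1 + a ^ 3 + b ^ 3))) := by gcongr
            _ = 9 * (R ^ 2 * (Q ^ 3 * (1 + a ^ 3 + b ^ 3))) := by ring
            _ ≤ 9 * (2 * r ^ 2 * (Q * (1 + a + b)) ^ 2) := by gcongr
            _ ≤ 9 * (2 * 1 * (Q * (1 + a + b)) ^ 2) := by gcongr
            _ = _ := by ring
        have hpos2 : 0 < (Q * (1 + a + b)) ^ 2 := by positivity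
        have k3 : (R ^ 2 * (Q * (1 + a + b))) * (Q * (1 + a + b)) ^ 2 ≤ 18 * (Q * (1 + a + b)) ^ 2 := by
          refine le_trans (le_of_eq ?_) k2
          ring
        exact le_of_mul_le_mul_right k3 hpos2
  -- let `r → 1`
  have hz1 : ‖z‖ < 1 := by simpa using hz
  have hlim : Tendsto (fun r : ℝ => (r ^ 2 - ‖z‖ ^ 2) ^ 2 * ∑ i, ‖G i z‖ ^ 2) (𝓝[<] 1)
      (𝓝 ((1 ^ 2 - ‖z‖ ^ 2) ^ 2 * ∑ i, ‖G i z‖ ^ 2)) := by
    have : Continuous (fun r : ℝ => (r ^ 2 - ‖z‖ ^ 2) ^ 2 * ∑ i, ‖G i z‖ ^ 2) := by fun_prop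
    exact this.continuousAt.tendsto.mono_left nhdsWithin_le_nhds
  have hev : ∀ᶠ r : ℝ in 𝓝[<] 1, (r ^ 2 - ‖z‖ ^ 2) ^ 2 * ∑ i, ‖G i z‖ ^ 2 ≤ 18 := by
    have h1 : ∀ᶠ r : ℝ in 𝓝[<] 1, max ‖z‖ (1/2) < r :=
      mem_nhdsWithin_of_mem_nhds (Ioi_mem_nhds (max_lt hz1 (by norm_num)))
    filter_upwards [h1, self_mem_nhdsWithin] with r h2 h3
    have h4 := le_max_left ‖z‖ (1/2)
    have h5 := le_max_right ‖z‖ (1/2)
    exact hr r (by linarith) h3 z (by linarith)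
  have := le_of_tendsto hlim hev
  rw [hN, one_pow] at this
  exact this

/-- explicit Landau type estimate for functions omitting two values -/
theorem landau {f : ℂ → ℂ} {α β : ℂ} (hf : DifferentiableOn ℂ f (ball 0 1)) (hαβ : α ≠ β)
    (hα : ∀ z ∈ ball (0:ℂ) 1, f z ≠ α) (hβ : ∀ z ∈ ball (0:ℂ) 1, f z ≠ β) {z : ℂ}
    (hz : z ∈ ball (0:ℂ) 1) :
    (‖deriv f z‖ * (1 - ‖z‖ ^ 2)) ^ 4 * ‖β - α‖ ^ 2
      ≤ 82944 * (‖f z - α‖ ^ 3 * ‖f z - β‖ ^ 3) := by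
  have hba : β - α ≠ 0 := sub_ne_zero.mpr hαβ.symm
  have hg1 : DifferentiableOn ℂ (fun z => (f z - α) / (β - α)) (ball 0 1) := (hf.sub_const α).div_const _
  have hg2 : DifferentiableOn ℂ (fun z => (f z - β) / (β - α)) (ball 0 1) := (hf.sub_const β).div_const _
  obtain ⟨k, hk, hk4⟩ := exists_fourth_root hg1 fun z hz => div_ne_zero (sub_ne_zero.mpr (hα z hz)) hba
  obtain ⟨l, hl, hl4⟩ := exists_fourth_root hg2 fun z hz => div_ne_zero (sub_ne_zero.mpr (hβ z hz)) hba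
  have hl0 : ∀ z ∈ ball (0:ℂ) 1, l z ≠ 0 := by
    intro z hz h0
    have := hl4 z hz
    rw [h0] at this
    have h2 : (f z - β) / (β - α) ≠ 0 := div_ne_zero (sub_ne_zero.mpr (hβ z hz)) hba
    apply h2
    rw [← this]; simp
  have hkl : ∀ z ∈ ball (0:ℂ) 1, k z ^ 4 - l z ^ 4 = 1 := by
    intro z hz
    rw [hk4 z hz, hl4 z hz]
    field_simp
    ring
  have key := fermat_bound hk hl hl0 hkl hz
  have nh := isOpen_ball.mem_nhds hz
  have dk := (hk.differentiableAt nh).hasDerivAt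
  have hfk : f =ᶠ[𝓝 z] fun z => α + (β - α) * k z ^ 4 := by
    filter_upwards [nh] with w hw
    rw [hk4 w hw]
    field_simp
    ring
  have hdf : deriv f z = (β - α) * (4 * k z ^ 3 * deriv k z) := by
    rw [hfk.deriv_eq]
    have : HasDerivAt (fun z => α + (β - α) * k z ^ 4) ((β - α) * (4 * k z ^ 3 * deriv k z)) z := by
      refine (((dk.pow 4).const_mul (β - α)).const_add α).congr_deriv ?_
      simp
    exact this.deriv
  set q := deriv k z / l z ^ 3 with hq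
  have hqk : deriv k z = l z ^ 3 * q := by
    rw [hq]
    have := hl0 z hz
    field_simp
  have hz1 : ‖z‖ < 1 := by simpa using hz
  have hz2 : 0 ≤ 1 - ‖z‖ ^ 2 := by
    have := norm_nonneg z
    nlinarith
  have hQ : (1 - ‖z‖ ^ 2) ^ 2 * ‖q‖ ^ 2 ≤ 18 := by
    refine le_trans ?_ key
    have h1 : (1:ℝ) ≤ 1 + ‖k z‖ ^ 2 + ‖l z‖ ^ 2 := by nlinarith [sq_nonneg ‖k z‖, sq_nonneg ‖l z‖]
    calc (1 - ‖z‖ ^ 2) ^ 2 * ‖q‖ ^ 2 = (1 - ‖z‖ ^ 2) ^ 2 * (‖q‖ ^ 2 * 1) := by ring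
      _ ≤ _ := by gcongr
  have hfa : ‖f z - α‖ = ‖β - α‖ * ‖k z‖ ^ 4 := by
    rw [← norm_pow, hk4 z hz, ← norm_mul]
    congr 1
    field_simp
  have hfb : ‖f z - β‖ = ‖β - α‖ * ‖l z‖ ^ 4 := by
    rw [← norm_pow, hl4 z hz, ← norm_mul]
    congr 1
    field_simp
  rw [hfa, hfb, hdf, hqk]
  simp only [norm_mul, norm_pow]
  have h4 : ‖(4:ℂ)‖ = 4 := by simp
  rw [h4]
  have hQ2 : ((1 - ‖z‖ ^ 2) ^ 2 * ‖q‖ ^ 2) ^ 2 ≤ 18 ^ 2 := by
    have : 0 ≤ (1 - ‖z‖ ^ 2) ^ 2 * ‖q‖ ^ 2 := by positivity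
    gcongr
  have hM : 0 ≤ 256 * ‖β - α‖ ^ 6 * ‖k z‖ ^ 12 * ‖l z‖ ^ 12 := by positivity
  calc (‖β - α‖ * (4 * ‖k z‖ ^ 3 * (‖l z‖ ^ 3 * ‖q‖)) * (1 - ‖z‖ ^ 2)) ^ 4 * ‖β - α‖ ^ 2
      = (256 * ‖β - α‖ ^ 6 * ‖k z‖ ^ 12 * ‖l z‖ ^ 12) * ((1 - ‖z‖ ^ 2) ^ 2 * ‖q‖ ^ 2) ^ 2 := by ring
    _ ≤ (256 * ‖β - α‖ ^ 6 * ‖k z‖ ^ 12 * ‖l z‖ ^ 12) * 18 ^ 2 := by gcongr
    _ = _ := by ring

end Pool.Agent.Lib.MP_6ad5de_an
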