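import Mathlib

open Metric Complex Filter Topology MeasureTheory

namespace Pool.Agent.Lib.MP_6ad5de_an

/-- `v ↦ Re (v/w)` -/
noncomputable def XL (w : ℂ) : ℂ →L[ℝ] ℝ := Complex.reCLM.comp ((ContinuousLinearMap.mul ℝ ℂ) w⁻¹)

/-- `v ↦ Im (v/w)` -/
noncomputable def YL (w : ℂ) : ℂ →L[ℝ] ℝ := Complex.imCLM.comp ((ContinuousLinearMap.mul ℝ ℂ) w⁻¹)

@[simp] lemma XL_apply (w v : ℂ) : XL w v = (w⁻¹ * v).re := rfl
@[simp] lemma YL_apply (w v : ℂ) : YL w v = (w⁻¹ * v).im := rfl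

lemma hasFDerivAt_log_norm {w : ℂ} (hw : w ≠ 0) :
    HasFDerivAt (fun z : ℂ => Real.log ‖z‖) (XL w) w := by
  have h0 : 0 < ‖w‖ := norm_pos_iff.mpr hw
  have h1 : HasFDerivAt (fun z : ℂ => ‖z‖ ^ 2) (2 • innerSL ℝ w) w := by
    simpa using (hasFDerivAt_id w).norm_sq
  have h2 : HasFDerivAt (fun z : ℂ => Real.log (‖z‖ ^ 2)) _ w :=
    h1.log (by positivity)
  have h3 := h2.const_mul (1 / 2 : ℝ)
  have e : (fun z : ℂ => Real.log ‖z‖) = fun z : ℂ => (1 / 2 : ℝ) * Real.log (‖z‖ ^ 2) := by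
    ext z
    rw [Real.log_pow]
    push_cast
    ring
  rw [e]
  refine h3.congr_fderiv ?_
  ext v
  simp only [smul_apply, smul_eq_mul, XL_apply, innerSL_apply_apply, Complex.inner]
  rw [Complex.inv_def, ← Complex.normSq_eq_norm_sq]
  simp
  ring

lemma contDiffAt_log_norm {w : ℂ} (hw : w ≠ 0) : ContDiffAt ℝ ⊤ (fun z : ℂ => Real.log ‖z‖) w := by
  have h0 : 0 < ‖w‖ := norm_pos_iff.mpr hw
  exact (Real.contDiffAt_log.mpr h0.ne').comp w (contDiffAt_norm ℝ hw)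

/-- divergence theorem for compactly supported functions, in complex notation -/
lemma stokes {b : ℂ → ℂ} (hb : ContDiff ℝ 1 b) (hc : HasCompactSupport b) :
    Integrable (fun z => fderiv ℝ b z 1 + I * fderiv ℝ b z I) ∧
    ∫ z, (fderiv ℝ b z 1 + I * fderiv ℝ b z I) = 0 := by
  have hcont : Continuous (fderiv ℝ b) := hb.continuous_fderiv (by norm_num)
  have hi : ∀ v, Integrable (fun z => fderiv ℝ b z v) := fun v =>
    (hcont.clm_apply continuous_const).integrable_of_hasCompactSupport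
      ((hc.fderiv (𝕜 := ℝ)).comp_left (g := fun L : ℂ →L[ℝ] ℂ => L v) (by simp))
  have hz : ∀ v, ∫ z, fderiv ℝ b z v = 0 := by
    intro v
    have h := integral_mul_fderiv_eq_neg_fderiv_mul_of_integrable (μ := (volume : Measure ℂ))
      (f := fun _ : ℂ => (1:ℂ)) (g := b) (v := v) (by simp)
      (by simpa using hi v) (by simpa using hb.continuous.integrable_of_hasCompactSupport hc)
      (fun x _ => by fun_prop) (fun x _ => (hb.differentiable (by norm_num)) x)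
    simpa using h
  refine ⟨(hi 1).add ((hi I).const_mul I), ?_⟩
  rw [integral_add (hi 1) ((hi I).const_mul I), integral_const_mul, hz, hz]
  simp

section
variable {f : ℂ → ℂ} {R0 d : ℝ} {G : ℝ → ℝ} {F A B : ℂ → ℝ}

/-- the trichotomy used for the functions `G(-log|z|) F(f z)` -/
lemma tri (hf : DifferentiableOn ℂ f (ball 0 1)) (hR0 : 0 < R0)
    (hsm : ∀ z : ℂ, ‖z‖ ≤ 1 / 2 → ‖f z‖ < R0) (hd : 0 < d) (z : ℂ) :
    (∀ᶠ w in 𝓝 z, -Real.log ‖w‖ < d) ∨ (z ∈ ball (0:ℂ) 1 ∧ ‖f z‖ < R0 ∧ ∀ᶠ w in 𝓝 z, ‖f w‖ < R0) ∨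
      (z ∈ ball (0:ℂ) 1 ∧ z ≠ 0 ∧ R0 ≤ ‖f z‖ ∧ f z ≠ 0) := by
  by_cases hz : z ∈ ball (0:ℂ) 1
  · right
    by_cases h : ‖f z‖ < R0
    · left
      refine ⟨hz, h, ?_⟩
      have hc : ContinuousAt f z := (hf.differentiableAt (isOpen_ball.mem_nhds hz)).continuousAt
      exact hc.norm.eventually (Iio_mem_nhds h)
    · right
      push Not at h
      refine ⟨hz, ?_, h, ?_⟩
      · rintro rfl
        have := hsm 0 (by simp)
        linarith
      · intro h0
        rw [h0] at h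
        simp at h
        linarith
  · left
    have h1 : 1 ≤ ‖z‖ := by simpa using hz
    have hz0 : z ≠ 0 := by
      rintro rfl
      simp at h1
      linarith
    have hc : ContinuousAt (fun w : ℂ => -Real.log ‖w‖) z :=
      (hasFDerivAt_log_norm hz0).continuousAt.neg
    refine hc.eventually (Iio_mem_nhds ?_)
    have := Real.log_nonneg h1
    linarith

lemma deriv_zero_of {G : ℝ → ℝ} (hG0 : ∀ L ≤ d, G L = 0) {L : ℝ} (hL : L < d) : deriv G L = 0 := by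
  have : G =ᶠ[𝓝 L] fun _ => 0 := by
    filter_upwards [Iio_mem_nhds hL] with t ht using hG0 t (le_of_lt ht)
  rw [this.deriv_eq]; simp

/-- support of functions of the form `g(-log|z|) * …` -/
lemma hcs {E : Type*} [NormedAddCommGroup E] {u : ℂ → E} (hd : 0 < d)
    (h : ∀ z : ℂ, -Real.log ‖z‖ ≤ d → u z = 0) : HasCompactSupport u := by
  refine HasCompactSupport.intro (isCompact_closedBall (0:ℂ) 1) ?_
  intro z hz
  have h1 : 1 < ‖z‖ := by simpa using hz
  refine h z ?_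
  have := Real.log_pos h1
  linarith

/-- the master identity -/
lemma master (hf : DifferentiableOn ℂ f (ball 0 1)) (hR0 : 0 < R0)
    (hsm : ∀ z : ℂ, ‖z‖ ≤ 1 / 2 → ‖f z‖ < R0) (hd : 0 < d)
    (hG : ContDiff ℝ 1 G) (hG0 : ∀ L ≤ d, G L = 0)
    (hF : ∀ w : ℂ, w ≠ 0 → ContDiffAt ℝ 1 F w)
    (hF' : ∀ w : ℂ, w ≠ 0 → HasFDerivAt F (A w • XL w + B w • YL w) w)
    (hF0 : ∀ w : ℂ, ‖w‖ < R0 → F w = 0) (hA0 : ∀ w : ℂ, ‖w‖ < R0 → A w = 0)
    (hB0 : ∀ w : ℂ, ‖w‖ < R0 → B w = 0)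
    {h : ℂ → ℂ} (hh : ∀ z ∈ ball (0:ℂ) 1, z ≠ 0 → f z ≠ 0 → AnalyticAt ℂ h z) :
    Integrable (fun z => (((G (-Real.log ‖z‖) : ℝ) : ℂ) * ((A (f z) : ℂ) + I * (B (f z) : ℂ)) * (starRingEnd ℂ) (deriv f z / f z)
      - ((deriv G (-Real.log ‖z‖) : ℝ) : ℂ) * (F (f z) : ℂ) * (starRingEnd ℂ) (1 / z)) * h z) ∧
    ∫ z, (((G (-Real.log ‖z‖) : ℝ) : ℂ) * ((A (f z) : ℂ) + I * (B (f z) : ℂ)) * (starRingEnd ℂ) (deriv f z / f z)
      - ((deriv G (-Real.log ‖z‖) : ℝ) : ℂ) * (F (f z) : ℂ) * (starRingEnd ℂ) (1 / z)) * h z = 0 := by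
  set b : ℂ → ℂ := fun z => ((G (-Real.log ‖z‖) * F (f z) : ℝ) : ℂ) * h z with hb
  have key : ∀ z, ContDiffAt ℝ 1 b z ∧ fderiv ℝ b z 1 + I * fderiv ℝ b z I =
      (((G (-Real.log ‖z‖) : ℝ) : ℂ) * ((A (f z) : ℂ) + I * (B (f z) : ℂ)) * (starRingEnd ℂ) (deriv f z / f z)
      - ((deriv G (-Real.log ‖z‖) : ℝ) : ℂ) * (F (f z) : ℂ) * (starRingEnd ℂ) (1 / z)) * h z := by
    intro z
    rcases tri hf hR0 hsm hd z with h1 | ⟨hz, h2, h3⟩ | ⟨hz, hz0, h4, hfz⟩
    · have hev : b =ᶠ[𝓝 z] fun _ => 0 := by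
        filter_upwards [h1] with w hw
        simp [hb, hG0 _ hw.le]
      refine ⟨contDiffAt_const.congr_of_eventuallyEq hev, ?_⟩
      rw [hev.fderiv_eq, hG0 _ h1.self_of_nhds.le, deriv_zero_of hG0 h1.self_of_nhds]
      simp
    · have hev : b =ᶠ[𝓝 z] fun _ => 0 := by
        filter_upwards [h3] with w hw
        simp [hb, hF0 _ hw]
      refine ⟨contDiffAt_const.congr_of_eventuallyEq hev, ?_⟩
      rw [hev.fderiv_eq, hF0 _ h2, hA0 _ h2, hB0 _ h2]
      simp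
    · have hfa : AnalyticAt ℂ f z := hf.analyticAt (isOpen_ball.mem_nhds hz)
      have hha := hh z hz hz0 hfz
      have hfR : ContDiffAt ℝ 1 f z := (hfa.contDiffAt (n := 1)).restrict_scalars ℝ
      have hhR : ContDiffAt ℝ 1 h z := (hha.contDiffAt (n := 1)).restrict_scalars ℝ
      have hL : ContDiffAt ℝ 1 (fun w : ℂ => -Real.log ‖w‖) z := ((contDiffAt_log_norm hz0).of_le le_top).neg
      have ha : ContDiffAt ℝ 1 (fun z => G (-Real.log ‖z‖) * F (f z)) z :=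
        ((hG.contDiffAt).comp z hL).mul ((hF (f z) hfz).comp z hfR)
      constructor
      · exact (Complex.ofRealCLM.contDiff.contDiffAt.comp z ha).mul hhR
      · have d1 : HasFDerivAt (fun w : ℂ => -Real.log ‖w‖) (-XL z) z := (hasFDerivAt_log_norm hz0).neg
        have d2 : HasFDerivAt (fun w : ℂ => G (-Real.log ‖w‖)) (deriv G (-Real.log ‖z‖) • (-XL z)) z :=
          ((hG.differentiable (by norm_num)) _).hasDerivAt.comp_hasFDerivAt z d1
        have d3 : HasFDerivAt f ((ContinuousLinearMap.toSpanSingleton ℂ (deriv f z)).restrictScalars ℝ) z :=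
          hfa.differentiableAt.hasDerivAt.hasFDerivAt.restrictScalars ℝ
        have d4 : HasFDerivAt (fun w => F (f w)) _ z := HasFDerivAt.comp z (hF' (f z) hfz) d3
        have d5 := d2.mul d4
        have d6 : HasFDerivAt (fun z => ((G (-Real.log ‖z‖) * F (f z) : ℝ) : ℂ)) _ z :=
          Complex.ofRealCLM.hasFDerivAt.comp z d5
        have d7 : HasFDerivAt h ((ContinuousLinearMap.toSpanSingleton ℂ (deriv h z)).restrictScalars ℝ) z :=
          hha.differentiableAt.hasDerivAt.hasFDerivAt.restrictScalars ℝ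
        have d8 : HasFDerivAt b _ z := d6.mul d7
        rw [d8.fderiv]
        have e1 : deriv f z / f z = (f z)⁻¹ * deriv f z := by rw [div_eq_mul_inv, mul_comm]
        rw [e1, one_div]
        simp only [add_apply, smul_apply, smul_eq_mul, ContinuousLinearMap.comp_apply,
          ContinuousLinearMap.coe_restrictScalars', ContinuousLinearMap.toSpanSingleton_apply,
          XL_apply, YL_apply, Complex.ofRealCLM_apply, neg_apply, mul_one, one_mul]
        generalize z⁻¹ = ρ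
        generalize (f z)⁻¹ = u
        generalize deriv f z = v
        apply Complex.ext
        · simp
          ring
        · simp
          ring
  have hbC : ContDiff ℝ 1 b := contDiff_iff_contDiffAt.mpr fun z => (key z).1
  have hcs' : HasCompactSupport b := by
    refine hcs hd (fun z hz => ?_)
    simp [hb, hG0 _ hz]
  have := stokes hbC hcs'
  have e : (fun z => fderiv ℝ b z 1 + I * fderiv ℝ b z I) = _ := funext fun z => (key z).2
  rwa [e] at this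

/-- integrability of the functions occurring in the identities -/
lemma integ (hf : DifferentiableOn ℂ f (ball 0 1)) (hR0 : 0 < R0)
    (hsm : ∀ z : ℂ, ‖z‖ ≤ 1 / 2 → ‖f z‖ < R0) (hd : 0 < d) {u : ℂ → ℝ}
    (ha : ∀ z : ℂ, -Real.log ‖z‖ ≤ d → u z = 0) (hb : ∀ z : ℂ, ‖f z‖ < R0 → u z = 0)
    (hc : ∀ z ∈ ball (0:ℂ) 1, z ≠ 0 → R0 ≤ ‖f z‖ → f z ≠ 0 → ContinuousAt u z) :
    Integrable u := by
  have hcont : Continuous u := by
    rw [continuous_iff_continuousAt]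
    intro z
    rcases tri hf hR0 hsm hd z with h1 | ⟨hz, h2, h3⟩ | ⟨hz, hz0, h4, hfz⟩
    · have hev : u =ᶠ[𝓝 z] fun _ => 0 := by
        filter_upwards [h1] with w hw using ha w hw.le
      exact continuousAt_const.congr hev.symm
    · have hev : u =ᶠ[𝓝 z] fun _ => 0 := by
        filter_upwards [h3] with w hw using hb w hw
      exact continuousAt_const.congr hev.symm
    · exact hc z hz hz0 h4 hfz
  exact hcont.integrable_of_hasCompactSupport (hcs hd ha)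

lemma analyticAt_sigma (hf : DifferentiableOn ℂ f (ball 0 1)) :
    ∀ z ∈ ball (0:ℂ) 1, z ≠ 0 → f z ≠ 0 → AnalyticAt ℂ (fun z => deriv f z / f z) z := by
  intro z hz _ hfz
  have hfa : AnalyticAt ℂ f z := hf.analyticAt (isOpen_ball.mem_nhds hz)
  exact hfa.deriv.div hfa hfz

lemma analyticAt_inv' : ∀ z ∈ ball (0:ℂ) 1, z ≠ 0 → f z ≠ 0 → AnalyticAt ℂ (fun z : ℂ => 1 / z) z := by
  intro z _ hz _
  exact analyticAt_const.div analyticAt_id hz

/-- master identity, `h = f'/f`, real and imaginary parts -/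
lemma master_sigma (hf : DifferentiableOn ℂ f (ball 0 1)) (hR0 : 0 < R0)
    (hsm : ∀ z : ℂ, ‖z‖ ≤ 1 / 2 → ‖f z‖ < R0) (hd : 0 < d)
    (hG : ContDiff ℝ 1 G) (hG0 : ∀ L ≤ d, G L = 0)
    (hF : ∀ w : ℂ, w ≠ 0 → ContDiffAt ℝ 1 F w)
    (hF' : ∀ w : ℂ, w ≠ 0 → HasFDerivAt F (A w • XL w + B w • YL w) w)
    (hF0 : ∀ w : ℂ, ‖w‖ < R0 → F w = 0) (hA0 : ∀ w : ℂ, ‖w‖ < R0 → A w = 0)
    (hB0 : ∀ w : ℂ, ‖w‖ < R0 → B w = 0) :
    (∫ z, (G (-Real.log ‖z‖) * A (f z) * ‖deriv f z / f z‖ ^ 2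
      - deriv G (-Real.log ‖z‖) * F (f z) * (deriv f z / f z * (starRingEnd ℂ) (1 / z)).re) = 0) ∧
    (∫ z, (G (-Real.log ‖z‖) * B (f z) * ‖deriv f z / f z‖ ^ 2
      - deriv G (-Real.log ‖z‖) * F (f z) * (deriv f z / f z * (starRingEnd ℂ) (1 / z)).im) = 0) := by
  obtain ⟨h1, h2⟩ := master hf hR0 hsm hd hG hG0 hF hF' hF0 hA0 hB0 (analyticAt_sigma hf)
  constructor
  · have h3 := Complex.reCLM.integral_comp_comm h1
    rw [h2, map_zero] at h3
    rw [← h3]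
    congr 1
    ext z
    rw [← Complex.normSq_eq_norm_sq]
    generalize deriv f z / f z = s
    generalize (1:ℂ) / z = r
    simp [Complex.normSq_apply]
    ring
  · have h3 := Complex.imCLM.integral_comp_comm h1
    rw [h2, map_zero] at h3
    rw [← h3]
    congr 1
    ext z
    rw [← Complex.normSq_eq_norm_sq]
    generalize deriv f z / f z = s
    generalize (1:ℂ) / z = r
    simp [Complex.normSq_apply]
    ring

/-- master identity, `h = 1/z`, real part, radial case -/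
lemma master_inv (hf : DifferentiableOn ℂ f (ball 0 1)) (hR0 : 0 < R0)
    (hsm : ∀ z : ℂ, ‖z‖ ≤ 1 / 2 → ‖f z‖ < R0) (hd : 0 < d)
    (hG : ContDiff ℝ 1 G) (hG0 : ∀ L ≤ d, G L = 0)
    (hF : ∀ w : ℂ, w ≠ 0 → ContDiffAt ℝ 1 F w)
    (hF' : ∀ w : ℂ, w ≠ 0 → HasFDerivAt F (A w • XL w) w)
    (hF0 : ∀ w : ℂ, ‖w‖ < R0 → F w = 0) (hA0 : ∀ w : ℂ, ‖w‖ < R0 → A w = 0) :
    (∫ z, (G (-Real.log ‖z‖) * A (f z) * (deriv f z / f z * (starRingEnd ℂ) (1 / z)).re
      - deriv G (-Real.log ‖z‖) * F (f z) * ‖1 / z‖ ^ 2) = 0) := by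
  obtain ⟨h1, h2⟩ := master (B := fun _ => 0) hf hR0 hsm hd hG hG0 hF (by simpa using hF') hF0 hA0
    (by simp) (analyticAt_inv' (f := f))
  have h3 := Complex.reCLM.integral_comp_comm h1
  rw [h2, map_zero] at h3
  rw [← h3]
  congr 1
  ext z
  rw [← Complex.normSq_eq_norm_sq]
  generalize deriv f z / f z = s
  generalize (1:ℂ) / z = r
  simp [Complex.normSq_apply]
  ring

end

end Pool.Agent.Lib.MP_6ad5de_an
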