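import Pool.Agent.Lib.MP_6ad5de_an.Fields
import Pool.Agent.Lib.MP_6ad5de_an.Stokes

open Filter Topology Set

namespace Pool.Agent.Lib.MP_6ad5de_an

/-- lifting an angular field to the punctured plane -/
lemma lift_field {p : ℝ → ℝ} {s : ℝ} (hs : 0 < s) (hp : ContDiff ℝ 1 p)
    (h1 : ∀ y ≤ -Real.pi + s, p y = 0) (h2 : ∀ y, Real.pi - s ≤ y → p y = 0) {γ : ℂ} (hγ : γ ≠ 0)
    {w : ℂ} (hw : w ≠ 0) :
    ContDiffAt ℝ 1 (fun w => p (Complex.arg (-w / γ))) w ∧
    ContinuousAt (fun w => deriv p (Complex.arg (-w / γ))) w ∧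
    HasFDerivAt (fun w => p (Complex.arg (-w / γ))) (deriv p (Complex.arg (-w / γ)) • YL w) w := by
  have hu : -w / γ ≠ 0 := div_ne_zero (neg_ne_zero.mpr hw) hγ
  by_cases hsl : -w / γ ∈ Complex.slitPlane
  · have hg : HasDerivAt (fun w : ℂ => -w / γ) (-1 / γ) w := (hasDerivAt_id w).neg.div_const γ
    have hlog : HasDerivAt (fun w : ℂ => Complex.log (-w / γ)) (w⁻¹) w := by
      refine (hg.clog hsl).congr_deriv ?_
      field_simp
    have hlogR : HasFDerivAt (fun w : ℂ => Complex.log (-w / γ))
        ((ContinuousLinearMap.toSpanSingleton ℂ (w⁻¹)).restrictScalars ℝ) w :=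
      hlog.hasFDerivAt.restrictScalars ℝ
    have e : (fun w : ℂ => Complex.arg (-w / γ)) = fun w => (Complex.log (-w / γ)).im := by
      ext w; rw [Complex.log_im]
    have harg : HasFDerivAt (fun w : ℂ => Complex.arg (-w / γ)) (YL w) w := by
      rw [e]
      have h3 : HasFDerivAt (fun w : ℂ => (Complex.log (-w / γ)).im) _ w :=
        Complex.imCLM.hasFDerivAt.comp w hlogR
      refine h3.congr_fderiv ?_
      ext v
      simp [mul_comm]
    have hcd : ContDiffAt ℝ 1 (fun w : ℂ => Complex.arg (-w / γ)) w := by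
      rw [e]
      have hc1 : ContDiffAt ℂ 1 (fun w : ℂ => Complex.log (-w / γ)) w := by
        have hg1 : ContDiffAt ℂ 1 (fun w : ℂ => -w / γ) w := by
          simp only [div_eq_mul_inv]
          exact contDiffAt_id.neg.mul contDiffAt_const
        exact (Complex.contDiffAt_log hsl).comp w hg1
      exact Complex.imCLM.contDiff.contDiffAt.comp w (hc1.restrict_scalars ℝ)
    refine ⟨hp.contDiffAt.comp w hcd, ?_, ?_⟩
    · exact ((hp.continuous_deriv (by norm_num)).continuousAt).comp harg.continuousAt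
    · exact ((hp.differentiable (by norm_num)) _).hasDerivAt.comp_hasFDerivAt w harg
  · rw [Complex.mem_slitPlane_iff] at hsl
    push Not at hsl
    obtain ⟨hre, him⟩ := hsl
    have hre' : (-w / γ).re < 0 := by
      refine lt_of_le_of_ne hre fun h => hu ?_
      exact Complex.ext h him
    have hev : ∀ᶠ u in 𝓝 (-w / γ), Complex.arg u < -Real.pi + s ∨ Real.pi - s < Complex.arg u := by
      have t1 := Complex.tendsto_arg_nhdsWithin_im_neg_of_re_neg_of_im_zero hre' him
      have t2 := Complex.tendsto_arg_nhdsWithin_im_nonneg_of_re_neg_of_im_zero hre' him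
      have e1 := t1.eventually (Iio_mem_nhds (show -Real.pi < -Real.pi + s by linarith))
      have e2 := t2.eventually (Ioi_mem_nhds (show Real.pi - s < Real.pi by linarith))
      rw [eventually_nhdsWithin_iff] at e1 e2
      filter_upwards [e1, e2] with u hu1 hu2
      rcases lt_or_ge u.im 0 with h | h
      · exact Or.inl (hu1 h)
      · exact Or.inr (hu2 h)
    have hcont : ContinuousAt (fun w : ℂ => -w / γ) w := by
      simp only [div_eq_mul_inv]
      exact (continuousAt_id.neg).mul continuousAt_const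
    have hev' := hcont.eventually hev
    have dz : ∀ y, (y < -Real.pi + s ∨ Real.pi - s < y) → p y = 0 ∧ deriv p y = 0 := by
      intro y hy
      rcases hy with hy | hy
      · refine ⟨h1 y hy.le, ?_⟩
        have : p =ᶠ[𝓝 y] fun _ => 0 := by
          filter_upwards [Iio_mem_nhds hy] with t ht using h1 t (le_of_lt ht)
        rw [this.deriv_eq]; simp
      · refine ⟨h2 y hy.le, ?_⟩
        have : p =ᶠ[𝓝 y] fun _ => 0 := by
          filter_upwards [Ioi_mem_nhds hy] with t ht using h2 t (le_of_lt ht)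
        rw [this.deriv_eq]; simp
    have z1 : (fun w => p (Complex.arg (-w / γ))) =ᶠ[𝓝 w] fun _ => 0 := by
      filter_upwards [hev'] with v hv using (dz _ hv).1
    have z2 : (fun w => deriv p (Complex.arg (-w / γ))) =ᶠ[𝓝 w] fun _ => 0 := by
      filter_upwards [hev'] with v hv using (dz _ hv).2
    have z2' : deriv p (Complex.arg (-w / γ)) = 0 := z2.self_of_nhds
    refine ⟨contDiffAt_const.congr_of_eventuallyEq z1, continuousAt_const.congr z2.symm, ?_⟩
    rw [z2', zero_smul]
    exact (hasFDerivAt_const (0:ℝ) w).congr_of_eventuallyEq z1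

end Pool.Agent.Lib.MP_6ad5de_an
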