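import Pool.Agent.Lib.MP_6ad5de_an.Stokes

open Metric Complex Filter Topology MeasureTheory

namespace Pool.Agent.Lib.MP_6ad5de_an

section
variable {f : ℂ → ℂ} {R0 d : ℝ}

/-- `log ‖·‖` at small points -/
lemma log_norm_le {R0 : ℝ} (hR1 : 1 ≤ R0) {w : ℂ} (hw : ‖w‖ < R0) : Real.log ‖w‖ ≤ Real.log R0 := by
  rcases eq_or_ne w 0 with rfl | h
  · simp; exact Real.log_nonneg hR1
  · exact Real.log_le_log (norm_pos_iff.mpr h) hw.le

lemma deriv_zero_le {φ : ℝ → ℝ} {x0 : ℝ} (hφ : Continuous (deriv φ)) (h0 : ∀ x ≤ x0, φ x = 0) :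
    ∀ x ≤ x0, deriv φ x = 0 := by
  have h1 : ∀ x < x0, deriv φ x = 0 := by
    intro x hx
    have : φ =ᶠ[𝓝 x] fun _ => 0 := by
      filter_upwards [Iio_mem_nhds hx] with t ht using h0 t (le_of_lt ht)
    rw [this.deriv_eq]; simp
  intro x hx
  have hcl : IsClosed {x | deriv φ x = 0} := isClosed_eq hφ continuous_const
  have hsub : closure (Set.Iio x0) ⊆ {x | deriv φ x = 0} :=
    closure_minimal (fun x hx => h1 x hx) hcl
  rw [closure_Iio] at hsub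
  exact hsub hx

lemma radial_hasFDerivAt {ψ : ℝ → ℝ} (hψ : ContDiff ℝ 1 ψ) {w : ℂ} (hw : w ≠ 0) :
    HasFDerivAt (fun w : ℂ => ψ (Real.log ‖w‖)) (deriv ψ (Real.log ‖w‖) • XL w) w :=
  ((hψ.differentiable (by norm_num)) _).hasDerivAt.comp_hasFDerivAt w (hasFDerivAt_log_norm hw)

lemma radial_contDiffAt {ψ : ℝ → ℝ} (hψ : ContDiff ℝ 1 ψ) {w : ℂ} (hw : w ≠ 0) :
    ContDiffAt ℝ 1 (fun w : ℂ => ψ (Real.log ‖w‖)) w :=
  (hψ.contDiffAt).comp w ((contDiffAt_log_norm hw).of_le le_top)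

/-- the main integral inequality -/
theorem main_ineq (hf : DifferentiableOn ℂ f (ball 0 1)) (hR1 : 1 ≤ R0)
    (hsm : ∀ z : ℂ, ‖z‖ ≤ 1 / 2 → ‖f z‖ < R0) (hd : 0 < d)
    {K : ℝ → ℝ} (hK : ContDiff ℝ 2 K) (hK0 : ∀ L ≤ d, K L = 0)
    {φ : ℝ → ℝ} (hφ : ContDiff ℝ 2 φ) (hφ0 : ∀ x ≤ Real.log R0, φ x = 0) (hφp : ∀ x, 0 ≤ φ x)
    {ι : Type*} (s : Finset ι) {g : ι → ℝ → ℝ} {P Q : ι → ℂ → ℝ} {η : ι → ℝ}
    (hg : ∀ j ∈ s, ContDiff ℝ 1 (g j)) (hg0 : ∀ j ∈ s, ∀ x, 0 ≤ g j x)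
    (hP : ∀ j ∈ s, ∀ w, w ≠ 0 → ContDiffAt ℝ 1 (P j) w)
    (hQ : ∀ j ∈ s, ∀ w, w ≠ 0 → ContinuousAt (Q j) w)
    (hP' : ∀ j ∈ s, ∀ w, w ≠ 0 → HasFDerivAt (P j) (Q j w • YL w) w)
    (hPW : ∀ j ∈ s, ∀ z ∈ ball (0:ℂ) 1, z ≠ 0 → R0 ≤ ‖f z‖ → f z ≠ 0 → d < -Real.log ‖z‖ →
      0 < g j (Real.log ‖f z‖) →
      K (-Real.log ‖z‖) * deriv K (-Real.log ‖z‖) * (deriv f z / f z * (starRingEnd ℂ) (1 / z)).re
        - 2 * (K (-Real.log ‖z‖) * deriv K (-Real.log ‖z‖)) * P j (f z) *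
          (deriv f z / f z * (starRingEnd ℂ) (1 / z)).im
        - K (-Real.log ‖z‖) ^ 2 * ‖deriv f z / f z‖ ^ 2 * (η j - Q j (f z))
        ≤ deriv K (-Real.log ‖z‖) ^ 2 * ‖1 / z‖ ^ 2)
    (hpart : ∀ z ∈ ball (0:ℂ) 1, R0 ≤ ‖f z‖ → d < -Real.log ‖z‖ → ∑ j ∈ s, g j (Real.log ‖f z‖) = 1) :
    Integrable (fun z : ℂ => 2 * (K (-Real.log ‖z‖) * deriv (deriv K) (-Real.log ‖z‖)) *
      φ (Real.log ‖f z‖) * ‖1 / z‖ ^ 2) ∧
    Integrable (fun z : ℂ => K (-Real.log ‖z‖) ^ 2 * ‖deriv f z / f z‖ ^ 2 *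
      (deriv (deriv φ) (Real.log ‖f z‖) - deriv φ (Real.log ‖f z‖)
        + 2 * (∑ j ∈ s, η j * g j (Real.log ‖f z‖)) * φ (Real.log ‖f z‖))) ∧
    ∫ z, 2 * (K (-Real.log ‖z‖) * deriv (deriv K) (-Real.log ‖z‖)) * φ (Real.log ‖f z‖) * ‖1 / z‖ ^ 2 ≤
    ∫ z, K (-Real.log ‖z‖) ^ 2 * ‖deriv f z / f z‖ ^ 2 *
      (deriv (deriv φ) (Real.log ‖f z‖) - deriv φ (Real.log ‖f z‖)
        + 2 * (∑ j ∈ s, η j * g j (Real.log ‖f z‖)) * φ (Real.log ‖f z‖)) := by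
  have hR0 : 0 < R0 := by linarith
  -- regularity of `K`
  have hK1 : ContDiff ℝ 1 (deriv K) := by
    have : ContDiff ℝ (1 + 1) K := by norm_num; exact hK
    exact (contDiff_succ_iff_deriv.mp this).2.2
  have hKc : Continuous K := hK.continuous
  have hK1c : Continuous (deriv K) := hK1.continuous
  have hK2c : Continuous (deriv (deriv K)) := hK1.continuous_deriv (by norm_num)
  have hK10 : ∀ L ≤ d, deriv K L = 0 := deriv_zero_le hK1c hK0
  have hφ1 : ContDiff ℝ 1 (deriv φ) := by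
    have : ContDiff ℝ (1 + 1) φ := by norm_num; exact hφ
    exact (contDiff_succ_iff_deriv.mp this).2.2
  have hφc : Continuous φ := hφ.continuous
  have hφ1c : Continuous (deriv φ) := hφ1.continuous
  have hφ2c : Continuous (deriv (deriv φ)) := hφ1.continuous_deriv (by norm_num)
  have hφ10 : ∀ x ≤ Real.log R0, deriv φ x = 0 := deriv_zero_le hφ1c hφ0
  have hφ20 : ∀ x ≤ Real.log R0, deriv (deriv φ) x = 0 := deriv_zero_le hφ2c hφ10
  have hKd : ∀ L, HasDerivAt K (deriv K L) L := fun L => (hK.differentiable (by norm_num) L).hasDerivAt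
  have hK1d : ∀ L, HasDerivAt (deriv K) (deriv (deriv K) L) L := fun L =>
    (hK1.differentiable (by norm_num) L).hasDerivAt
  have hG1 : ContDiff ℝ 1 (fun L => K L ^ 2) := (hK.of_le (by norm_num)).pow 2
  have hG1d : ∀ L, deriv (fun L => K L ^ 2) L = 2 * (K L * deriv K L) := by
    intro L
    have h : HasDerivAt (fun L => K L ^ 2) _ L := (hKd L).pow 2
    rw [h.deriv]; simp; ring
  have hG2 : ContDiff ℝ 1 (fun L => 2 * (K L * deriv K L)) :=
    contDiff_const.mul ((hK.of_le (by norm_num)).mul hK1)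
  have hG2d : ∀ L, deriv (fun L => 2 * (K L * deriv K L)) L = 2 * (deriv K L ^ 2 + K L * deriv (deriv K) L) := by
    intro L
    have h : HasDerivAt (fun L => 2 * (K L * deriv K L)) _ L := ((hKd L).mul (hK1d L)).const_mul 2
    rw [h.deriv]; ring
  -- the identities
  have I1 := (master_sigma (G := fun L => K L ^ 2) (F := fun w => deriv φ (Real.log ‖w‖))
    (A := fun w => deriv (deriv φ) (Real.log ‖w‖)) (B := fun _ => 0) hf hR0 hsm hd hG1
    (fun L hL => by simp [hK0 L hL]) (fun w hw => radial_contDiffAt hφ1 hw)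
    (fun w hw => by simpa using radial_hasFDerivAt hφ1 hw)
    (fun w hw => hφ10 _ (log_norm_le hR1 hw)) (fun w hw => hφ20 _ (log_norm_le hR1 hw))
    (fun w hw => rfl)).1
  have I2 := master_inv (G := fun L => 2 * (K L * deriv K L)) (F := fun w => φ (Real.log ‖w‖))
    (A := fun w => deriv φ (Real.log ‖w‖)) hf hR0 hsm hd hG2
    (fun L hL => by simp [hK0 L hL]) (fun w hw => radial_contDiffAt (hφ.of_le (by norm_num)) hw)
    (fun w hw => radial_hasFDerivAt (hφ.of_le (by norm_num)) hw)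
    (fun w hw => hφ0 _ (log_norm_le hR1 hw)) (fun w hw => hφ10 _ (log_norm_le hR1 hw))
  have I3 := (master_sigma (G := fun L => K L ^ 2) (F := fun w => φ (Real.log ‖w‖))
    (A := fun w => deriv φ (Real.log ‖w‖)) (B := fun _ => 0) hf hR0 hsm hd hG1
    (fun L hL => by simp [hK0 L hL]) (fun w hw => radial_contDiffAt (hφ.of_le (by norm_num)) hw)
    (fun w hw => by simpa using radial_hasFDerivAt (hφ.of_le (by norm_num)) hw)
    (fun w hw => hφ0 _ (log_norm_le hR1 hw)) (fun w hw => hφ10 _ (log_norm_le hR1 hw))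
    (fun w hw => rfl)).1
  have I4 : ∀ j ∈ s, _ := fun j hj => (master_sigma (G := fun L => K L ^ 2)
    (F := fun w => φ (Real.log ‖w‖) * g j (Real.log ‖w‖) * P j w)
    (A := fun w => (deriv φ (Real.log ‖w‖) * g j (Real.log ‖w‖) +
      φ (Real.log ‖w‖) * deriv (g j) (Real.log ‖w‖)) * P j w)
    (B := fun w => φ (Real.log ‖w‖) * g j (Real.log ‖w‖) * Q j w) hf hR0 hsm hd hG1
    (fun L hL => by simp [hK0 L hL])
    (fun w hw => ((radial_contDiffAt (hφ.of_le (by norm_num)) hw).mul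
      (radial_contDiffAt (hg j hj) hw)).mul (hP j hj w hw))
    (fun w hw => by
      have h1 := ((radial_hasFDerivAt (hφ.of_le (by norm_num)) hw).mul
        (radial_hasFDerivAt (hg j hj) hw)).mul (hP' j hj w hw)
      refine h1.congr_fderiv ?_
      ext v
      simp
      ring)
    (fun w hw => by simp [hφ0 _ (log_norm_le hR1 hw)])
    (fun w hw => by simp [hφ0 _ (log_norm_le hR1 hw), hφ10 _ (log_norm_le hR1 hw)])
    (fun w hw => by simp [hφ0 _ (log_norm_le hR1 hw)])).2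
  simp only [hG1d, hG2d] at I1 I2 I3 I4
  -- continuity
  have cL : ∀ z : ℂ, z ≠ 0 → ContinuousAt (fun z : ℂ => -Real.log ‖z‖) z := fun z hz =>
    (hasFDerivAt_log_norm hz).continuousAt.neg
  have cf : ∀ z ∈ ball (0:ℂ) 1, ContinuousAt f z := fun z hz =>
    (hf.differentiableAt (isOpen_ball.mem_nhds hz)).continuousAt
  have cX : ∀ z ∈ ball (0:ℂ) 1, f z ≠ 0 → ContinuousAt (fun z : ℂ => Real.log ‖f z‖) z := fun z hz h0 =>
    (cf z hz).norm.log (norm_ne_zero_iff.mpr h0)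
  have cS : ∀ z ∈ ball (0:ℂ) 1, z ≠ 0 → f z ≠ 0 → ContinuousAt (fun z : ℂ => deriv f z / f z) z :=
    fun z hz hz0 h0 => (analyticAt_sigma hf z hz hz0 h0).continuousAt
  have cI : ∀ z : ℂ, z ≠ 0 → ContinuousAt (fun z : ℂ => 1 / z) z := fun z hz =>
    continuousAt_const.div continuousAt_id hz
  have cT : ∀ z ∈ ball (0:ℂ) 1, z ≠ 0 → f z ≠ 0 →
      ContinuousAt (fun z : ℂ => deriv f z / f z * (starRingEnd ℂ) (1 / z)) z :=
    fun z hz hz0 h0 => (cS z hz hz0 h0).mul (Complex.continuous_conj.continuousAt.comp (cI z hz0))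
  have cRe : ∀ z ∈ ball (0:ℂ) 1, z ≠ 0 → f z ≠ 0 →
      ContinuousAt (fun z : ℂ => (deriv f z / f z * (starRingEnd ℂ) (1 / z)).re) z :=
    fun z hz hz0 h0 => Complex.continuous_re.continuousAt.comp (cT z hz hz0 h0)
  have cIm : ∀ z ∈ ball (0:ℂ) 1, z ≠ 0 → f z ≠ 0 →
      ContinuousAt (fun z : ℂ => (deriv f z / f z * (starRingEnd ℂ) (1 / z)).im) z :=
    fun z hz hz0 h0 => Complex.continuous_im.continuousAt.comp (cT z hz hz0 h0)
  have cr : ∀ (ψ : ℝ → ℝ), Continuous ψ → ∀ z ∈ ball (0:ℂ) 1, f z ≠ 0 →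
      ContinuousAt (fun z : ℂ => ψ (Real.log ‖f z‖)) z := fun ψ hψ z hz h0 =>
    hψ.continuousAt.comp (cX z hz h0)
  have cl : ∀ (ψ : ℝ → ℝ), Continuous ψ → ∀ z : ℂ, z ≠ 0 →
      ContinuousAt (fun z : ℂ => ψ (-Real.log ‖z‖)) z := fun ψ hψ z hz =>
    hψ.continuousAt.comp (cL z hz)
  have cP : ∀ j ∈ s, ∀ z ∈ ball (0:ℂ) 1, f z ≠ 0 → ContinuousAt (fun z : ℂ => P j (f z)) z :=
    fun j hj z hz h0 => (hP j hj _ h0).continuousAt.comp (cf z hz)
  have cQ : ∀ j ∈ s, ∀ z ∈ ball (0:ℂ) 1, f z ≠ 0 → ContinuousAt (fun z : ℂ => Q j (f z)) z :=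
    fun j hj z hz h0 => ContinuousAt.comp (g := Q j) (hQ j hj _ h0) (cf z hz)
  have gc : ∀ j ∈ s, Continuous (g j) := fun j hj => (hg j hj).continuous
  -- integrable differences
  have J1 : Integrable (fun z : ℂ => K (-Real.log ‖z‖) ^ 2 * deriv (deriv φ) (Real.log ‖f z‖) *
      ‖deriv f z / f z‖ ^ 2 - 2 * (K (-Real.log ‖z‖) * deriv K (-Real.log ‖z‖)) *
      deriv φ (Real.log ‖f z‖) * (deriv f z / f z * (starRingEnd ℂ) (1 / z)).re) := by
    refine integ hf hR0 hsm hd (fun z hz => by simp [hK0 _ hz])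
      (fun z hz => by simp [hφ10 _ (log_norm_le hR1 hz), hφ20 _ (log_norm_le hR1 hz)]) ?_
    intro z hz hz0 _ h0
    exact (((cl (fun L => K L ^ 2) (hKc.pow 2) z hz0).mul (cr _ hφ2c z hz h0)).mul
      ((cS z hz hz0 h0).norm.pow 2)).sub
      (((cl (fun L => 2 * (K L * deriv K L)) (continuous_const.mul (hKc.mul hK1c)) z hz0).mul
      (cr _ hφ1c z hz h0)).mul (cRe z hz hz0 h0))
  have J2 : Integrable (fun z : ℂ => 2 * (K (-Real.log ‖z‖) * deriv K (-Real.log ‖z‖)) *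
      deriv φ (Real.log ‖f z‖) * (deriv f z / f z * (starRingEnd ℂ) (1 / z)).re -
      2 * (deriv K (-Real.log ‖z‖) ^ 2 + K (-Real.log ‖z‖) * deriv (deriv K) (-Real.log ‖z‖)) *
      φ (Real.log ‖f z‖) * ‖1 / z‖ ^ 2) := by
    refine integ hf hR0 hsm hd (fun z hz => by simp [hK0 _ hz, hK10 _ hz])
      (fun z hz => by simp [hφ10 _ (log_norm_le hR1 hz), hφ0 _ (log_norm_le hR1 hz)]) ?_
    intro z hz hz0 _ h0
    exact (((cl (fun L => 2 * (K L * deriv K L)) (continuous_const.mul (hKc.mul hK1c)) z hz0).mul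
      (cr _ hφ1c z hz h0)).mul (cRe z hz hz0 h0)).sub
      (((cl (fun L => 2 * (deriv K L ^ 2 + K L * deriv (deriv K) L))
        (continuous_const.mul ((hK1c.pow 2).add (hKc.mul hK2c))) z hz0).mul (cr _ hφc z hz h0)).mul
        ((cI z hz0).norm.pow 2))
  have J3 : Integrable (fun z : ℂ => K (-Real.log ‖z‖) ^ 2 * deriv φ (Real.log ‖f z‖) *
      ‖deriv f z / f z‖ ^ 2 - 2 * (K (-Real.log ‖z‖) * deriv K (-Real.log ‖z‖)) *
      φ (Real.log ‖f z‖) * (deriv f z / f z * (starRingEnd ℂ) (1 / z)).re) := by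
    refine integ hf hR0 hsm hd (fun z hz => by simp [hK0 _ hz])
      (fun z hz => by simp [hφ10 _ (log_norm_le hR1 hz), hφ0 _ (log_norm_le hR1 hz)]) ?_
    intro z hz hz0 _ h0
    exact (((cl (fun L => K L ^ 2) (hKc.pow 2) z hz0).mul (cr _ hφ1c z hz h0)).mul
      ((cS z hz hz0 h0).norm.pow 2)).sub
      (((cl (fun L => 2 * (K L * deriv K L)) (continuous_const.mul (hKc.mul hK1c)) z hz0).mul
      (cr _ hφc z hz h0)).mul (cRe z hz hz0 h0))
  have J4 : ∀ j ∈ s, Integrable (fun z : ℂ => K (-Real.log ‖z‖) ^ 2 *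
      (φ (Real.log ‖f z‖) * g j (Real.log ‖f z‖) * Q j (f z)) *
      ‖deriv f z / f z‖ ^ 2 - 2 * (K (-Real.log ‖z‖) * deriv K (-Real.log ‖z‖)) *
      (φ (Real.log ‖f z‖) * g j (Real.log ‖f z‖) * P j (f z)) *
      (deriv f z / f z * (starRingEnd ℂ) (1 / z)).im) := by
    intro j hj
    refine integ hf hR0 hsm hd (fun z hz => by simp [hK0 _ hz])
      (fun z hz => by simp [hφ0 _ (log_norm_le hR1 hz)]) ?_
    intro z hz hz0 _ h0
    exact (((cl (fun L => K L ^ 2) (hKc.pow 2) z hz0).mul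
      (((cr _ hφc z hz h0).mul (cr _ (gc j hj) z hz h0)).mul (cQ j hj z hz h0))).mul
      ((cS z hz hz0 h0).norm.pow 2)).sub
      (((cl (fun L => 2 * (K L * deriv K L)) (continuous_const.mul (hKc.mul hK1c)) z hz0).mul
      (((cr _ hφc z hz h0).mul (cr _ (gc j hj) z hz h0)).mul (cP j hj z hz h0))).mul (cIm z hz hz0 h0))
  have J5 : Integrable (fun z : ℂ => 2 * (K (-Real.log ‖z‖) * deriv (deriv K) (-Real.log ‖z‖)) *
      φ (Real.log ‖f z‖) * ‖1 / z‖ ^ 2) := by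
    refine integ hf hR0 hsm hd (fun z hz => by simp [hK0 _ hz])
      (fun z hz => by simp [hφ0 _ (log_norm_le hR1 hz)]) ?_
    intro z hz hz0 _ h0
    exact ((cl (fun L => 2 * (K L * deriv (deriv K) L)) (continuous_const.mul (hKc.mul hK2c)) z hz0).mul
      (cr _ hφc z hz h0)).mul ((cI z hz0).norm.pow 2)
  have J6 : Integrable (fun z : ℂ => K (-Real.log ‖z‖) ^ 2 * ‖deriv f z / f z‖ ^ 2 *
      (deriv (deriv φ) (Real.log ‖f z‖) - deriv φ (Real.log ‖f z‖)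
        + 2 * (∑ j ∈ s, η j * g j (Real.log ‖f z‖)) * φ (Real.log ‖f z‖))) := by
    refine integ hf hR0 hsm hd (fun z hz => by simp [hK0 _ hz])
      (fun z hz => by simp [hφ0 _ (log_norm_le hR1 hz), hφ10 _ (log_norm_le hR1 hz),
        hφ20 _ (log_norm_le hR1 hz)]) ?_
    intro z hz hz0 _ h0
    refine ((cl (fun L => K L ^ 2) (hKc.pow 2) z hz0).mul ((cS z hz hz0 h0).norm.pow 2)).mul ?_
    refine cr (fun x => deriv (deriv φ) x - deriv φ x + 2 * (∑ j ∈ s, η j * g j x) * φ x) ?_ z hz h0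
    exact (hφ2c.sub hφ1c).add ((continuous_const.mul (continuous_finsetSum s
      (fun j hj => continuous_const.mul (gc j hj)))).mul hφc)
  -- conclusion
  have hsum : ∫ z, (∑ j ∈ s, (K (-Real.log ‖z‖) ^ 2 *
      (φ (Real.log ‖f z‖) * g j (Real.log ‖f z‖) * Q j (f z)) *
      ‖deriv f z / f z‖ ^ 2 - 2 * (K (-Real.log ‖z‖) * deriv K (-Real.log ‖z‖)) *
      (φ (Real.log ‖f z‖) * g j (Real.log ‖f z‖) * P j (f z)) *
      (deriv f z / f z * (starRingEnd ℂ) (1 / z)).im)) = 0 := by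
    rw [integral_finsetSum s J4]
    exact Finset.sum_eq_zero I4
  have J7 := integrable_finsetSum s J4
  have key : ∀ z, ((K (-Real.log ‖z‖) ^ 2 * deriv (deriv φ) (Real.log ‖f z‖) *
      ‖deriv f z / f z‖ ^ 2 - 2 * (K (-Real.log ‖z‖) * deriv K (-Real.log ‖z‖)) *
      deriv φ (Real.log ‖f z‖) * (deriv f z / f z * (starRingEnd ℂ) (1 / z)).re) +
      (2 * (K (-Real.log ‖z‖) * deriv K (-Real.log ‖z‖)) *
      deriv φ (Real.log ‖f z‖) * (deriv f z / f z * (starRingEnd ℂ) (1 / z)).re -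
      2 * (deriv K (-Real.log ‖z‖) ^ 2 + K (-Real.log ‖z‖) * deriv (deriv K) (-Real.log ‖z‖)) *
      φ (Real.log ‖f z‖) * ‖1 / z‖ ^ 2) -
      (K (-Real.log ‖z‖) ^ 2 * deriv φ (Real.log ‖f z‖) *
      ‖deriv f z / f z‖ ^ 2 - 2 * (K (-Real.log ‖z‖) * deriv K (-Real.log ‖z‖)) *
      φ (Real.log ‖f z‖) * (deriv f z / f z * (starRingEnd ℂ) (1 / z)).re)) +
      2 * (∑ j ∈ s, (K (-Real.log ‖z‖) ^ 2 *
      (φ (Real.log ‖f z‖) * g j (Real.log ‖f z‖) * Q j (f z)) *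
      ‖deriv f z / f z‖ ^ 2 - 2 * (K (-Real.log ‖z‖) * deriv K (-Real.log ‖z‖)) *
      (φ (Real.log ‖f z‖) * g j (Real.log ‖f z‖) * P j (f z)) *
      (deriv f z / f z * (starRingEnd ℂ) (1 / z)).im)) ≤
      (K (-Real.log ‖z‖) ^ 2 * ‖deriv f z / f z‖ ^ 2 *
      (deriv (deriv φ) (Real.log ‖f z‖) - deriv φ (Real.log ‖f z‖)
        + 2 * (∑ j ∈ s, η j * g j (Real.log ‖f z‖)) * φ (Real.log ‖f z‖))) -
      2 * (K (-Real.log ‖z‖) * deriv (deriv K) (-Real.log ‖z‖)) *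
      φ (Real.log ‖f z‖) * ‖1 / z‖ ^ 2 := by
    intro z
    rcases le_or_gt (-Real.log ‖z‖) d with h1 | h1
    · simp [hK0 _ h1, hK10 _ h1]
    rcases lt_or_ge ‖f z‖ R0 with h2 | h2
    · simp [hφ0 _ (log_norm_le hR1 h2), hφ10 _ (log_norm_le hR1 h2), hφ20 _ (log_norm_le hR1 h2)]
    have hz : z ∈ ball (0:ℂ) 1 := by
      rcases tri hf hR0 hsm hd z with h | h | h
      · have := h.self_of_nhds; linarith
      · exact h.1
      · exact h.1
    have hz0 : z ≠ 0 := by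
      rintro rfl
      simp at h1
      linarith
    have hfz : f z ≠ 0 := by
      intro h
      rw [h] at h2
      simp at h2
      linarith
    have hp := hpart z hz h2 h1
    have hpw : ∀ j ∈ s, g j (Real.log ‖f z‖) *
      (K (-Real.log ‖z‖) * deriv K (-Real.log ‖z‖) * (deriv f z / f z * (starRingEnd ℂ) (1 / z)).re
        - 2 * (K (-Real.log ‖z‖) * deriv K (-Real.log ‖z‖)) * P j (f z) *
          (deriv f z / f z * (starRingEnd ℂ) (1 / z)).im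
        - K (-Real.log ‖z‖) ^ 2 * ‖deriv f z / f z‖ ^ 2 * (η j - Q j (f z)))
        ≤ g j (Real.log ‖f z‖) * (deriv K (-Real.log ‖z‖) ^ 2 * ‖1 / z‖ ^ 2) := by
      intro j hj
      rcases (hg0 j hj (Real.log ‖f z‖)).eq_or_lt with h | h
      · rw [← h]; simp
      · exact mul_le_mul_of_nonneg_left (hPW j hj z hz hz0 h2 hfz h1 h) h.le
    have hS := Finset.sum_le_sum hpw
    rw [← Finset.sum_mul, hp, one_mul] at hS
    have hφz := hφp (Real.log ‖f z‖)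
    have hS2 := mul_le_mul_of_nonneg_left hS hφz
    rw [Finset.mul_sum] at hS2
    have e1 : ∑ j ∈ s, φ (Real.log ‖f z‖) * (g j (Real.log ‖f z‖) *
      (K (-Real.log ‖z‖) * deriv K (-Real.log ‖z‖) * (deriv f z / f z * (starRingEnd ℂ) (1 / z)).re
        - 2 * (K (-Real.log ‖z‖) * deriv K (-Real.log ‖z‖)) * P j (f z) *
          (deriv f z / f z * (starRingEnd ℂ) (1 / z)).im
        - K (-Real.log ‖z‖) ^ 2 * ‖deriv f z / f z‖ ^ 2 * (η j - Q j (f z)))) =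
      φ (Real.log ‖f z‖) * (∑ j ∈ s, g j (Real.log ‖f z‖)) *
        (K (-Real.log ‖z‖) * deriv K (-Real.log ‖z‖) * (deriv f z / f z * (starRingEnd ℂ) (1 / z)).re)
      - K (-Real.log ‖z‖) ^ 2 * ‖deriv f z / f z‖ ^ 2 * φ (Real.log ‖f z‖) *
        (∑ j ∈ s, η j * g j (Real.log ‖f z‖)) +
      (∑ j ∈ s, (K (-Real.log ‖z‖) ^ 2 *
      (φ (Real.log ‖f z‖) * g j (Real.log ‖f z‖) * Q j (f z)) *
      ‖deriv f z / f z‖ ^ 2 - 2 * (K (-Real.log ‖z‖) * deriv K (-Real.log ‖z‖)) *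
      (φ (Real.log ‖f z‖) * g j (Real.log ‖f z‖) * P j (f z)) *
      (deriv f z / f z * (starRingEnd ℂ) (1 / z)).im)) := by
      rw [Finset.mul_sum, Finset.sum_mul, Finset.mul_sum, ← Finset.sum_sub_distrib,
        ← Finset.sum_add_distrib]
      refine Finset.sum_congr rfl (fun j _ => ?_)
      ring
    rw [e1, hp] at hS2
    nlinarith [hS2]
  have J8 := ((J1.add J2).sub J3).add (J7.const_mul 2)
  have hmono := integral_mono J8 (J6.sub J5) key
  rw [integral_add' ((J1.add J2).sub J3) (J7.const_mul 2), integral_sub' (J1.add J2) J3,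
    integral_add' J1 J2, integral_const_mul, I1, I2, I3, hsum, integral_sub' J6 J5] at hmono
  refine ⟨J5, J6, ?_⟩
  linarith

end

end Pool.Agent.Lib.MP_6ad5de_an
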