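import Mathlib

open Metric Complex Filter Topology MeasureTheory Set

namespace Pool.Agent.Lib.MP_6ad5de_an

lemma norm_circleMap_sub_sq (r R φ θ : ℝ) :
    ‖circleMap 0 R θ - circleMap 0 r φ‖ ^ 2 = R ^ 2 + r ^ 2 - 2 * R * r * Real.cos (θ - φ) := by
  rw [← Complex.normSq_eq_norm_sq, Complex.normSq_apply, Real.cos_sub]
  simp only [circleMap, zero_add, Complex.exp_mul_I, Complex.sub_re, Complex.sub_im, Complex.mul_re,
    Complex.mul_im, Complex.add_re, Complex.add_im, Complex.ofReal_re, Complex.ofReal_im,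
    Complex.I_re, Complex.I_im, ← Complex.ofReal_cos, ← Complex.ofReal_sin]
  have h1 := Real.sin_sq_add_cos_sq θ
  have h2 := Real.sin_sq_add_cos_sq φ
  linear_combination R ^ 2 * h1 + r ^ 2 * h2

/-- the kernel on circles -/
noncomputable def ker (r R φ θ : ℝ) : ℝ :=
  (R ^ 2 - r ^ 2) / (R ^ 2 + r ^ 2 - 2 * R * r * Real.cos (θ - φ))

lemma ker_den_pos {r R : ℝ} (hr : 0 ≤ r) (hrR : r < R) (φ θ : ℝ) :
    0 < R ^ 2 + r ^ 2 - 2 * R * r * Real.cos (θ - φ) := by
  have h1 := Real.cos_le_one (θ - φ)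
  have h2 : 0 ≤ R * r := mul_nonneg (hr.trans hrR.le) hr
  nlinarith [mul_le_mul_of_nonneg_left h1 h2, sq_pos_of_pos (sub_pos.mpr hrR)]

lemma ker_nonneg {r R : ℝ} (hr : 0 ≤ r) (hrR : r < R) (φ θ : ℝ) : 0 ≤ ker r R φ θ :=
  div_nonneg (by nlinarith) (ker_den_pos hr hrR φ θ).le

lemma ker_symm (r R φ θ : ℝ) : ker r R φ θ = ker r R θ φ := by
  unfold ker
  rw [← Real.cos_neg (θ - φ), neg_sub]

lemma ker_eq (r R φ θ : ℝ) : poissonKernel 0 (circleMap 0 r φ) (circleMap 0 R θ) = ker r R φ θ := by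
  unfold ker
  rw [poissonKernel_def, sub_zero, sub_zero, norm_circleMap_sub_sq, norm_circleMap_zero,
    norm_circleMap_zero, sq_abs, sq_abs]

lemma ker_continuous {r R : ℝ} (hr : 0 ≤ r) (hrR : r < R) :
    Continuous (fun p : ℝ × ℝ => ker r R p.1 p.2) := by
  unfold ker
  apply Continuous.div (by fun_prop) (by fun_prop)
  intro p
  exact (ker_den_pos hr hrR p.1 p.2).ne'

lemma circle_mem {r R : ℝ} (hr : 0 ≤ r) (hrR : r < R) (θ : ℝ) : circleMap 0 r θ ∈ ball (0:ℂ) R := by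
  simp [abs_of_nonneg hr, hrR]

lemma ker_integral {r R : ℝ} (hr : 0 ≤ r) (hrR : r < R) (φ : ℝ) :
    ∫ θ in (0:ℝ)..(2 * Real.pi), ker r R φ θ = 2 * Real.pi := by
  have h1 : DiffContOnCl ℂ (fun _ : ℂ => (1:ℂ)) (ball 0 R) := diffContOnCl_const
  have h2 := h1.circleAverage_poissonKernel_smul (circle_mem hr hrR φ)
  rw [Real.circleAverage_def] at h2
  simp only [Pi.smul_apply', ker_eq] at h2
  have h3 : (∫ θ in (0:ℝ)..(2 * Real.pi), (ker r R φ θ) • (1:ℂ)) =
      ((∫ θ in (0:ℝ)..(2 * Real.pi), ker r R φ θ : ℝ) : ℂ) := by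
    rw [← intervalIntegral.integral_ofReal]
    simp
  rw [h3] at h2
  have h4 : (2 * Real.pi)⁻¹ * (∫ θ in (0:ℝ)..(2 * Real.pi), ker r R φ θ) = 1 := by
    have := congrArg Complex.re h2
    simpa using this
  have hpi : 0 < 2 * Real.pi := by positivity
  field_simp at h4
  linarith

/-- circular means increase -/
theorem mean_mono {f : ℂ → ℂ} (hf : DifferentiableOn ℂ f (ball 0 1)) {r R : ℝ} (hr : 0 ≤ r)
    (hrR : r < R) (hR : R < 1) :
    ∫ θ in (0:ℝ)..(2 * Real.pi), ‖f (circleMap 0 r θ)‖ ≤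
      ∫ θ in (0:ℝ)..(2 * Real.pi), ‖f (circleMap 0 R θ)‖ := by
  have hR0 : 0 < R := hr.trans_lt hrR
  have hcont : ContinuousOn f (ball 0 1) := hf.continuousOn
  have c1 : ∀ s, 0 ≤ s → s < 1 → Continuous (fun θ => f (circleMap 0 s θ)) := fun s hs hs1 =>
    hcont.comp_continuous (continuous_circleMap 0 s) (fun θ => circle_mem hs hs1 θ)
  have cR := c1 R hR0.le hR
  have cr := c1 r hr (hrR.trans hR)
  have hd : DiffContOnCl ℂ f (ball 0 R) := by
    apply DifferentiableOn.diffContOnCl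
    rw [closure_ball 0 hR0.ne']
    exact hf.mono (closedBall_subset_ball hR)
  have ck := ker_continuous hr hrR
  have hpi : 0 < 2 * Real.pi := by positivity
  have hA : ∀ φ, ‖f (circleMap 0 r φ)‖ ≤
      (2 * Real.pi)⁻¹ * ∫ θ in (0:ℝ)..(2 * Real.pi), ker r R φ θ * ‖f (circleMap 0 R θ)‖ := by
    intro φ
    have h2 := hd.circleAverage_poissonKernel_smul (circle_mem hr hrR φ)
    rw [Real.circleAverage_def] at h2
    simp only [Pi.smul_apply', ker_eq] at h2
    rw [← h2, norm_smul, Real.norm_eq_abs, abs_of_pos (inv_pos.mpr hpi)]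
    apply mul_le_mul_of_nonneg_left _ (inv_pos.mpr hpi).le
    refine (intervalIntegral.norm_integral_le_integral_norm hpi.le).trans (le_of_eq ?_)
    congr 1
    ext θ
    rw [norm_smul, Real.norm_eq_abs, abs_of_nonneg (ker_nonneg hr hrR φ θ)]
  have cF : Continuous (fun p : ℝ × ℝ => ker r R p.1 p.2 * ‖f (circleMap 0 R p.2)‖) :=
    ck.mul (cR.norm.comp continuous_snd)
  have cG : Continuous (fun φ => (2 * Real.pi)⁻¹ *
      ∫ θ in (0:ℝ)..(2 * Real.pi), ker r R φ θ * ‖f (circleMap 0 R θ)‖) :=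
    continuous_const.mul (intervalIntegral.continuous_parametric_intervalIntegral_of_continuous'
      cF _ _)
  calc ∫ θ in (0:ℝ)..(2 * Real.pi), ‖f (circleMap 0 r θ)‖
      ≤ ∫ φ in (0:ℝ)..(2 * Real.pi), (2 * Real.pi)⁻¹ *
          ∫ θ in (0:ℝ)..(2 * Real.pi), ker r R φ θ * ‖f (circleMap 0 R θ)‖ := by
        apply intervalIntegral.integral_mono_on hpi.le (cr.norm.intervalIntegrable _ _)
          (cG.intervalIntegrable _ _)
        intro φ _
        exact hA φ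
    _ = (2 * Real.pi)⁻¹ * ∫ φ in (0:ℝ)..(2 * Real.pi),
          ∫ θ in (0:ℝ)..(2 * Real.pi), ker r R φ θ * ‖f (circleMap 0 R θ)‖ := by
        rw [intervalIntegral.integral_const_mul]
    _ = (2 * Real.pi)⁻¹ * ∫ θ in (0:ℝ)..(2 * Real.pi),
          ∫ φ in (0:ℝ)..(2 * Real.pi), ker r R φ θ * ‖f (circleMap 0 R θ)‖ := by
        rw [intervalIntegral_intervalIntegral_swap]
        have : IntegrableOn (fun p : ℝ × ℝ => ker r R p.1 p.2 * ‖f (circleMap 0 R p.2)‖)
            (Icc 0 (2 * Real.pi) ×ˢ Icc 0 (2 * Real.pi)) :=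
          cF.continuousOn.integrableOn_compact (isCompact_Icc.prod isCompact_Icc)
        refine this.mono_set (prod_mono ?_ ?_) <;>
        · rw [uIoc_of_le hpi.le]; exact Ioc_subset_Icc_self
    _ = (2 * Real.pi)⁻¹ * ∫ θ in (0:ℝ)..(2 * Real.pi), 2 * Real.pi * ‖f (circleMap 0 R θ)‖ := by
        congr 2
        ext θ
        rw [intervalIntegral.integral_mul_const]
        have e : ∫ φ in (0:ℝ)..(2 * Real.pi), ker r R φ θ = 2 * Real.pi := by
          have : (fun φ => ker r R φ θ) = fun φ => ker r R θ φ := by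
            ext φ; exact ker_symm r R φ θ
          rw [this]
          exact ker_integral hr hrR θ
        rw [e]
    _ = ∫ θ in (0:ℝ)..(2 * Real.pi), ‖f (circleMap 0 R θ)‖ := by
        rw [intervalIntegral.integral_const_mul]
        field_simp

/-- from area bounds over annuli to circular means -/
theorem mean_bound {f : ℂ → ℂ} (hf : DifferentiableOn ℂ f (ball 0 1)) {C : ℝ}
    (hC : ∀ d, 0 < d →
      ∫ z in {z : ℂ | 2 * d ≤ -Real.log ‖z‖ ∧ -Real.log ‖z‖ ≤ 3 * d}, ‖f z‖ ≤ C)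
    {r : ℝ} (hr : 1 / 2 ≤ r) (hr1 : r < 1) :
    ∫ θ in (0:ℝ)..(2 * Real.pi), ‖f (circleMap 0 r θ)‖ ≤ 12 * |C| / (1 - r) := by
  have hcont : ContinuousOn f (ball 0 1) := hf.continuousOn
  have hr0 : 0 < r := by linarith
  have hpi := Real.pi_pos
  set d : ℝ := -Real.log r / 3 with hd
  have hlog : Real.log r ≤ r - 1 := Real.log_le_sub_one_of_pos hr0
  have hd0 : 0 < d := by rw [hd]; linarith
  have h3d : -(3 * d) = Real.log r := by rw [hd]; ring
  have ea : Real.exp (-(3 * d)) = r := by rw [h3d, Real.exp_log hr0]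
  set b : ℝ := Real.exp (-(2 * d)) with hb
  have hb1 : b < 1 := by rw [hb, Real.exp_lt_one_iff]; linarith
  have hab : r < b := by rw [hb, ← ea, Real.exp_lt_exp]; linarith
  have hbr : r * d ≤ b - r := by
    have e1 : b = r * Real.exp d := by
      rw [hb, ← ea, ← Real.exp_add]; congr 1; ring
    have e2 := Real.add_one_le_exp d
    rw [e1]
    nlinarith
  set A : Set ℂ := {z : ℂ | 2 * d ≤ -Real.log ‖z‖ ∧ -Real.log ‖z‖ ≤ 3 * d} with hA
  have hAmem : ∀ z : ℂ, z ≠ 0 → (z ∈ A ↔ r ≤ ‖z‖ ∧ ‖z‖ ≤ b) := by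
    intro z hz
    have hz0 : 0 < ‖z‖ := norm_pos_iff.mpr hz
    rw [hA, mem_ofPred_eq]
    constructor
    · rintro ⟨h1, h2⟩
      constructor
      · rw [← ea, ← Real.exp_log hz0]; exact Real.exp_le_exp.mpr (by linarith)
      · rw [hb, ← Real.exp_log hz0]; exact Real.exp_le_exp.mpr (by linarith)
    · rintro ⟨h1, h2⟩
      constructor
      · have := Real.log_le_log hz0 h2
        rw [hb, Real.log_exp] at this
        linarith
      · have := Real.log_le_log hr0 h1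
        rw [← h3d] at this
        linarith
  have hLm : Measurable (fun z : ℂ => -Real.log ‖z‖) := (Real.measurable_log.comp measurable_norm).neg
  have hAm : MeasurableSet A := by
    apply MeasurableSet.inter
    · exact measurableSet_le measurable_const hLm
    · exact measurableSet_le hLm measurable_const
  -- polar coordinates
  have psymm : ∀ p : ℝ × ℝ, Complex.polarCoord.symm p = circleMap 0 p.1 p.2 := by
    intro p
    rw [Complex.polarCoord_symm_apply, circleMap, zero_add, Complex.exp_mul_I]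
    simp
  have e1 : ∫ z in A, ‖f z‖ = ∫ p in Icc r b ×ˢ Ioo (-Real.pi) Real.pi,
      p.1 * ‖f (circleMap 0 p.1 p.2)‖ := by
    rw [← integral_indicator hAm, ← Complex.integral_comp_polarCoord_symm]
    have ht : polarCoord.target = Ioi (0:ℝ) ×ˢ Ioo (-Real.pi) Real.pi := rfl
    rw [ht]
    have hsub : Icc r b ×ˢ Ioo (-Real.pi) Real.pi ⊆ Ioi (0:ℝ) ×ˢ Ioo (-Real.pi) Real.pi :=
      prod_mono (fun x hx => hr0.trans_le hx.1) (le_refl _)
    rw [setIntegral_eq_of_subset_of_forall_sdiff_eq_zero (measurableSet_Ioi.prod measurableSet_Ioo) hsub]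
    · apply setIntegral_congr_fun (measurableSet_Icc.prod measurableSet_Ioo)
      intro p hp
      have hp1 : 0 < p.1 := hr0.trans_le hp.1.1
      have hz : circleMap 0 p.1 p.2 ≠ 0 := by
        rw [← norm_pos_iff, norm_circleMap_zero, abs_of_pos hp1]; exact hp1
      simp only [psymm]
      rw [indicator_of_mem, smul_eq_mul]
      rw [hAmem _ hz, norm_circleMap_zero, abs_of_pos hp1]
      exact hp.1
    · intro p hp
      have hp1 : 0 < p.1 := hp.1.1
      have hz : circleMap 0 p.1 p.2 ≠ 0 := by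
        rw [← norm_pos_iff, norm_circleMap_zero, abs_of_pos hp1]; exact hp1
      simp only [psymm]
      rw [indicator_of_notMem, smul_zero]
      rw [hAmem _ hz, norm_circleMap_zero, abs_of_pos hp1]
      intro h
      exact hp.2 ⟨h, hp.1.2⟩
  have cF : ContinuousOn (fun p : ℝ × ℝ => p.1 * ‖f (circleMap 0 p.1 p.2)‖)
      (Icc r b ×ˢ Icc (-Real.pi) Real.pi) := by
    apply continuousOn_fst.mul
    apply ContinuousOn.norm
    apply hcont.comp (by unfold circleMap; fun_prop)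
    intro p hp
    rw [mem_ball_zero_iff, norm_circleMap_zero, abs_of_pos (hr0.trans_le hp.1.1)]
    exact hp.1.2.trans_lt hb1
  have iF : IntegrableOn (fun p : ℝ × ℝ => p.1 * ‖f (circleMap 0 p.1 p.2)‖)
      (Icc r b ×ˢ Ioo (-Real.pi) Real.pi) :=
    (cF.integrableOn_compact (isCompact_Icc.prod isCompact_Icc)).mono_set
      (prod_mono (le_refl _) Ioo_subset_Icc_self)
  have e2 : ∫ p in Icc r b ×ˢ Ioo (-Real.pi) Real.pi, p.1 * ‖f (circleMap 0 p.1 p.2)‖ =
      ∫ s in Icc r b, ∫ θ in Ioo (-Real.pi) Real.pi, s * ‖f (circleMap 0 s θ)‖ :=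
    setIntegral_prod _ iF
  have e3 : ∀ s : ℝ, ∫ θ in Ioo (-Real.pi) Real.pi, s * ‖f (circleMap 0 s θ)‖ =
      s * ∫ θ in (0:ℝ)..(2 * Real.pi), ‖f (circleMap 0 s θ)‖ := by
    intro s
    rw [← integral_Ioc_eq_integral_Ioo, ← intervalIntegral.integral_of_le (by linarith),
      intervalIntegral.integral_const_mul]
    congr 1
    have hper : Function.Periodic (fun θ => ‖f (circleMap 0 s θ)‖) (2 * Real.pi) := by
      intro θ
      simp only
      rw [periodic_circleMap 0 s θ]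
    have := hper.intervalIntegral_add_eq (-Real.pi) 0
    rw [zero_add] at this
    rw [← this]
    congr 1
    ring
  have iF2 : IntegrableOn (fun s => ∫ θ in Ioo (-Real.pi) Real.pi, s * ‖f (circleMap 0 s θ)‖)
      (Icc r b) := by
    have := iF
    rw [IntegrableOn, Measure.volume_eq_prod, ← Measure.prod_restrict] at this
    exact this.integral_prod_left
  have M0 : ∀ s : ℝ, 0 ≤ ∫ θ in (0:ℝ)..(2 * Real.pi), ‖f (circleMap 0 s θ)‖ := fun s =>
    intervalIntegral.integral_nonneg (by positivity) (fun _ _ => norm_nonneg _)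
  have e4 : (b - r) * (r * ∫ θ in (0:ℝ)..(2 * Real.pi), ‖f (circleMap 0 r θ)‖) ≤
      ∫ s in Icc r b, ∫ θ in Ioo (-Real.pi) Real.pi, s * ‖f (circleMap 0 s θ)‖ := by
    have h1 : ∫ s in Icc r b, (r * ∫ θ in (0:ℝ)..(2 * Real.pi), ‖f (circleMap 0 r θ)‖) =
        (b - r) * (r * ∫ θ in (0:ℝ)..(2 * Real.pi), ‖f (circleMap 0 r θ)‖) := by
      rw [setIntegral_const, smul_eq_mul, Real.volume_real_Icc_of_le hab.le]
    rw [← h1]
    apply setIntegral_mono_on (integrableOn_const (by simp) enorm_ne_top) iF2 measurableSet_Icc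
    intro s hs
    rw [e3]
    have hs1 : s < 1 := hs.2.trans_lt hb1
    have hm : ∫ θ in (0:ℝ)..(2 * Real.pi), ‖f (circleMap 0 r θ)‖ ≤
        ∫ θ in (0:ℝ)..(2 * Real.pi), ‖f (circleMap 0 s θ)‖ := by
      rcases hs.1.eq_or_lt with h | h
      · rw [h]
      · exact mean_mono hf hr0.le h hs1
    exact mul_le_mul hs.1 hm (M0 r) (hr0.le.trans hs.1)
  have e5 := hC d hd0
  rw [e1, e2] at e5
  have e6 : (b - r) * (r * ∫ θ in (0:ℝ)..(2 * Real.pi), ‖f (circleMap 0 r θ)‖) ≤ |C| :=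
    (e4.trans e5).trans (le_abs_self C)
  have hdr : (1 - r) / 3 ≤ d := by rw [hd]; linarith
  have M1 := M0 r
  rw [le_div_iff₀ (by linarith)]
  have e7 : (1 / 2) * ((1 - r) / 3) ≤ b - r := by
    refine le_trans ?_ hbr
    apply mul_le_mul hr hdr (by linarith) hr0.le
  have e8 : (1 / 2) * ((1 - r) / 3) * ((1 / 2) * ∫ θ in (0:ℝ)..(2 * Real.pi), ‖f (circleMap 0 r θ)‖) ≤ |C| := by
    refine le_trans ?_ e6
    apply mul_le_mul e7 _ (by positivity) (by linarith)
    exact mul_le_mul_of_nonneg_right hr M1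
  linarith

theorem mean_bound' {f : ℂ → ℂ} (hf : DifferentiableOn ℂ f (ball 0 1)) {C : ℝ}
    (hC : ∀ d, 0 < d →
      ∫ z in {z : ℂ | 2 * d ≤ -Real.log ‖z‖ ∧ -Real.log ‖z‖ ≤ 3 * d}, ‖f z‖ ≤ C)
    {r : ℝ} (hr : 0 ≤ r) (hr1 : r < 1) :
    (1 / (2 * Real.pi)) * ∫ θ in (0:ℝ)..(2 * Real.pi), ‖f (circleMap 0 r θ)‖ ≤ 24 * |C| / (1 - r) := by
  have hpi := Real.pi_gt_three
  have M0 : ∀ s : ℝ, 0 ≤ ∫ θ in (0:ℝ)..(2 * Real.pi), ‖f (circleMap 0 s θ)‖ := fun s =>
    intervalIntegral.integral_nonneg (by positivity) (fun _ _ => norm_nonneg _)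
  have h1 : ∫ θ in (0:ℝ)..(2 * Real.pi), ‖f (circleMap 0 r θ)‖ ≤ 24 * |C| / (1 - r) := by
    rcases le_or_gt (1 / 2) r with h | h
    · refine (mean_bound hf hC h hr1).trans ?_
      gcongr
      · linarith
    · have h2 := (mean_mono hf hr h (by norm_num)).trans (mean_bound hf hC (le_refl (1/2)) (by norm_num))
      refine h2.trans ?_
      rw [div_le_div_iff₀ (by norm_num) (by linarith)]
      nlinarith [abs_nonneg C]
  have h2 : 1 / (2 * Real.pi) ≤ 1 := by
    rw [div_le_one (by positivity)]; linarith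
  have h3 := M0 r
  calc (1 / (2 * Real.pi)) * ∫ θ in (0:ℝ)..(2 * Real.pi), ‖f (circleMap 0 r θ)‖
      ≤ 1 * ∫ θ in (0:ℝ)..(2 * Real.pi), ‖f (circleMap 0 r θ)‖ := by gcongr
    _ ≤ _ := by rw [one_mul]; exact h1

/-- from circular means to coefficients -/
theorem coeff_bound {f : ℂ → ℂ} (hf : DifferentiableOn ℂ f (ball 0 1)) {C : ℝ} (hC0 : 0 ≤ C)
    (hC : ∀ r : ℝ, 0 ≤ r → r < 1 →
      (1 / (2 * Real.pi)) * ∫ θ in (0:ℝ)..(2 * Real.pi), ‖f (circleMap 0 r θ)‖ ≤ C / (1 - r)) (n : ℕ) :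
    ‖iteratedDeriv n f 0 / (n.factorial : ℂ)‖ ≤ (6 * C) * ((n : ℝ) + 1) := by
  set r : ℝ := ((n : ℝ) + 1) / ((n : ℝ) + 2) with hr
  have hn : (0:ℝ) ≤ n := Nat.cast_nonneg n
  have hr0 : 0 < r := by positivity
  have hr1 : r < 1 := by rw [hr, div_lt_one (by positivity)]; linarith
  have h1r : 1 - r = 1 / ((n:ℝ) + 2) := by rw [hr]; field_simp; ring
  have hfs := (show DifferentiableOn ℂ f (closedBall 0 ((⟨r, hr0.le⟩ : NNReal) : ℝ)) from
    hf.mono (closedBall_subset_ball hr1)).hasFPowerSeriesOnBall (show (0:NNReal) < ⟨r, hr0.le⟩ from hr0)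
  have h1 := hfs.factorial_smul (1:ℂ) n
  rw [← iteratedDeriv_eq_iteratedFDeriv] at h1
  have hfac : (n.factorial : ℂ) ≠ 0 := by exact_mod_cast n.factorial_ne_zero
  have h2 : iteratedDeriv n f 0 / (n.factorial : ℂ) = cauchyPowerSeries f 0 r n (fun _ => 1) := by
    rw [← h1, nsmul_eq_mul]
    field_simp
    rfl
  rw [h2]
  have h3 : ‖cauchyPowerSeries f 0 r n (fun _ => 1)‖ ≤ ‖cauchyPowerSeries f 0 r n‖ := by
    have := (cauchyPowerSeries f 0 r n).le_opNorm (fun _ => 1)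
    simpa using this
  have h4 := norm_cauchyPowerSeries_le f 0 r n
  have h5 := hC r hr0.le hr1
  rw [one_div] at h5
  have h6 : |r|⁻¹ ^ n ≤ 3 := by
    rw [abs_of_pos hr0]
    have e1 : r⁻¹ = 1 / ((n:ℝ) + 1) + 1 := by rw [hr]; field_simp; ring
    have e2 : r⁻¹ ≤ Real.exp (1 / ((n:ℝ) + 1)) := by rw [e1]; exact Real.add_one_le_exp _
    calc r⁻¹ ^ n ≤ Real.exp (1 / ((n:ℝ) + 1)) ^ n := by gcongr
      _ = Real.exp (n * (1 / ((n:ℝ) + 1))) := by rw [← Real.exp_nat_mul]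
      _ ≤ Real.exp 1 := by
        apply Real.exp_le_exp.mpr
        rw [mul_one_div, div_le_one (by positivity)]
        linarith
      _ ≤ 3 := by have := Real.exp_one_lt_d9; linarith
  have h7 : C / (1 - r) = C * ((n:ℝ) + 2) := by rw [h1r]; field_simp
  rw [h7] at h5
  calc ‖cauchyPowerSeries f 0 r n (fun _ => 1)‖
      ≤ ((2 * Real.pi)⁻¹ * ∫ θ in (0:ℝ)..(2 * Real.pi), ‖f (circleMap 0 r θ)‖) * |r|⁻¹ ^ n := h3.trans h4
    _ ≤ (C * ((n:ℝ) + 2)) * 3 := by
        apply mul_le_mul h5 h6 (by positivity) (by positivity)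
    _ ≤ (6 * C) * ((n : ℝ) + 1) := by nlinarith

end Pool.Agent.Lib.MP_6ad5de_an
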